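import Pool.Agent.Lib.MP_b5b7b7_an.Defs

/-!
# MP_b5b7b7_an: blow-up limit of a sum of parametrised sheets
-/

set_option autoImplicit false

open MeasureTheory Metric Set Filter Topology
open scoped RealInnerProductSpace NNReal

namespace VUC

theorem blow_norm {d : ℕ} (L : ℂ →L[ℝ] Eu d) (lam : ℝ) (hlam : 0 < lam)
    (hconf : ∀ v, ‖L v‖ ^ 2 = lam * ‖v‖ ^ 2) (v : ℂ) : ‖L v‖ = Real.sqrt lam * ‖v‖ := by
  have hs2 : Real.sqrt lam ^ 2 = lam := Real.sq_sqrt hlam.le
  have h1 : ‖L v‖ ^ 2 = (Real.sqrt lam * ‖v‖) ^ 2 := by rw [hconf, mul_pow, hs2]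
  exact (pow_left_inj₀ (norm_nonneg _) (by positivity) two_ne_zero).1 h1

theorem blow_inj {d : ℕ} (L : ℂ →L[ℝ] Eu d) (lam : ℝ) (hlam : 0 < lam)
    (hconf : ∀ v, ‖L v‖ ^ 2 = lam * ‖v‖ ^ 2) :
    Function.Injective (L : ℂ →ₗ[ℝ] Eu d) := by
  rw [injective_iff_map_eq_zero]
  intro v hv
  have h1 : ‖L v‖ = 0 := by
    rw [norm_eq_zero]; exact hv
  rw [blow_norm L lam hlam hconf] at h1
  have := (mul_eq_zero.1 h1).resolve_left (Real.sqrt_pos.2 hlam).ne'
  exact norm_eq_zero.1 this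

/-- scaling: the integral over the image of a conformal linear map -/
theorem blow_integral_range {d : ℕ} (L : ℂ →L[ℝ] Eu d) (lam : ℝ) (hlam : 0 < lam)
    (hconf : ∀ v, ‖L v‖ ^ 2 = lam * ‖v‖ ^ 2) (φ : Eu d → ℝ) :
    ∫ u : LinearMap.range (L : ℂ →ₗ[ℝ] Eu d), φ u = ∫ v : ℂ, lam * φ (L v) := by
  set s : ℝ := Real.sqrt lam with hs
  have hspos : 0 < s := Real.sqrt_pos.2 hlam
  have hs2 : s ^ 2 = lam := Real.sq_sqrt hlam.le
  -- the linear isometry
  let A : ℂ →ₗ[ℝ] LinearMap.range (L : ℂ →ₗ[ℝ] Eu d) :=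
    s⁻¹ • (L : ℂ →ₗ[ℝ] Eu d).rangeRestrict
  have hAval : ∀ v, ((A v : LinearMap.range (L : ℂ →ₗ[ℝ] Eu d)) : Eu d) = s⁻¹ • L v := by
    intro v
    rfl
  have hAnorm : ∀ v, ‖A v‖ = ‖v‖ := by
    intro v
    rw [Submodule.coe_norm, hAval, norm_smul, blow_norm L lam hlam hconf,
      Real.norm_of_nonneg (by positivity)]
    rw [← hs]
    field_simp
  let A' : ℂ →ₗᵢ[ℝ] LinearMap.range (L : ℂ →ₗ[ℝ] Eu d) := ⟨A, hAnorm⟩
  have hfin : Module.finrank ℝ ℂ = Module.finrank ℝ (LinearMap.range (L : ℂ →ₗ[ℝ] Eu d)) :=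
    (LinearMap.finrank_range_of_inj (blow_inj L lam hlam hconf)).symm
  let E : ℂ ≃ₗᵢ[ℝ] LinearMap.range (L : ℂ →ₗ[ℝ] Eu d) := A'.toLinearIsometryEquiv hfin
  have hE : ∀ v, ((E v : LinearMap.range (L : ℂ →ₗ[ℝ] Eu d)) : Eu d) = s⁻¹ • L v := by
    intro v
    rfl
  have hmp : MeasurePreserving E volume volume := E.measurePreserving
  have h1 : ∫ v : ℂ, φ (E v) = ∫ u : LinearMap.range (L : ℂ →ₗ[ℝ] Eu d), φ u :=
    hmp.integral_comp E.toHomeomorph.measurableEmbedding
      (fun u : LinearMap.range (L : ℂ →ₗ[ℝ] Eu d) => φ u)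
  rw [← h1]
  simp only [hE]
  have h2 : ∫ v : ℂ, φ (s⁻¹ • L v) = ∫ v : ℂ, (fun w => φ (L w)) (s⁻¹ • v) := by
    congr 1
    ext v
    simp only [map_smul]
  rw [h2, Measure.integral_comp_smul volume (fun w => φ (L w)) s⁻¹,
    Complex.finrank_real_complex, integral_const_mul]
  have h3 : |((s⁻¹) ^ 2)⁻¹| = lam := by
    rw [inv_pow, inv_inv, hs2, abs_of_pos hlam]
  rw [h3, smul_eq_mul]

/-- change of variables `w = w₀ + t v` -/
theorem blow_change (G : ℂ → ℝ) (w₀ : ℂ) (t : ℝ) :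
    (t ^ 2)⁻¹ * ∫ w, G w = ∫ v, G (w₀ + t • v) := by
  have h1 := Measure.integral_comp_smul volume (fun w => G (w₀ + w)) t
  rw [Complex.finrank_real_complex, integral_add_left_eq_self G w₀] at h1
  rw [h1, abs_of_nonneg (by positivity), smul_eq_mul]

/-- blow-up of a sum of parametrised sheets at a point covered by exactly one sheet -/
theorem approxTangent_of_sheets {d : ℕ} {ι : Type*} [Fintype ι] (F : ι → ℂ → Eu d)
    (lam : ℂ → ℝ) (D : Set ℂ) (hD : IsOpen D) (U : Set (Eu d)) (hU : IsOpen U)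
    (hcont : ∀ i, Continuous (F i)) (c : ℝ) (hc : 0 < c)
    (hsep : ∀ i j w w', c * ‖w - w'‖ ≤ ‖F i w - F j w'‖)
    (Λ : ℝ) (hlam0 : ∀ w, 0 ≤ lam w) (hlamΛ : ∀ w ∈ D, lam w ≤ Λ) (hlamm : Measurable lam)
    (hDfin : volume D < ⊤)
    (i₀ : ι) (w₀ : ℂ) (hw₀ : w₀ ∈ D) (hlamc : ContinuousAt lam w₀) (hlampos : 0 < lam w₀)
    (L : ℂ →L[ℝ] Eu d) (hL : HasFDerivAt (F i₀) L w₀)
    (hconf : ∀ v, ‖L v‖ ^ 2 = lam w₀ * ‖v‖ ^ 2)
    (hother : ∀ j, j ≠ i₀ → F j w₀ ≠ F i₀ w₀) (hFU : F i₀ w₀ ∈ U) :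
    HasApproxTangent 2 ((∑ i, ((volume.restrict D).withDensity
        (fun w => ENNReal.ofReal (lam w))).map (F i)).restrict U) (F i₀ w₀)
      (LinearMap.range (L : ℂ →ₗ[ℝ] Eu d)) 1 := by
  classical
  refine ⟨?_, fun φ hφ hφc => ?_⟩
  · rw [LinearMap.finrank_range_of_inj (blow_inj L (lam w₀) hlampos hconf),
      Complex.finrank_real_complex]
  set x₀ := F i₀ w₀ with hx₀
  set ν : Measure ℂ := (volume.restrict D).withDensity (fun w => ENNReal.ofReal (lam w)) with hν
  have hΛ0 : 0 ≤ Λ := (hlam0 w₀).trans (hlamΛ w₀ hw₀)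
  -- finiteness of ν
  have hνfin : IsFiniteMeasure ν := by
    refine ⟨?_⟩
    rw [hν, withDensity_apply _ MeasurableSet.univ, Measure.restrict_univ]
    calc ∫⁻ w in D, ENNReal.ofReal (lam w)
        ≤ ∫⁻ _w in D, ENNReal.ofReal Λ := by
          refine setLIntegral_mono measurable_const fun w hw => ?_
          exact ENNReal.ofReal_le_ofReal (hlamΛ w hw)
      _ = ENNReal.ofReal Λ * volume D := by rw [setLIntegral_const]
      _ < ⊤ := ENNReal.mul_lt_top ENNReal.ofReal_lt_top hDfin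
  -- support radius and bound
  obtain ⟨R, hR0, hR⟩ : ∃ R : ℝ, 0 < R ∧ ∀ y : Eu d, R < ‖y‖ → φ y = 0 := by
    obtain ⟨R, hR⟩ := hφc.isCompact.isBounded.subset_closedBall (0 : Eu d)
    refine ⟨max R 1, by positivity, fun y hy => ?_⟩
    by_contra h
    have h1 := hR (subset_tsupport φ h)
    rw [mem_closedBall, dist_zero_right] at h1
    have := le_max_left R 1
    linarith
  obtain ⟨M, hM⟩ : ∃ M : ℝ, ∀ y, ‖φ y‖ ≤ M := hφc.exists_bound_of_continuous hφ
  have hM0 : 0 ≤ M := (norm_nonneg _).trans (hM 0)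
  -- continuity of the rescaled test function
  have hφt : ∀ t : ℝ, Continuous fun y : Eu d => φ (t⁻¹ • (y - x₀)) := by
    intro t
    exact hφ.comp (by fun_prop)
  have hint : ∀ (t : ℝ) (i : ι), Integrable (fun y : Eu d => φ (t⁻¹ • (y - x₀)))
      (ν.map (F i)) := by
    intro t i
    have : IsFiniteMeasure (ν.map (F i)) := by infer_instance
    exact Integrable.of_bound (hφt t).aestronglyMeasurable M
      (ae_of_all _ fun y => hM _)
  -- the integrand on the parameter domain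
  set G : ℝ → ι → ℂ → ℝ := fun t i => D.indicator
    (fun w => lam w * φ (t⁻¹ • (F i w - x₀))) with hG
  have hsheet : ∀ (t : ℝ) (i : ι), ∫ y, φ (t⁻¹ • (y - x₀)) ∂(ν.map (F i)) = ∫ w, G t i w := by
    intro t i
    rw [integral_map (hcont i).measurable.aemeasurable (hφt t).aestronglyMeasurable]
    rw [hν, integral_withDensity_eq_integral_toReal_smul₀
      hlamm.ennreal_ofReal.aemeasurable
      (ae_of_all _ fun w => ENNReal.ofReal_lt_top)]
    rw [← integral_indicator hD.measurableSet]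
    congr 1
    ext w
    simp only [hG, indicator]
    split_ifs
    · rw [ENNReal.toReal_ofReal (hlam0 w), smul_eq_mul]
    · rfl
  have hres : ∀ᶠ t : ℝ in 𝓝[>] 0,
      ∫ y, φ (t⁻¹ • (y - x₀)) ∂((∑ i, ν.map (F i)).restrict U) = ∑ i, ∫ w, G t i w := by
    obtain ⟨ε, hε, hεU⟩ := Metric.isOpen_iff.1 hU x₀ hFU
    have h1 : ∀ᶠ t : ℝ in 𝓝[>] 0, t * R < ε := by
      have : Tendsto (fun t : ℝ => t * R) (𝓝[>] 0) (𝓝 (0 * R)) :=
        (tendsto_id.mono_left nhdsWithin_le_nhds).mul_const R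
      rw [zero_mul] at this
      exact this.eventually (gt_mem_nhds hε)
    filter_upwards [h1, self_mem_nhdsWithin] with t ht ht0
    rw [mem_Ioi] at ht0
    rw [setIntegral_eq_integral_of_forall_compl_eq_zero]
    · rw [integral_finsetSum_measure fun i _ => hint t i]
      exact Finset.sum_congr rfl fun i _ => hsheet t i
    · intro y hy
      apply hR
      have h2 : ε ≤ ‖y - x₀‖ := by
        by_contra h
        exact hy (hεU (by rw [mem_ball, dist_eq_norm]; linarith))
      rw [norm_smul, norm_inv, Real.norm_of_nonneg ht0.le]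
      rw [lt_inv_mul_iff₀ ht0]
      linarith
  -- support of the integrand
  have hsupp : ∀ (t : ℝ), 0 < t → ∀ (i : ι) (w : ℂ), t * (R / c) < ‖w - w₀‖ → G t i w = 0 := by
    intro t ht i w hw
    simp only [hG, indicator]
    split_ifs
    · rw [hR, mul_zero]
      rw [norm_smul, norm_inv, Real.norm_of_nonneg ht.le, lt_inv_mul_iff₀ ht]
      have h1 := hsep i i₀ w w₀
      have h2 : t * R < c * ‖w - w₀‖ := by
        have h3 : c * (t * (R / c)) < c * ‖w - w₀‖ := by
          exact mul_lt_mul_of_pos_left hw hc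
        have h4 : c * (t * (R / c)) = t * R := by field_simp
        linarith
      linarith
    · rfl
  -- other sheets
  have hoth : ∀ i, i ≠ i₀ → ∀ᶠ t : ℝ in 𝓝[>] 0, ∫ w, G t i w = 0 := by
    intro i hi
    have hpos : 0 < ‖F i w₀ - x₀‖ := norm_pos_iff.2 (sub_ne_zero.2 (hother i hi))
    obtain ⟨δ, hδ, hδF⟩ := Metric.continuousAt_iff.1
      ((hcont i).continuousAt : ContinuousAt (F i) w₀) (‖F i w₀ - x₀‖ / 2) (by positivity)
    have h1 : ∀ᶠ t : ℝ in 𝓝[>] 0, t * (R / c) < δ := by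
      have : Tendsto (fun t : ℝ => t * (R / c)) (𝓝[>] 0) (𝓝 (0 * (R / c))) :=
        (tendsto_id.mono_left nhdsWithin_le_nhds).mul_const _
      rw [zero_mul] at this
      exact this.eventually (gt_mem_nhds hδ)
    have h2 : ∀ᶠ t : ℝ in 𝓝[>] 0, t * R < ‖F i w₀ - x₀‖ / 2 := by
      have : Tendsto (fun t : ℝ => t * R) (𝓝[>] 0) (𝓝 (0 * R)) :=
        (tendsto_id.mono_left nhdsWithin_le_nhds).mul_const _
      rw [zero_mul] at this
      exact this.eventually (gt_mem_nhds (by positivity))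
    filter_upwards [h1, h2, self_mem_nhdsWithin] with t ht1 ht2 ht0
    rw [mem_Ioi] at ht0
    have h3 : G t i = fun _ => 0 := by
      funext w
      rcases lt_or_ge (t * (R / c)) ‖w - w₀‖ with h | h
      · exact hsupp t ht0 i w h
      · simp only [hG, indicator]
        split_ifs
        · rw [hR, mul_zero]
          rw [norm_smul, norm_inv, Real.norm_of_nonneg ht0.le, lt_inv_mul_iff₀ ht0]
          have h4 : dist (F i w) (F i w₀) < ‖F i w₀ - x₀‖ / 2 := by
            apply hδF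
            rw [dist_eq_norm]
            linarith
          rw [dist_eq_norm] at h4
          have h5 : ‖F i w₀ - x₀‖ ≤ ‖F i w - F i w₀‖ + ‖F i w - x₀‖ := by
            have h6 : F i w₀ - x₀ = -(F i w - F i w₀) + (F i w - x₀) := by abel
            rw [h6]
            refine (norm_add_le _ _).trans ?_
            rw [norm_neg]
          linarith
        · rfl
    rw [h3, integral_zero]
  -- the main sheet
  have hmain : Tendsto (fun t : ℝ => (t ^ 2)⁻¹ * ∫ w, G t i₀ w) (𝓝[>] 0)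
      (𝓝 (∫ v : ℂ, lam w₀ * φ (L v))) := by
    simp only [blow_change _ w₀]
    refine tendsto_integral_filter_of_dominated_convergence
      ((closedBall (0 : ℂ) (R / c)).indicator fun _ => Λ * M) ?_ ?_ ?_ ?_
    · refine Eventually.of_forall fun t => ?_
      have hmeas : Measurable (G t i₀) := by
        refine Measurable.indicator ?_ hD.measurableSet
        exact hlamm.mul ((hφt t).comp (hcont i₀)).measurable
      exact (hmeas.comp (by fun_prop)).aestronglyMeasurable
    · filter_upwards [self_mem_nhdsWithin] with t ht0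
      rw [mem_Ioi] at ht0
      refine ae_of_all _ fun v => ?_
      by_cases hv : v ∈ closedBall (0 : ℂ) (R / c)
      · rw [indicator_of_mem hv]
        simp only [hG, indicator]
        split_ifs with hwD
        · rw [norm_mul, Real.norm_of_nonneg (hlam0 _)]
          exact mul_le_mul (hlamΛ _ hwD) (hM _) (norm_nonneg _) hΛ0
        · rw [norm_zero]; positivity
      · rw [indicator_of_notMem hv]
        rw [mem_closedBall, dist_zero_right, not_le] at hv
        rw [hsupp t ht0 i₀, norm_zero]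
        rw [add_sub_cancel_left, norm_smul, Real.norm_of_nonneg ht0.le]
        exact mul_lt_mul_of_pos_left hv ht0
    · exact (integrable_indicator_iff measurableSet_closedBall).2
        (integrableOn_const (by
          exact (isCompact_closedBall (0 : ℂ) (R / c)).measure_lt_top.ne))
    · refine ae_of_all _ fun v => ?_
      have hw : Tendsto (fun t : ℝ => w₀ + t • v) (𝓝[>] 0) (𝓝 w₀) := by
        have h1 : Tendsto (fun t : ℝ => w₀ + t • v) (𝓝 0) (𝓝 (w₀ + (0 : ℝ) • v)) := by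
          apply Continuous.tendsto
          fun_prop
        rw [zero_smul, add_zero] at h1
        exact h1.mono_left nhdsWithin_le_nhds
      have hdiff : Tendsto (fun t : ℝ => t⁻¹ • (F i₀ (w₀ + t • v) - x₀)) (𝓝[>] 0)
          (𝓝 (L v)) := by
        have h1 := hL.hasLineDerivAt v
        have h2 := h1.tendsto_slope_zero_right
        simpa using h2
      have h3 : Tendsto (fun t : ℝ => lam (w₀ + t • v) * φ (t⁻¹ • (F i₀ (w₀ + t • v) - x₀)))
          (𝓝[>] 0) (𝓝 (lam w₀ * φ (L v))) :=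
        (hlamc.tendsto.comp hw).mul ((hφ.tendsto _).comp hdiff)
      refine h3.congr' ?_
      filter_upwards [hw.eventually (hD.mem_nhds hw₀)] with t ht
      simp only [hG]
      rw [indicator_of_mem ht]
  -- assembly
  have hfinal : Tendsto (fun t : ℝ => (t ^ 2)⁻¹ * ∑ i, ∫ w, G t i w) (𝓝[>] 0)
      (𝓝 (∫ v : ℂ, lam w₀ * φ (L v))) := by
    refine hmain.congr' ?_
    have hall : ∀ᶠ t : ℝ in 𝓝[>] 0, ∀ i, i ≠ i₀ → ∫ w, G t i w = 0 := by
      rw [eventually_all]
      intro i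
      by_cases hi : i = i₀
      · exact Eventually.of_forall fun t h => absurd hi h
      · filter_upwards [hoth i hi] with t ht _
        exact ht
    filter_upwards [hall] with t ht
    rw [Finset.sum_eq_single i₀ (fun i _ hi => ht i hi) (fun h => absurd (Finset.mem_univ _) h)]
  rw [Nat.cast_one, one_mul, blow_integral_range L (lam w₀) hlampos hconf φ]
  refine hfinal.congr' ?_
  filter_upwards [hres] with t ht
  rw [ht]

end VUC
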