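import Pool.Agent.Lib.MP_b5b7b7_an.Defs

/-!
# MP_b5b7b7_an: linear algebra on the image of a conformal linear map

(helper57)
-/

set_option autoImplicit false

open MeasureTheory Metric Set Filter Topology
open scoped RealInnerProductSpace NNReal

namespace VUC

theorem conf_inner {d : ℕ} (L : ℂ →L[ℝ] Eu d) (lam : ℝ)
    (hconf : ∀ v, ‖L v‖ ^ 2 = lam * ‖v‖ ^ 2) (v w : ℂ) : ⟪L v, L w⟫ = lam * ⟪v, w⟫ := by
  rw [real_inner_eq_norm_add_mul_self_sub_norm_mul_self_sub_norm_mul_self_div_two,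
    real_inner_eq_norm_add_mul_self_sub_norm_mul_self_sub_norm_mul_self_div_two, ← map_add]
  have h1 := hconf (v + w)
  have h2 := hconf v
  have h3 := hconf w
  simp only [sq] at h1 h2 h3
  rw [h1, h2, h3]
  ring

theorem conf_decomp {d : ℕ} (L : ℂ →L[ℝ] Eu d) (z : ℂ) :
    L z = z.re • L 1 + z.im • L Complex.I := by
  rw [← map_smul, ← map_smul, ← map_add]
  congr 1
  simp [Complex.re_add_im]

theorem conf_one {d : ℕ} (L : ℂ →L[ℝ] Eu d) (lam : ℝ)
    (hconf : ∀ v, ‖L v‖ ^ 2 = lam * ‖v‖ ^ 2) (z : ℂ) : ⟪L 1, L z⟫ = lam * z.re := by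
  rw [conf_inner L lam hconf]
  simp [Complex.inner]

theorem conf_I {d : ℕ} (L : ℂ →L[ℝ] Eu d) (lam : ℝ)
    (hconf : ∀ v, ‖L v‖ ^ 2 = lam * ‖v‖ ^ 2) (z : ℂ) : ⟪L Complex.I, L z⟫ = lam * z.im := by
  rw [conf_inner L lam hconf]
  simp [Complex.inner]

theorem conf_injective {d : ℕ} (L : ℂ →L[ℝ] Eu d) (lam : ℝ) (hlam : 0 < lam)
    (hconf : ∀ v, ‖L v‖ ^ 2 = lam * ‖v‖ ^ 2) : Function.Injective (L : ℂ →ₗ[ℝ] Eu d) := by
  rw [injective_iff_map_eq_zero]
  intro z hz
  have h := hconf z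
  have hz' : L z = 0 := hz
  rw [hz'] at h
  have h2 : lam * ‖z‖ ^ 2 = 0 := by rw [← h]; simp
  rcases mul_eq_zero.1 h2 with h3 | h3
  · exact absurd h3 hlam.ne'
  · simpa using h3

/-- the orthogonal projection onto the image of a conformal linear map -/
theorem starProjection_range {d : ℕ} (L : ℂ →L[ℝ] Eu d) (lam : ℝ) (hlam : 0 < lam)
    (hconf : ∀ v, ‖L v‖ ^ 2 = lam * ‖v‖ ^ 2) (v : Eu d) :
    (LinearMap.range (L : ℂ →ₗ[ℝ] Eu d)).starProjection v =
      lam⁻¹ • (⟪L 1, v⟫ • L 1 + ⟪L Complex.I, v⟫ • L Complex.I) := by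
  refine Submodule.eq_starProjection_of_mem_of_inner_eq_zero ?_ ?_
  · refine Submodule.smul_mem _ _ (Submodule.add_mem _ (Submodule.smul_mem _ _ ?_)
      (Submodule.smul_mem _ _ ?_))
    · exact ⟨1, rfl⟩
    · exact ⟨Complex.I, rfl⟩
  · rintro w ⟨z, rfl⟩
    show ⟪v - _, L z⟫ = 0
    rw [inner_sub_left, real_inner_smul_left, inner_add_left, real_inner_smul_left,
      real_inner_smul_left, conf_one L lam hconf, conf_I L lam hconf]
    have h1 : ⟪v, L z⟫ = z.re * ⟪L 1, v⟫ + z.im * ⟪L Complex.I, v⟫ := by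
      rw [conf_decomp L z, inner_add_right, real_inner_smul_right, real_inner_smul_right,
        real_inner_comm v (L 1), real_inner_comm v (L Complex.I)]
    rw [h1]
    field_simp
    ring

/-- divergence along the image of a conformal linear map -/
theorem divAlong_range {d : ℕ} (L : ℂ →L[ℝ] Eu d) (lam : ℝ) (hlam : 0 < lam)
    (hconf : ∀ v, ‖L v‖ ^ 2 = lam * ‖v‖ ^ 2) (X : Eu d → Eu d) (x : Eu d) :
    lam * divAlong (LinearMap.range (L : ℂ →ₗ[ℝ] Eu d)) X x =
      ⟪L 1, fderiv ℝ X x (L 1)⟫ + ⟪L Complex.I, fderiv ℝ X x (L Complex.I)⟫ := by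
  classical
  set T := LinearMap.range (L : ℂ →ₗ[ℝ] Eu d) with hT
  let e : ℂ ≃ₗ[ℝ] T := LinearEquiv.ofInjective (L : ℂ →ₗ[ℝ] Eu d) (conf_injective L lam hlam hconf)
  have he : ∀ z, ((e z : T) : Eu d) = L z := fun z => rfl
  have hcoe : ∀ y : Eu d, ((T.orthogonalProjectionOnto y : T) : Eu d) = T.starProjection y :=
    fun y => rfl
  unfold divAlong
  rw [← LinearMap.trace_conj' _ e.symm,
    LinearMap.trace_eq_sum_inner _ Complex.orthonormalBasisOneI, Fin.sum_univ_two]
  have key : ∀ (v : ℂ) (y : Eu d), lam * ⟪v, e.symm (T.orthogonalProjectionOnto y)⟫ =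
      ⟪L v, y⟫ := by
    intro v y
    rw [← conf_inner L lam hconf, ← he, ← he, LinearEquiv.apply_symm_apply, hcoe, he,
      starProjection_range L lam hlam hconf, inner_smul_right, inner_add_right,
      real_inner_smul_right, real_inner_smul_right, real_inner_comm (L 1) (L v),
      real_inner_comm (L Complex.I) (L v), conf_one L lam hconf, conf_I L lam hconf,
      conf_decomp L v, inner_add_left, real_inner_smul_left, real_inner_smul_left]
    field_simp
  simp only [LinearEquiv.conj_apply, LinearMap.comp_apply, LinearEquiv.coe_coe,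
    LinearEquiv.symm_symm, Submodule.subtype_apply, he, ContinuousLinearMap.coe_coe,
    Complex.coe_orthonormalBasisOneI, Matrix.cons_val_zero, Matrix.cons_val_one, mul_add]
  rw [key, key]

/-- inner product of tangential gradients along the image of a conformal linear map -/
theorem tanGrad_inner_range {d : ℕ} (L : ℂ →L[ℝ] Eu d) (lam : ℝ) (hlam : 0 < lam)
    (hconf : ∀ v, ‖L v‖ ^ 2 = lam * ‖v‖ ^ 2) (h φ : Eu d → ℝ) (x : Eu d)
    (hh : DifferentiableAt ℝ h x) (hφ : DifferentiableAt ℝ φ x) :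
    lam * ⟪tanGrad (LinearMap.range (L : ℂ →ₗ[ℝ] Eu d)) h x,
        tanGrad (LinearMap.range (L : ℂ →ₗ[ℝ] Eu d)) φ x⟫ =
      fderiv ℝ h x (L 1) * fderiv ℝ φ x (L 1) +
        fderiv ℝ h x (L Complex.I) * fderiv ℝ φ x (L Complex.I) := by
  have hg : ∀ (f : Eu d → ℝ) (y : Eu d), ⟪y, gradient f x⟫ = fderiv ℝ f x y := by
    intro f y
    rw [real_inner_comm]
    exact InnerProductSpace.toDual_symm_apply
  unfold tanGrad
  rw [starProjection_range L lam hlam hconf, starProjection_range L lam hlam hconf]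
  simp only [hg]
  rw [real_inner_smul_left, real_inner_smul_right, inner_add_left, inner_add_right,
    inner_add_right]
  simp only [real_inner_smul_left, real_inner_smul_right, conf_one L lam hconf,
    conf_I L lam hconf, Complex.one_re, Complex.one_im, Complex.I_re, Complex.I_im]
  field_simp
  ring

end VUC
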