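import Pool.Agent.Lib.MP_b5b7b7_an.Defs

/-!
# Module GREEN: integration by parts and cutting of Lipschitz functions
-/

set_option autoImplicit false

open MeasureTheory Metric Set Filter Topology
open scoped RealInnerProductSpace NNReal

namespace VUC

private theorem green_cutoff {K s : Set ℂ} (hK : IsCompact K) (hs : IsOpen s) (hKs : K ⊆ s) :
    ∃ χ : ℂ → ℝ, ContDiff ℝ 1 χ ∧ HasCompactSupport χ ∧ tsupport χ ⊆ s ∧
      ∀ w ∈ K, ∀ᶠ z in 𝓝 w, χ z = 1 := by
  obtain ⟨t, ht, hKt, hts⟩ := exists_compact_between hK hs hKs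
  obtain ⟨f, h1, h0, -⟩ := exists_contMDiffMap_one_nhds_of_subset_interior (n := (1 : ℕ∞))
    (modelWithCornersSelf ℝ ℂ) hK.isClosed hKt
  have hsup : tsupport (f : ℂ → ℝ) ⊆ t := by
    apply closure_minimal _ ht.isClosed
    intro x hx
    by_contra hxt
    exact hx (h0 x hxt)
  refine ⟨f, ?_, ht.of_isClosed_subset (isClosed_tsupport _) hsup, hsup.trans hts, ?_⟩
  · exact f.contMDiff.contDiff
  · intro w hw
    exact (eventually_nhdsSet_iff_forall.1 h1) w hw

/-- the cut off function is of class `C¹` in the whole plane -/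
private theorem green_mul {P χ : ℂ → ℝ} {s : Set ℂ} (hs : IsOpen s) (hP : ContDiffOn ℝ 1 P s)
    (hχ : ContDiff ℝ 1 χ) (hχs : tsupport χ ⊆ s) : ContDiff ℝ 1 (fun w => χ w * P w) := by
  rw [contDiff_iff_contDiffAt]
  intro w
  by_cases hw : w ∈ s
  · exact hχ.contDiffAt.mul (hP.contDiffAt (hs.mem_nhds hw))
  · have hw' : w ∉ tsupport χ := fun h => hw (hχs h)
    have h1 : (fun z => χ z * P z) =ᶠ[𝓝 w] fun _ => 0 := by
      filter_upwards [(isClosed_tsupport χ).isOpen_compl.mem_nhds hw'] with z hz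
      rw [image_eq_zero_of_notMem_tsupport hz, zero_mul]
    exact contDiffAt_const.congr_of_eventuallyEq h1

private theorem green_lineDeriv_zero {Ψ : ℂ → ℝ} {w v : ℂ} (hw : w ∉ tsupport Ψ) :
    lineDeriv ℝ Ψ w v = 0 := by
  have h1 : Ψ =ᶠ[𝓝 w] fun _ => 0 := by
    filter_upwards [(isClosed_tsupport Ψ).isOpen_compl.mem_nhds hw] with z hz
    exact image_eq_zero_of_notMem_tsupport hz
  rw [h1.lineDeriv_eq]
  simp [lineDeriv]

/-- integration by parts against a Lipschitz function with compact support -/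
theorem div_lemma (P Q Ψ : ℂ → ℝ) {s : Set ℂ} (hs : IsOpen s)
    (hP : ContDiffOn ℝ 1 P s) (hQ : ContDiffOn ℝ 1 Q s) {K : ℝ≥0} (hΨ : LipschitzWith K Ψ)
    (hc : HasCompactSupport Ψ) (hsub : tsupport Ψ ⊆ s)
    (hdiv : ∀ w ∈ s, Ψ w ≠ 0 → fderiv ℝ P w 1 + fderiv ℝ Q w Complex.I = 0) :
    ∫ w, (P w * lineDeriv ℝ Ψ w 1 + Q w * lineDeriv ℝ Ψ w Complex.I) = 0 := by
  obtain ⟨χ, hχ, hχc, hχs, hχ1⟩ := green_cutoff hc hs hsub
  -- the general step for one function and one direction
  have step : ∀ (R : ℂ → ℝ) (v : ℂ), ContDiffOn ℝ 1 R s →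
      (∫ w, R w * lineDeriv ℝ Ψ w v) = - ∫ w, fderiv ℝ R w v * Ψ w ∧
      Integrable (fun w => R w * lineDeriv ℝ Ψ w v) ∧
      Integrable (fun w => fderiv ℝ R w v * Ψ w) := by
    intro R v hR
    have hg : ContDiff ℝ 1 (fun w => χ w * R w) := green_mul hs hR hχ hχs
    have hgc : HasCompactSupport (fun w => χ w * R w) := hχc.mul_right
    obtain ⟨D, hD⟩ := hg.lipschitzWith_of_hasCompactSupport hgc (by simp)
    have e1 : (fun w => R w * lineDeriv ℝ Ψ w v) =
        fun w => lineDeriv ℝ Ψ w v * (χ w * R w) := by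
      funext w
      by_cases hw : w ∈ tsupport Ψ
      · rw [(hχ1 w hw).self_of_nhds]
        ring
      · rw [green_lineDeriv_zero hw]
        ring
    have e2 : (fun w => lineDeriv ℝ (fun w => χ w * R w) w (-v) * Ψ w) =
        fun w => - (fderiv ℝ R w v * Ψ w) := by
      funext w
      by_cases hw : w ∈ tsupport Ψ
      · have h1 : (fun z => χ z * R z) =ᶠ[𝓝 w] R := by
          filter_upwards [hχ1 w hw] with z hz
          rw [hz, one_mul]
        rw [((hg.differentiable (by simp)) w).lineDeriv_eq_fderiv, h1.fderiv_eq, map_neg]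
        ring
      · rw [image_eq_zero_of_notMem_tsupport hw]
        ring
    have hi1 : Integrable (fun w => lineDeriv ℝ Ψ w v * (χ w * R w)) := by
      have hgi : Integrable (fun w => χ w * R w) := hg.continuous.integrable_of_hasCompactSupport hgc
      exact hgi.bdd_mul (aestronglyMeasurable_lineDeriv hΨ.continuous _)
        (Eventually.of_forall fun x => norm_lineDeriv_le_of_lipschitz ℝ hΨ)
    have hi2 : Integrable (fun w => fderiv ℝ R w v * Ψ w) := by
      have e3 : (fun w => fderiv ℝ R w v * Ψ w) =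
          fun w => fderiv ℝ (fun w => χ w * R w) w v * Ψ w := by
        funext w
        by_cases hw : w ∈ tsupport Ψ
        · have h1 : (fun z => χ z * R z) =ᶠ[𝓝 w] R := by
            filter_upwards [hχ1 w hw] with z hz
            rw [hz, one_mul]
          rw [h1.fderiv_eq]
        · rw [image_eq_zero_of_notMem_tsupport hw]
          ring
      rw [e3]
      apply Continuous.integrable_of_hasCompactSupport
      · exact ((hg.continuous_fderiv (by simp)).clm_apply continuous_const).mul hΨ.continuous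
      · exact hc.mul_left
    refine ⟨?_, ?_, hi2⟩
    · rw [e1, hΨ.integral_lineDeriv_mul_eq hD hgc v, e2, integral_neg]
    · rw [e1]
      exact hi1
  obtain ⟨p1, p2, p3⟩ := step P 1 hP
  obtain ⟨q1, q2, q3⟩ := step Q Complex.I hQ
  rw [integral_add p2 q2, p1, q1, ← neg_add, ← integral_add p3 q3, neg_eq_zero]
  rw [← integral_zero ℂ ℝ]
  congr 1
  funext w
  by_cases hw : Ψ w = 0
  · rw [hw]
    simp
  · have hws : w ∈ s := hsub (subset_tsupport Ψ hw)
    have := hdiv w hws hw
    rw [← add_mul, this, zero_mul]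

/-- cutting a Lipschitz function along the zero set of a continuous function -/
theorem lipschitz_cut (Ψ c : ℂ → ℝ) (hc : Continuous c) {K : ℝ≥0} (hΨ : LipschitzWith K Ψ)
    (h0 : ∀ w, c w = 0 → Ψ w = 0) :
    LipschitzWith K (fun w => if 0 < c w then Ψ w else 0) := by
  -- the mixed case
  have mixed : ∀ w w', 0 < c w → c w' ≤ 0 → dist (Ψ w) 0 ≤ K * dist w w' := by
    intro w w' hw hw'
    have hcont : ContinuousOn (fun t : ℝ => c (AffineMap.lineMap w w' t)) (Icc 0 1) := by
      apply Continuous.continuousOn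
      exact hc.comp AffineMap.lineMap_continuous
    have hmem : (0 : ℝ) ∈ Icc (c (AffineMap.lineMap w w' (1 : ℝ)))
        (c (AffineMap.lineMap w w' (0 : ℝ))) := by
      rw [AffineMap.lineMap_apply_one, AffineMap.lineMap_apply_zero]
      exact ⟨hw', hw.le⟩
    obtain ⟨t, ht, htc⟩ := intermediate_value_Icc' (zero_le_one) hcont hmem
    have h1 := h0 _ htc
    calc dist (Ψ w) 0 = dist (Ψ w) (Ψ (AffineMap.lineMap w w' t)) := by rw [h1]
      _ ≤ K * dist w (AffineMap.lineMap w w' t) := hΨ.dist_le_mul _ _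
      _ ≤ K * dist w w' := by
        apply mul_le_mul_of_nonneg_left _ K.coe_nonneg
        rw [dist_comm w (AffineMap.lineMap w w' t), dist_lineMap_left, Real.norm_eq_abs, abs_of_nonneg ht.1]
        exact mul_le_of_le_one_left dist_nonneg ht.2
  apply LipschitzWith.of_dist_le_mul
  intro w w'
  by_cases hw : 0 < c w
  · by_cases hw' : 0 < c w'
    · simp only [if_pos hw, if_pos hw']
      exact hΨ.dist_le_mul _ _
    · simp only [if_pos hw, if_neg hw']
      exact mixed w w' hw (not_lt.1 hw')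
  · by_cases hw' : 0 < c w'
    · simp only [if_neg hw, if_pos hw']
      rw [dist_comm, dist_comm w w']
      exact mixed w' w hw' (not_lt.1 hw)
    · simp only [if_neg hw, if_neg hw']
      rw [dist_self]
      positivity

end VUC
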