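import Pool.Agent.Lib.MP_b5b7b7_an.Defs

/-!
# Null sets: parametrised sheets and two-dimensional Hausdorff measure
-/

set_option autoImplicit false

open MeasureTheory Metric Set Filter Topology
open scoped RealInnerProductSpace NNReal

namespace VUC

theorem null_volume_le_hausdorff :
    (volume : Measure ℂ) ≪ (Measure.hausdorffMeasure (2 : ℝ) : Measure ℂ) := by
  have h : ((Measure.hausdorffMeasure ((Module.finrank ℝ ℂ : ℕ) : ℝ)) : Measure ℂ).IsAddHaarMeasure :=
    MeasureTheory.isAddHaarMeasure_hausdorffMeasure (E := ℂ)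
  rw [Complex.finrank_real_complex] at h
  have h2 : ((2 : ℕ) : ℝ) = (2 : ℝ) := by norm_num
  rw [h2] at h
  have := h
  exact Measure.absolutelyContinuous_isAddHaarMeasure _ _

/-- absolute continuity of a parametrised sheet with a Lipschitz left inverse with respect to
two-dimensional Hausdorff measure -/
theorem map_absolutelyContinuous {d : ℕ} (F : ℂ → Eu d) (hF : Continuous F) (q : Eu d → ℂ)
    {K : ℝ≥0} (hq : LipschitzWith K q) (hqF : ∀ w, q (F w) = w) (ν : Measure ℂ) (hν : ν ≪ volume) :
    ν.map F ≪ Measure.hausdorffMeasure (2 : ℝ) := by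
  intro s hs
  obtain ⟨t, hst, htm, ht0⟩ := exists_measurable_superset_of_null hs
  refine measure_mono_null hst ?_
  rw [Measure.map_apply hF.measurable htm]
  refine hν (null_volume_le_hausdorff ?_)
  refine measure_mono_null (t := q '' t) ?_ ?_
  · intro w hw
    exact ⟨F w, hw, hqF w⟩
  · have h := hq.hausdorffMeasure_image_le (d := (2 : ℝ)) (by norm_num) t
    rw [ht0, mul_zero] at h
    exact le_antisymm h zero_le

theorem null_re : volume {w : ℂ | w.re = 0} = 0 := by
  have h := Measure.addHaar_submodule (volume : Measure ℂ) (LinearMap.ker Complex.reLm) (by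
    intro h
    have h1 : (1 : ℂ) ∈ LinearMap.ker Complex.reLm := by rw [h]; trivial
    rw [LinearMap.mem_ker] at h1
    simp at h1)
  refine measure_mono_null ?_ h
  intro w hw
  simpa using hw

theorem null_circle : volume {w : ℂ | ‖w - 1 / 2‖ = 1 / 2} = 0 := by
  have h := Measure.addHaar_sphere (volume : Measure ℂ) (1 / 2 : ℂ) (1 / 2 : ℝ)
  refine measure_mono_null ?_ h
  intro w hw
  rw [mem_sphere, dist_eq_norm]
  exact hw

end VUC
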