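import Pool.Agent.Lib.MP_b5b7b7_an.Int
import Pool.Agent.Lib.MP_b5b7b7_an.Green
import Pool.Agent.Lib.MP_b5b7b7_an.Null
import Pool.Agent.Lib.MP_b5b7b7_an.Conf

/-!
# Cutting test functions along nodal lines
-/

set_option autoImplicit false
set_option linter.unusedVariables false

open MeasureTheory Metric Set Filter Topology
open scoped RealInnerProductSpace NNReal ENNReal

namespace VUC

/-- the function cut off where `c ≤ 0` -/
noncomputable def cut (c Ψ : ℂ → ℝ) (w : ℂ) : ℝ := if 0 < c w then Ψ w else 0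

theorem cut_eventuallyEq_pos {c Ψ : ℂ → ℝ} (hc : Continuous c) {w : ℂ} (h : 0 < c w) :
    cut c Ψ =ᶠ[𝓝 w] Ψ := by
  filter_upwards [hc.continuousAt.eventually (lt_mem_nhds h)] with z hz
  unfold cut
  rw [if_pos hz]

theorem cut_eventuallyEq_neg {c Ψ : ℂ → ℝ} (hc : Continuous c) {w : ℂ} (h : c w < 0) :
    cut c Ψ =ᶠ[𝓝 w] fun _ => 0 := by
  filter_upwards [hc.continuousAt.eventually (gt_mem_nhds h)] with z hz
  unfold cut
  rw [if_neg (by linarith)]

theorem cut_eventuallyEq_zero {c Ψ : ℂ → ℝ} {w : ℂ} (h : Ψ =ᶠ[𝓝 w] fun _ => 0) :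
    cut c Ψ =ᶠ[𝓝 w] fun _ => 0 := by
  filter_upwards [h] with z hz
  unfold cut
  rw [hz, ite_self]

theorem lineDeriv_zero_of_eventuallyEq {Ψ : ℂ → ℝ} {w : ℂ} (h : Ψ =ᶠ[𝓝 w] fun _ => 0) (v : ℂ) :
    lineDeriv ℝ Ψ w v = 0 := by
  rw [h.lineDeriv_eq]
  simp [lineDeriv]

theorem eventuallyEq_zero_of_notMem_tsupport {Ψ : ℂ → ℝ} {w : ℂ} (h : w ∉ tsupport Ψ) :
    Ψ =ᶠ[𝓝 w] fun _ => 0 := by
  filter_upwards [(isClosed_tsupport Ψ).isOpen_compl.mem_nhds h] with z hz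
  exact image_eq_zero_of_notMem_tsupport hz

theorem tsupport_cut_subset (c Ψ : ℂ → ℝ) : tsupport (cut c Ψ) ⊆ tsupport Ψ := by
  apply closure_mono
  intro w hw h
  apply hw
  unfold cut
  rw [h, ite_self]

theorem hasCompactSupport_cut {c Ψ : ℂ → ℝ} (h : HasCompactSupport Ψ) :
    HasCompactSupport (cut c Ψ) :=
  h.of_isClosed_subset (isClosed_tsupport _) (tsupport_cut_subset c Ψ)

/-- integration by parts on the region `{0 < c}` against a test function which vanishes on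
`{c = 0}` -/
theorem cut_integral (P Q Ψ c : ℂ → ℝ) {s : Set ℂ} (hs : IsOpen s)
    (hP : ContDiffOn ℝ 1 P s) (hQ : ContDiffOn ℝ 1 Q s) {K : ℝ≥0} (hΨ : LipschitzWith K Ψ)
    (hcs : HasCompactSupport Ψ) (hsub : tsupport Ψ ⊆ s) (hc : Continuous c)
    (h0 : ∀ w, c w = 0 → Ψ w = 0)
    (hdiv : ∀ w ∈ s, 0 < c w → fderiv ℝ P w 1 + fderiv ℝ Q w Complex.I = 0)
    (hnull : volume {w | w ∈ s ∧ c w = 0} = 0) :
    ∫ w, (if 0 < c w then P w * lineDeriv ℝ Ψ w 1 + Q w * lineDeriv ℝ Ψ w Complex.I else 0) = 0 := by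
  have h1 := div_lemma P Q (cut c Ψ) hs hP hQ (lipschitz_cut Ψ c hc hΨ h0)
    (hasCompactSupport_cut hcs) ((tsupport_cut_subset c Ψ).trans hsub) (by
      intro w hw hne
      by_cases hcw : 0 < c w
      · exact hdiv w hw hcw
      · exfalso; apply hne; unfold cut; rw [if_neg hcw])
  refine (integral_congr_ae ?_).trans h1
  have h2 : ∀ᵐ w ∂(volume : Measure ℂ), ¬ (w ∈ s ∧ c w = 0) := by
    rw [ae_iff]; simpa using hnull
  filter_upwards [h2] with w hw
  by_cases hts : w ∈ tsupport Ψ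
  · have hcw : c w ≠ 0 := fun h => hw ⟨hsub hts, h⟩
    rcases lt_or_gt_of_ne hcw with h | h
    · rw [if_neg (by linarith), lineDeriv_zero_of_eventuallyEq (cut_eventuallyEq_neg hc h),
        lineDeriv_zero_of_eventuallyEq (cut_eventuallyEq_neg hc h)]
      ring
    · rw [if_pos h, (cut_eventuallyEq_pos hc h).lineDeriv_eq,
        (cut_eventuallyEq_pos hc h).lineDeriv_eq]
  · have e := eventuallyEq_zero_of_notMem_tsupport hts
    have e' := cut_eventuallyEq_zero (c := c) e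
    rw [lineDeriv_zero_of_eventuallyEq e, lineDeriv_zero_of_eventuallyEq e,
      lineDeriv_zero_of_eventuallyEq e', lineDeriv_zero_of_eventuallyEq e']
    simp

/-! ### Pull-backs of test functions -/

/-- a linear combination of the pull-backs of a test function to the sheets -/
noncomputable def comb (cf : Bool × Bool → ℝ) (φ : Eu 6 → ℝ) (w : ℂ) : ℝ := ∑ p, cf p * φ (F p w)

/-- test functions -/
structure IsTest (φ : Eu 6 → ℝ) : Prop where
  smooth : ContDiff ℝ 1 φ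
  compact : HasCompactSupport φ
  sub : tsupport φ ⊆ U6

theorem IsTest.comp_zero {φ : Eu 6 → ℝ} (hφ : IsTest φ) (p : Bool × Bool) {w : ℂ} (hw : w ∉ D) :
    (fun z => φ (F p z)) =ᶠ[𝓝 w] fun _ => 0 := by
  have h1 : F p w ∉ tsupport φ := fun h => hw (mem_D_of_F (hφ.sub h))
  filter_upwards [(continuous_F p).continuousAt.eventually
    ((isClosed_tsupport φ).isOpen_compl.mem_nhds h1)] with z hz
  exact image_eq_zero_of_notMem_tsupport hz

theorem IsTest.comp_zero' {φ : Eu 6 → ℝ} (hφ : IsTest φ) (p : Bool × Bool) {w : ℂ}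
    (hw : F p w ∉ U6) : (fun z => φ (F p z)) =ᶠ[𝓝 w] fun _ => 0 := by
  have h1 : F p w ∉ tsupport φ := fun h => hw (hφ.sub h)
  filter_upwards [(continuous_F p).continuousAt.eventually
    ((isClosed_tsupport φ).isOpen_compl.mem_nhds h1)] with z hz
  exact image_eq_zero_of_notMem_tsupport hz

theorem IsTest.lip {φ : Eu 6 → ℝ} (hφ : IsTest φ) (p : Bool × Bool) :
    ∃ K : ℝ, ∀ x y, |φ (F p x) - φ (F p y)| ≤ K * dist x y := by
  obtain ⟨C, hC⟩ := hφ.smooth.lipschitzWith_of_hasCompactSupport hφ.compact one_ne_zero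
  obtain ⟨K, hK⟩ := lip_F p
  refine ⟨C * K, fun x y => ?_⟩
  have h := (hC.comp hK).dist_le_mul x y
  rwa [Real.dist_eq, NNReal.coe_mul] at h

theorem IsTest.comb_lip {φ : Eu 6 → ℝ} (hφ : IsTest φ) (cf : Bool × Bool → ℝ) :
    ∃ K : ℝ≥0, LipschitzWith K (comb cf φ) := by
  choose K hK using hφ.lip
  refine ⟨_, LipschitzWith.of_dist_le' (K := ∑ p, |cf p| * K p) (fun x y => ?_)⟩
  unfold comb
  rw [Real.dist_eq, ← Finset.sum_sub_distrib, Finset.sum_mul]
  refine (Finset.abs_sum_le_sum_abs _ _).trans (Finset.sum_le_sum (fun p _ => ?_))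
  rw [← mul_sub, abs_mul, mul_assoc]
  exact mul_le_mul_of_nonneg_left (hK p x y) (abs_nonneg _)

theorem IsTest.comb_support {φ : Eu 6 → ℝ} (hφ : IsTest φ) (cf : Bool × Bool → ℝ) :
    HasCompactSupport (comb cf φ) ∧ tsupport (comb cf φ) ⊆ D := by
  set S : Set ℂ := ⋃ p, F p ⁻¹' (tsupport φ) with hS
  have hSD : S ⊆ D := by
    intro w hw
    obtain ⟨p, hp⟩ := mem_iUnion.1 hw
    exact mem_D_of_F (hφ.sub hp)
  have hSc : IsClosed S :=
    isClosed_iUnion_of_finite (fun p => (isClosed_tsupport φ).preimage (continuous_F p))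
  have hsub : tsupport (comb cf φ) ⊆ S := by
    apply closure_minimal _ hSc
    intro w hw
    by_contra hwS
    apply hw
    unfold comb
    refine Finset.sum_eq_zero (fun p _ => ?_)
    have : F p w ∉ tsupport φ := fun h => hwS (mem_iUnion.2 ⟨p, h⟩)
    rw [image_eq_zero_of_notMem_tsupport this, mul_zero]
  have hScomp : IsCompact S := by
    refine isCompact_of_isClosed_isBounded hSc ?_
    exact (isBounded_ball (x := (0 : ℂ)) (r := 1 / 2)).subset hSD
  exact ⟨hScomp.of_isClosed_subset (isClosed_tsupport _) hsub, hsub.trans hSD⟩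

/-- the derivative of a pulled back test function -/
theorem IsTest.hasFDerivAt {φ : Eu 6 → ℝ} (hφ : IsTest φ) (p : Bool × Bool) {w : ℂ} (hw : w ∈ D)
    (h1 : w.re ≠ 0) (h2 : bh w ≠ 0) :
    HasFDerivAt (fun z => φ (F p z)) ((fderiv ℝ φ (F p w)).comp (Lx (F p w))) w :=
  ((hφ.smooth.differentiable one_ne_zero).differentiableAt.hasFDerivAt).comp w
    (hasFDerivAt_F p hw h1 h2)

theorem IsTest.lineDeriv_eq {φ : Eu 6 → ℝ} (hφ : IsTest φ) (p : Bool × Bool) {w : ℂ} (hw : w ∈ D)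
    (h1 : w.re ≠ 0) (h2 : bh w ≠ 0) (v : ℂ) :
    lineDeriv ℝ (fun z => φ (F p z)) w v = fderiv ℝ φ (F p w) (Lx (F p w) v) := by
  rw [(hφ.hasFDerivAt p hw h1 h2).hasLineDerivAt v |>.lineDeriv]
  rfl

theorem IsTest.lineDeriv_comb {φ : Eu 6 → ℝ} (hφ : IsTest φ) (cf : Bool × Bool → ℝ) {w : ℂ}
    (hw : w ∈ D) (h1 : w.re ≠ 0) (h2 : bh w ≠ 0) (v : ℂ) :
    lineDeriv ℝ (comb cf φ) w v = ∑ p, cf p * lineDeriv ℝ (fun z => φ (F p z)) w v := by
  have h : HasFDerivAt (comb cf φ)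
      (∑ p, cf p • ((fderiv ℝ φ (F p w)).comp (Lx (F p w)))) w := by
    unfold comb
    exact HasFDerivAt.fun_sum (fun p _ => (hφ.hasFDerivAt p hw h1 h2).const_mul (cf p))
  rw [(h.hasLineDerivAt v).lineDeriv, ContinuousLinearMap.sum_apply]
  refine Finset.sum_congr rfl (fun p _ => ?_)
  rw [hφ.lineDeriv_eq p hw h1 h2]
  rfl

/-- almost every parameter is good -/
theorem ae_good : ∀ᵐ w ∂(volume : Measure ℂ), w ∈ D → w.re ≠ 0 ∧ bh w ≠ 0 := by
  have h1 : ∀ᵐ w ∂(volume : Measure ℂ), w.re ≠ 0 := by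
    rw [ae_iff]; simpa using null_re
  have h2 : ∀ᵐ w ∂(volume : Measure ℂ), ‖w - 1 / 2‖ ≠ 1 / 2 := by
    rw [ae_iff]; simpa using null_circle
  filter_upwards [h1, h2] with w hw1 hw2 hD
  refine ⟨hw1, fun h => hw2 ?_⟩
  rw [bh_zero_iff hD] at h
  have h3 : ‖w - 1 / 2‖ ^ 2 = (1 / 2) ^ 2 := by
    rw [Complex.sq_norm, Complex.normSq_apply]
    have e1 : (w - 1 / 2).re = w.re - 1 / 2 := by
      rw [Complex.sub_re]; norm_num
    have e2 : (w - 1 / 2).im = w.im := by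
      rw [Complex.sub_im]; norm_num
    rw [e1, e2]
    linarith
  exact (pow_left_inj₀ (norm_nonneg _) (by norm_num) two_ne_zero).1 h3

theorem null_bh : volume {w : ℂ | w ∈ D ∧ bh w = 0} = 0 := by
  have h := ae_good
  rw [ae_iff] at h
  refine measure_mono_null ?_ h
  intro w hw
  simp only [mem_setOf_eq] at hw ⊢
  intro h1
  exact (h1 hw.1).2 hw.2

theorem null_re' : volume {w : ℂ | w ∈ D ∧ w.re = 0} = 0 :=
  measure_mono_null (fun w hw => hw.2) null_re

end VUC
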