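import Mathlib

/-!
# Stationary integral varifolds and harmonic functions on them: definitions
-/

set_option autoImplicit false

open MeasureTheory Metric Set Filter Topology
open scoped RealInnerProductSpace

namespace VUC

/-- Euclidean `d`-space. -/
abbrev Eu (d : ℕ) := EuclideanSpace ℝ (Fin d)

/-- The measure `μ` has at `x` the approximate tangent plane `T` (an `m`-dimensional linear
subspace) with multiplicity `θ`: the blow-ups `t⁻ᵐ (y ↦ (y - x)/t)_# μ` converge weakly, as
`t ↓ 0`, to `θ` times the `m`-dimensional Lebesgue measure of `T`. -/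
def HasApproxTangent {d : ℕ} (m : ℕ) (μ : Measure (Eu d)) (x : Eu d)
    (T : Submodule ℝ (Eu d)) (θ : ℕ) : Prop :=
  Module.finrank ℝ T = m ∧
    ∀ φ : Eu d → ℝ, Continuous φ → HasCompactSupport φ →
      Tendsto (fun t : ℝ => (t ^ m)⁻¹ * ∫ y, φ (t⁻¹ • (y - x)) ∂μ) (𝓝[>] 0)
        (𝓝 (θ * ∫ u : T, φ u))

/-- An `m`-dimensional integral (integer rectifiable) varifold in the open set `U ⊆ ℝᵈ`, given by
its weight measure `‖V‖`, its field `T_x V` of approximate tangent planes and its multiplicity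
function: `‖V‖` is a Radon measure in `U`, absolutely continuous with respect to `ℋᵐ` and carried
by countably many Lipschitz images of `ℝᵐ`, and at `‖V‖`-almost every point `T_x V` is the
approximate tangent plane with a positive integer multiplicity. -/
structure IntegralVarifold (m d : ℕ) (U : Set (Eu d)) where
  /-- the weight measure `‖V‖` -/
  weight : Measure (Eu d)
  /-- the approximate tangent planes `T_x V` -/
  tangent : Eu d → Submodule ℝ (Eu d)
  /-- the multiplicity -/
  mult : Eu d → ℕ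
  weight_compl : weight Uᶜ = 0
  weight_lt_top : ∀ K ⊆ U, IsCompact K → weight K < ⊤
  absolutelyContinuous : weight ≪ Measure.hausdorffMeasure (m : ℝ)
  rectifiable : ∃ f : ℕ → Eu m → Eu d,
    (∀ i, ∃ c, LipschitzWith c (f i)) ∧ weight (⋃ i, range (f i))ᶜ = 0
  measurable_tangent : ∀ v : Eu d, Measurable fun x => (tangent x).starProjection v
  approxTangent : ∀ᵐ x ∂weight, 1 ≤ mult x ∧ HasApproxTangent m weight x (tangent x) (mult x)

/-- The divergence of the vector field `X` at `x` along the plane `T`: the trace of the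
endomorphism `π_T ∘ DX(x)` of `T`. -/
noncomputable def divAlong {d : ℕ} (T : Submodule ℝ (Eu d)) (X : Eu d → Eu d) (x : Eu d) : ℝ :=
  LinearMap.trace ℝ T (T.orthogonalProjectionOnto.toLinearMap ∘ₗ
    (fderiv ℝ X x).toLinearMap ∘ₗ T.subtype)

/-- The tangential gradient: the orthogonal projection of `∇φ(x)` to the plane `T`. -/
noncomputable def tanGrad {d : ℕ} (T : Submodule ℝ (Eu d)) (φ : Eu d → ℝ) (x : Eu d) : Eu d :=
  T.starProjection (gradient φ x)

namespace IntegralVarifold

variable {m d : ℕ} {U : Set (Eu d)}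

/-- `V` is stationary in `U`: `δV(X) = ∫ div_{T_x V} X d‖V‖ = 0` for all `X ∈ C¹_c(U; ℝᵈ)`. -/
def Stationary (V : IntegralVarifold m d U) : Prop :=
  ∀ X : Eu d → Eu d, ContDiff ℝ 1 X → HasCompactSupport X → tsupport X ⊆ U →
    ∫ x, divAlong (V.tangent x) X x ∂V.weight = 0

/-- `h` is harmonic on `V`: `h ∈ C¹(U)` and `∫ ∇_{TV} h · ∇_{TV} φ d‖V‖ = 0` for all
`φ ∈ C¹_c(U)`. -/
def Harmonic (V : IntegralVarifold m d U) (h : Eu d → ℝ) : Prop :=
  ContDiffOn ℝ 1 h U ∧
    ∀ φ : Eu d → ℝ, ContDiff ℝ 1 φ → HasCompactSupport φ → tsupport φ ⊆ U →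
      ∫ x, ⟪tanGrad (V.tangent x) h x, tanGrad (V.tangent x) φ x⟫ ∂V.weight = 0

/-- The support of the weight measure `‖V‖`. -/
def supp (V : IntegralVarifold m d U) : Set (Eu d) :=
  {x | ∀ r : ℝ, 0 < r → 0 < V.weight (ball x r)}

/-- `h` vanishes to infinite order at `x₀` in `L²(‖V‖)`:
`∫_{B_r(x₀)} h² d‖V‖ = o(rᴺ)` as `r ↓ 0`, for every `N`. -/
def FlatAt (V : IntegralVarifold m d U) (h : Eu d → ℝ) (x₀ : Eu d) : Prop :=
  ∀ N : ℕ, (fun r : ℝ => ∫ x in ball x₀ r, h x ^ 2 ∂V.weight) =o[𝓝[>] 0] fun r => r ^ N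

end IntegralVarifold

end VUC
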