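import Pool.Agent.Lib.MP_b5b7b7_an.Harm2
import Pool.Agent.Lib.MP_b5b7b7_an.Blow

/-!
# The varifold and the failure of strong unique continuation
-/

set_option autoImplicit false
set_option linter.unusedVariables false

open MeasureTheory Metric Set Filter Topology
open scoped RealInnerProductSpace NNReal ENNReal

namespace VUC

theorem F_ne {w : ℂ} (h1 : w.re ≠ 0) (h2 : bh w ≠ 0) {p p' : Bool × Bool} (h : p ≠ p') :
    F p w ≠ F p' w := by
  intro he
  have key : ∀ (b b' : Bool) (t : ℝ), t ≠ 0 → sg b * max t 0 = sg b' * max t 0 →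
      sg b * max (-t) 0 = sg b' * max (-t) 0 → b = b' := by
    intro b b' t ht e1 e2
    have hs : sg b = sg b' := by
      rcases lt_or_gt_of_ne ht with h | h
      · rw [max_eq_left (by linarith)] at e2
        exact mul_right_cancel₀ (neg_ne_zero.2 ht) e2
      · rw [max_eq_left (by linarith)] at e1
        exact mul_right_cancel₀ ht e1
    cases b <;> cases b' <;> first | rfl | (exfalso; norm_num [sg] at hs)
  apply h
  apply Prod.ext
  · refine key _ _ w.re h1 ?_ ?_
    · have := congrArg (fun x : Eu 6 => x 0) he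
      simpa using this
    · have := congrArg (fun x : Eu 6 => x 1) he
      simpa using this
  · refine key _ _ (bh w) h2 ?_ ?_
    · have := congrArg (fun x : Eu 6 => x 3) he
      simpa using this
    · have := congrArg (fun x : Eu 6 => x 4) he
      simpa using this

theorem approx_F (p : Bool × Bool) {w : ℂ} (hw : w ∈ D) (hU : F p w ∈ U6) (h1 : w.re ≠ 0)
    (h2 : bh w ≠ 0) : HasApproxTangent 2 wt (F p w) (tan (F p w)) 1 := by
  rw [tan_F h1 h2]
  exact approxTangent_of_sheets F lam D isOpen_D U6 isOpen_U6 continuous_F (1 / 3) (by norm_num)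
    sep 17 (fun w => (lam_pos w).le) (fun w hw => lam_le hw) measurable_lam
    (by unfold D; exact measure_ball_lt_top) p w hw (continuousAt_lam hw) (lam_pos w)
    (Lx (F p w)) (hasFDerivAt_F p hw h1 h2) (conf_F h1 h2) (fun j hj => F_ne h1 h2 hj) hU

theorem measurableSet_good : MeasurableSet {x : Eu 6 | good x} := by
  have h : ∀ i : Fin 6, MeasurableSet {x : Eu 6 | x i = 0} := fun i =>
    (measurable_apply i) (measurableSet_singleton (0 : ℝ))
  have e : {x : Eu 6 | good x} =
      (({x | x 0 = 0} ∩ {x | x 1 = 0}ᶜ) ∪ ({x | x 0 = 0}ᶜ ∩ {x | x 1 = 0})) ∩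
      (({x | x 3 = 0} ∩ {x | x 4 = 0}ᶜ) ∪ ({x | x 3 = 0}ᶜ ∩ {x | x 4 = 0})) := by
    ext x
    simp only [good, mem_inter_iff, mem_union, mem_compl_iff, Set.mem_ofPred_eq]
    tauto
  rw [e]
  exact (((h 0).inter (h 1).compl).union ((h 0).compl.inter (h 1))).inter
    (((h 3).inter (h 4).compl).union ((h 3).compl.inter (h 4)))

theorem measurable_t1' : Measurable t1 := by
  have h : t1 = fun x => WithLp.toLp 2 (fun i => t1 x i) := by
    funext x; rfl
  rw [h]
  exact (PiLp.continuous_toLp 2 _).measurable.comp (measurable_pi_lambda _ measurable_t1)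

theorem measurable_t2' : Measurable t2 := by
  have h : t2 = fun x => WithLp.toLp 2 (fun i => t2 x i) := by
    funext x; rfl
  rw [h]
  exact (PiLp.continuous_toLp 2 _).measurable.comp (measurable_pi_lambda _ measurable_t2)

theorem measurable_tan (v : Eu 6) : Measurable fun x => (tan x).starProjection v := by
  classical
  have e : (fun x => (tan x).starProjection v) = fun x => if good x then
      (lam (q x))⁻¹ • (⟪t1 x, v⟫ • t1 x + ⟪t2 x, v⟫ • t2 x) else 0 := by
    funext x
    by_cases hx : good x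
    · rw [if_pos hx]
      have ht : tan x = LinearMap.range (Lx x : ℂ →ₗ[ℝ] Eu 6) := by
        unfold tan; rw [if_pos hx]
      have := starProjection_range (Lx x) (lam (q x)) (lam_pos _) (norm_Lx_sq hx) v
      rw [ht, this, Lx_one, Lx_I]
    · rw [if_neg hx]
      have ht : tan x = ⊥ := by
        unfold tan; rw [if_neg hx]
      rw [ht, Submodule.starProjection_bot]
      rfl
  rw [e]
  refine Measurable.ite measurableSet_good ?_ measurable_const
  have hl : Measurable (fun x : Eu 6 => (lam (q x))⁻¹) :=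
    (measurable_lam.comp lip_q.continuous.measurable).inv
  have h1 : Measurable (fun x : Eu 6 => ⟪t1 x, v⟫) := measurable_t1'.inner measurable_const
  have h2 : Measurable (fun x : Eu 6 => ⟪t2 x, v⟫) := measurable_t2'.inner measurable_const
  exact hl.smul ((h1.smul measurable_t1').add (h2.smul measurable_t2'))

theorem ae_wt_good {P : Eu 6 → Prop} (h : ∀ p, ∀ w ∈ D, F p w ∈ U6 → w.re ≠ 0 → bh w ≠ 0 →
    P (F p w)) : ∀ᵐ x ∂wt, P x := by
  refine ae_wt (fun p => ?_)
  filter_upwards [ae_good] with w hw hD hU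
  exact h p w hD hU (hw hD).1 (hw hD).2

theorem wt_ac : wt ≪ Measure.hausdorffMeasure ((2 : ℕ) : ℝ) := by
  have h2 : ((2 : ℕ) : ℝ) = 2 := by norm_num
  rw [h2]
  intro s hs
  have h1 : ∀ p, (nu.map (F p)) s = 0 := fun p =>
    map_absolutelyContinuous (F p) (continuous_F p) q lip_q (q_F p) nu nu_ac' hs
  rw [wt_eq, Measure.finsetSum_apply]
  refine Finset.sum_eq_zero (fun p _ => ?_)
  exact le_antisymm ((Measure.restrict_le_self s).trans (h1 p).le) zero_le

theorem wt_rect : ∃ f : ℕ → Eu 2 → Eu 6,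
    (∀ i, ∃ c, LipschitzWith c (f i)) ∧ wt (⋃ i, range (f i))ᶜ = 0 := by
  set e : ℂ ≃ₗᵢ[ℝ] Eu 2 := Complex.orthonormalBasisOneI.repr with he
  refine ⟨fun i y => F (decide (i % 2 = 0), decide (i / 2 % 2 = 0)) (e.symm y), fun i => ?_, ?_⟩
  · obtain ⟨K, hK⟩ := lip_F (decide (i % 2 = 0), decide (i / 2 % 2 = 0))
    exact ⟨K * 1, hK.comp e.symm.isometry.lipschitz⟩
  · have h : ∀ᵐ x ∂wt, x ∈ ⋃ i : ℕ, range (fun y : Eu 2 =>
        F (decide (i % 2 = 0), decide (i / 2 % 2 = 0)) (e.symm y)) := by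
      refine ae_wt_good (fun p w _ _ _ _ => ?_)
      have hp : ∃ i : ℕ, (decide (i % 2 = 0), decide (i / 2 % 2 = 0)) = p := by
        rcases p with ⟨b1, b2⟩
        cases b1 <;> cases b2
        · exact ⟨3, by decide⟩
        · exact ⟨1, by decide⟩
        · exact ⟨2, by decide⟩
        · exact ⟨0, by decide⟩
      obtain ⟨i, hi⟩ := hp
      refine mem_iUnion.2 ⟨i, e w, ?_⟩
      show F (decide (i % 2 = 0), decide (i / 2 % 2 = 0)) (e.symm (e w)) = F p w
      rw [hi, LinearIsometryEquiv.symm_apply_apply]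
    exact h

/-- the varifold of the counterexample -/
noncomputable def VV : IntegralVarifold 2 6 U6 where
  weight := wt
  tangent := tan
  mult := fun _ => 1
  weight_compl := wt_compl
  weight_lt_top := fun K _ _ => (measure_mono (subset_univ K)).trans_lt wt_univ_lt_top
  absolutelyContinuous := wt_ac
  rectifiable := wt_rect
  measurable_tangent := measurable_tan
  approxTangent := ae_wt_good (fun p w hD hU h1 h2 => ⟨le_rfl, approx_F p hD hU h1 h2⟩)

theorem VV_stationary : VV.Stationary := fun X h1 h2 h3 => first_variation h1 h2 h3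

theorem VV_harmonic : VV.Harmonic HH :=
  ⟨HH_smooth, fun φ h1 h2 h3 => harmonic_integral ⟨h1, h2, h3⟩⟩

theorem one_le_lam (w : ℂ) : 1 ≤ lam w := by
  unfold lam; nlinarith [sq_nonneg ‖Bd w‖]

theorem mem_supp (p : Bool × Bool) {w : ℂ} (hD : w ∈ D) (hU : F p w ∈ U6) : F p w ∈ VV.supp := by
  intro r hr
  show 0 < wt (ball (F p w) r)
  set S : Set ℂ := F p ⁻¹' (ball (F p w) r ∩ U6) ∩ D with hS
  have hSo : IsOpen S := ((isOpen_ball.inter isOpen_U6).preimage (continuous_F p)).inter isOpen_D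
  have hSn : S.Nonempty := ⟨w, ⟨mem_ball_self hr, hU⟩, hD⟩
  have hpos : 0 < volume S := hSo.measure_pos volume hSn
  have h1 : volume S ≤ nu (F p ⁻¹' (ball (F p w) r ∩ U6)) := by
    unfold nu
    rw [withDensity_apply _ (((isOpen_ball.inter isOpen_U6).preimage (continuous_F p)).measurableSet),
      Measure.restrict_restrict
      (((isOpen_ball.inter isOpen_U6).preimage (continuous_F p)).measurableSet)]
    calc volume S = ∫⁻ _ in S, 1 := by simp
      _ ≤ ∫⁻ w in S, ENNReal.ofReal (lam w) := by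
          refine lintegral_mono (fun w => ?_)
          rw [← ENNReal.ofReal_one]
          exact ENNReal.ofReal_le_ofReal (one_le_lam w)
  have h2 : nu (F p ⁻¹' (ball (F p w) r ∩ U6)) ≤ wt (ball (F p w) r) := by
    rw [wt_eq, Measure.finsetSum_apply]
    refine le_trans ?_ (Finset.single_le_sum (f := fun p' => ((nu.map (F p')).restrict U6)
      (ball (F p w) r)) (fun _ _ => zero_le) (Finset.mem_univ p))
    rw [Measure.restrict_apply isOpen_ball.measurableSet, (measurableEmbedding_F p).map_apply]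
  exact hpos.trans_le (h1.trans h2)

theorem F_zero (p : Bool × Bool) : F p 0 = 0 := by
  have h0 : (0 : ℂ) ∈ D := by rw [mem_D]; norm_num
  have h1 : bh 0 = 0 := by rw [bh_formula h0]; simp
  have h2 : bh1 0 = 0 := by rw [bh1_formula h0]; simp
  ext i
  fin_cases i <;> simp [F, h1, h2]

theorem zero_mem_U6 : (0 : Eu 6) ∈ U6 := by unfold U6; simp

theorem zero_mem_supp : (0 : Eu 6) ∈ VV.supp := by
  have h0 : (0 : ℂ) ∈ D := by rw [mem_D]; norm_num
  have := mem_supp (true, true) h0 (by rw [F_zero]; exact zero_mem_U6)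
  rwa [F_zero] at this

theorem HH_bound : ∃ C c : ℝ, 0 ≤ C ∧ 0 < c ∧ ∀ r : ℝ, 0 < r → r ≤ 1 / 2 → ∀ x ∈ ball (0 : Eu 6) r,
    |HH x| ≤ C * Real.exp (-c / r) := by
  obtain ⟨C, c, hc, h⟩ := ff_flat
  refine ⟨2 * |C|, c, by positivity, hc, fun r hr hr2 x hx => ?_⟩
  rw [mem_ball_zero_iff] at hx
  unfold HH
  have hA : |ff (zA x)| ≤ |C| * Real.exp (-c / r) := by
    by_cases h0 : zA x = 0
    · rw [ff_re (by rw [h0]; rfl), abs_zero]; positivity
    · have hz : zA x ∈ ball (0 : ℂ) (1 / 2) := by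
        rw [mem_ball_zero_iff]
        exact (norm_zA_le x).trans_lt (hx.trans_le hr2)
      refine (h _ hz).trans ?_
      refine mul_le_mul (le_abs_self C) (Real.exp_le_exp.2 ?_) (Real.exp_pos _).le (abs_nonneg _)
      rw [neg_div, neg_div, neg_le_neg_iff]
      exact div_le_div_of_nonneg_left hc.le (norm_pos_iff.2 h0) ((norm_zA_le x).trans hx.le)
  rw [abs_mul, abs_mul, abs_two]
  have hB := ff_le (zB x)
  calc 2 * (|ff (zA x)| * |ff (zB x)|) ≤ 2 * ((|C| * Real.exp (-c / r)) * 1) :=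
        mul_le_mul_of_nonneg_left (mul_le_mul hA hB (abs_nonneg _) (by positivity)) (by norm_num)
    _ = 2 * |C| * Real.exp (-c / r) := by ring

theorem exp_littleO (c : ℝ) (hc : 0 < c) (N : ℕ) :
    (fun r : ℝ => Real.exp (-c / r)) =o[𝓝[>] 0] fun r => r ^ N := by
  rw [Asymptotics.isLittleO_iff_tendsto' ?_]
  · have h1 := Real.tendsto_pow_mul_exp_neg_atTop_nhds_zero N
    have h2 : Tendsto (fun r : ℝ => c / r) (𝓝[>] 0) atTop := by
      have := (tendsto_inv_nhdsGT_zero (𝕜 := ℝ)).const_mul_atTop hc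
      exact this.congr (fun r => by rw [div_eq_mul_inv])
    have h3 := (h1.comp h2).const_mul ((c ^ N)⁻¹)
    rw [mul_zero] at h3
    refine h3.congr' ?_
    filter_upwards [self_mem_nhdsWithin] with r hr
    have hr0 : r ≠ 0 := ne_of_gt hr
    have hcN : c ^ N ≠ 0 := pow_ne_zero _ hc.ne'
    have hrN : r ^ N ≠ 0 := pow_ne_zero _ hr0
    simp only [Function.comp]
    rw [div_pow, neg_div]
    field_simp
  · filter_upwards [self_mem_nhdsWithin] with r hr h
    have hr0 : (0 : ℝ) < r := hr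
    exact absurd h (pow_pos hr0 N).ne'

theorem VV_flat : VV.FlatAt HH 0 := by
  intro N
  obtain ⟨C, c, hC, hc, hb⟩ := HH_bound
  have h1 : (fun r : ℝ => ∫ x in ball (0 : Eu 6) r, HH x ^ 2 ∂wt) =O[𝓝[>] 0]
      fun r => Real.exp (-(2 * c) / r) := by
    refine Asymptotics.IsBigO.of_bound (C ^ 2 * (wt univ).toReal) ?_
    have hmem : Ioc (0 : ℝ) (1 / 2) ∈ 𝓝[>] (0 : ℝ) := Ioc_mem_nhdsGT (by norm_num)
    filter_upwards [hmem] with r hr
    have hbd : ∀ x ∈ ball (0 : Eu 6) r, ‖HH x ^ 2‖ ≤ C ^ 2 * Real.exp (-(2 * c) / r) := by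
      intro x hx
      have h2 := hb r hr.1 hr.2 x hx
      rw [norm_pow, Real.norm_eq_abs]
      calc |HH x| ^ 2 ≤ (C * Real.exp (-c / r)) ^ 2 := pow_le_pow_left₀ (abs_nonneg _) h2 2
        _ = C ^ 2 * Real.exp (-(2 * c) / r) := by
          rw [mul_pow, ← Real.exp_nat_mul]; congr 2; push_cast; ring
    have h3 := norm_setIntegral_le_of_norm_le_const (μ := wt) (f := fun x => HH x ^ 2)
      (s := ball (0 : Eu 6) r) ((measure_mono (subset_univ _)).trans_lt wt_univ_lt_top) hbd
    refine h3.trans ?_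
    rw [Real.norm_eq_abs, abs_of_pos (Real.exp_pos _)]
    have h4 : wt.real (ball (0 : Eu 6) r) ≤ (wt univ).toReal :=
      ENNReal.toReal_mono wt_univ_lt_top.ne (measure_mono (subset_univ _))
    calc C ^ 2 * Real.exp (-(2 * c) / r) * wt.real (ball (0 : Eu 6) r)
        ≤ C ^ 2 * Real.exp (-(2 * c) / r) * (wt univ).toReal :=
          mul_le_mul_of_nonneg_left h4 (by positivity)
      _ = _ := by ring
  exact h1.trans_isLittleO (exp_littleO (2 * c) (by linarith) N)

/-- points of the support near the origin where the function does not vanish -/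
theorem VV_nonzero (r : ℝ) (hr : 0 < r) : ∃ x ∈ VV.supp ∩ ball (0 : Eu 6) r, HH x ≠ 0 := by
  obtain ⟨K, hK⟩ := lip_F (true, true)
  -- the parameter on the axis of the cusp
  set wp : ℝ → ℂ := fun τ => ⟨(1 / 2) / (1 / 4 + τ ^ 2), τ / (1 / 4 + τ ^ 2)⟩ with hwp
  have hnorm : ∀ τ : ℝ, 0 < τ → ‖wp τ‖ ≤ 1 / τ := by
    intro τ hτ
    have h1 : ‖wp τ‖ ^ 2 = 1 / (1 / 4 + τ ^ 2) := by
      rw [Complex.sq_norm, Complex.normSq_apply]
      simp only [hwp]
      field_simp
      ring
    have h2 : ‖wp τ‖ ^ 2 ≤ (1 / τ) ^ 2 := by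
      rw [h1, div_pow, one_pow]
      exact one_div_le_one_div_of_le (by positivity) (by linarith)
    exact (pow_le_pow_iff_left₀ (norm_nonneg _) (by positivity) two_ne_zero).1 h2
  obtain ⟨τ, hτ1, hτ2⟩ : ∃ τ : ℝ, 4 < τ ∧ (K : ℝ) / τ < min r (1 / 2) := by
    have hm : 0 < min r (1 / 2) := lt_min hr (by norm_num)
    have h1 : Tendsto (fun τ : ℝ => (K : ℝ) / τ) atTop (𝓝 0) := tendsto_const_nhds.div_atTop tendsto_id
    obtain ⟨τ, hτ⟩ := ((h1.eventually (gt_mem_nhds hm)).and (eventually_gt_atTop 4)).exists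
    exact ⟨τ, hτ.2, hτ.1⟩
  have hτ0 : 0 < τ := by linarith
  set w := wp τ with hw
  have hwn := hnorm τ hτ0
  have hD : w ∈ D := by
    rw [mem_D]
    refine hwn.trans_lt ?_
    rw [div_lt_div_iff₀ hτ0 (by norm_num)]
    linarith
  have hden : 0 < 1 / 4 + τ ^ 2 := by positivity
  have hre : w.re = (1 / 2) / (1 / 4 + τ ^ 2) := rfl
  have him : w.im = τ / (1 / 4 + τ ^ 2) := rfl
  have hsq : w.re ^ 2 + w.im ^ 2 = 1 / (1 / 4 + τ ^ 2) := by
    rw [hre, him]; field_simp; ring
  have hC : w ∈ Cs := by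
    refine ⟨hD, by rw [hre]; positivity, ?_, by rw [him]; positivity⟩
    rw [bh_pos_iff hD, hsq, hre]
    exact div_lt_div_of_pos_right (by norm_num) hden
  have hFn : ‖F (true, true) w‖ ≤ K / τ := by
    have h1 := hK.dist_le_mul w 0
    rw [F_zero, dist_zero_right, dist_zero_right] at h1
    refine h1.trans ?_
    rw [div_eq_mul_one_div]
    exact mul_le_mul_of_nonneg_left hwn K.2
  have hFr := hFn.trans_lt hτ2
  have hU : F (true, true) w ∈ U6 := by
    rw [U6, mem_ball_zero_iff]; exact hFr.trans_le (min_le_right _ _)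
  refine ⟨F (true, true) w, ⟨mem_supp _ hD hU, ?_⟩, ?_⟩
  · rw [mem_ball_zero_iff]; exact hFr.trans_le (min_le_left _ _)
  · rw [HH_F hC]
    simp only [sg_true, one_mul]
    unfold gg
    have h1 : (cinv w).re = 1 / 2 := by
      rw [cinv_re, hsq, hre]; field_simp
    rw [h1]
    have h2 : Real.pi * (1 / 2) = Real.pi / 2 := by ring
    rw [h2, Real.sin_pi_div_two, one_mul]
    exact (Real.exp_pos _).ne'

end VUC
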