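import Pool.Agent.Lib.MP_b5b7b7_an.Defs

/-!
# MP_b5b7b7_an, module FLAT: `C¹` flat functions by inversion
-/

set_option autoImplicit false

open MeasureTheory Metric Set Filter Topology
open scoped RealInnerProductSpace NNReal

namespace VUC

/-- inversion in the unit circle (`0 ↦ 0`) -/
noncomputable def cinv (z : ℂ) : ℂ := (starRingEnd ℂ z)⁻¹

private theorem flat_norm_cinv (z : ℂ) : ‖cinv z‖ = ‖z‖⁻¹ := by
  unfold cinv
  rw [norm_inv, RCLike.norm_conj]

private theorem flat_hasFDerivAt {z : ℂ} (hz : z ≠ 0) :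
    ∃ L : ℂ →L[ℝ] ℂ, HasFDerivAt cinv L z ∧ ‖L‖ ≤ (‖z‖ ^ 2)⁻¹ := by
  have hw : (starRingEnd ℂ z) ≠ 0 := (map_ne_zero _).mpr hz
  have h1 := (hasDerivAt_inv hw).hasFDerivAt.restrictScalars ℝ
  have h2 : HasFDerivAt (fun z : ℂ => starRingEnd ℂ z) (Complex.conjCLE : ℂ →L[ℝ] ℂ) z :=
    Complex.conjCLE.hasFDerivAt
  have h3 := h1.comp z h2
  refine ⟨_, h3, ?_⟩
  refine ContinuousLinearMap.opNorm_le_bound _ (by positivity) fun v => ?_
  have hv : ‖(starRingEnd ℂ) v‖ = ‖v‖ := RCLike.norm_conj v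
  have hz' : ‖(starRingEnd ℂ) z‖ = ‖z‖ := RCLike.norm_conj z
  simp [hv, hz', mul_comm]

private theorem flat_contDiffAt_cinv {z : ℂ} (hz : z ≠ 0) : ContDiffAt ℝ 1 cinv z := by
  have hw : (starRingEnd ℂ z) ≠ 0 := (map_ne_zero _).mpr hz
  have h1 : ContDiffAt ℝ 1 (Inv.inv : ℂ → ℂ) (starRingEnd ℂ z) := contDiffAt_inv ℝ hw
  have h2 : ContDiffAt ℝ 1 (fun z : ℂ => starRingEnd ℂ z) z :=
    Complex.conjCLE.contDiff.contDiffAt
  exact h1.comp z h2

private theorem flat_exp {C c r : ℝ} (hC : 0 ≤ C) (hc : 0 < c) (hr : 0 < r) :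
    C * Real.exp (-c * r⁻¹) ≤ 6 * C / c ^ 3 * r ^ 3 := by
  have h1 := Real.pow_div_factorial_le_exp (c * r⁻¹) (by positivity) 3
  have h2 : ((3 : ℕ).factorial : ℝ) = 6 := by norm_num [Nat.factorial]
  rw [h2] at h1
  have h3 : Real.exp (-c * r⁻¹) = (Real.exp (c * r⁻¹))⁻¹ := by rw [neg_mul, Real.exp_neg]
  rw [h3]
  have h4 : (Real.exp (c * r⁻¹))⁻¹ ≤ ((c * r⁻¹) ^ 3 / 6)⁻¹ := inv_anti₀ (by positivity) h1
  calc C * (Real.exp (c * r⁻¹))⁻¹ ≤ C * ((c * r⁻¹) ^ 3 / 6)⁻¹ :=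
        mul_le_mul_of_nonneg_left h4 hC
    _ = 6 * C / c ^ 3 * r ^ 3 := by field_simp

/-- composition of a function decaying exponentially at infinity with the inversion -/
theorem contDiffOn_flat {F : Type*} [NormedAddCommGroup F] [NormedSpace ℝ F] (κ : ℂ → F)
    (h0 : κ 0 = 0) (C c : ℝ) (hc : 0 < c)
    (hk : ∀ ζ : ℂ, 2 < ‖ζ‖ → ContDiffAt ℝ 1 κ ζ)
    (hb : ∀ ζ : ℂ, 2 < ‖ζ‖ → ‖κ ζ‖ ≤ C * Real.exp (-c * ‖ζ‖))
    (hb' : ∀ ζ : ℂ, 2 < ‖ζ‖ → ‖fderiv ℝ κ ζ‖ ≤ C * Real.exp (-c * ‖ζ‖)) :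
    ContDiffOn ℝ 1 (κ ∘ cinv) (ball 0 (1 / 2)) := by
  have hC : 0 ≤ C := by
    have h := hb 3 (by norm_num)
    have h2 : 0 ≤ C * Real.exp (-c * ‖(3 : ℂ)‖) := (norm_nonneg _).trans h
    exact nonneg_of_mul_nonneg_left h2 (Real.exp_pos _)
  have hgt : ∀ z ∈ ball (0 : ℂ) (1 / 2), z ≠ 0 → 2 < ‖cinv z‖ := by
    intro z hz h
    rw [flat_norm_cinv]
    rw [mem_ball_zero_iff] at hz
    have hz0 : 0 < ‖z‖ := norm_pos_iff.mpr h
    rw [lt_inv_comm₀ (by norm_num) hz0]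
    linarith
  have hG : ∀ z ∈ ball (0 : ℂ) (1 / 2), z ≠ 0 → ContDiffAt ℝ 1 (κ ∘ cinv) z := fun z hz h =>
    (hk (cinv z) (hgt z hz h)).comp z (flat_contDiffAt_cinv h)
  have hbG : ∀ z ∈ ball (0 : ℂ) (1 / 2), ‖(κ ∘ cinv) z‖ ≤ 6 * C / c ^ 3 * ‖z‖ ^ 3 := by
    intro z hz
    rcases eq_or_ne z 0 with rfl | h
    · have : cinv 0 = 0 := by simp [cinv]
      simp [this, h0]
    · refine (hb (cinv z) (hgt z hz h)).trans ?_
      rw [flat_norm_cinv]
      exact flat_exp hC hc (norm_pos_iff.mpr h)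
  have hbG' : ∀ z ∈ ball (0 : ℂ) (1 / 2), z ≠ 0 →
      ‖fderiv ℝ (κ ∘ cinv) z‖ ≤ 6 * C / c ^ 3 * ‖z‖ := by
    intro z hz h
    obtain ⟨L, hL, hLn⟩ := flat_hasFDerivAt h
    have h1 : HasFDerivAt κ (fderiv ℝ κ (cinv z)) (cinv z) :=
      ((hk (cinv z) (hgt z hz h)).differentiableAt (by norm_num)).hasFDerivAt
    rw [(h1.comp z hL).fderiv]
    have hz0 : 0 < ‖z‖ := norm_pos_iff.mpr h
    have h2 := hb' (cinv z) (hgt z hz h)
    rw [flat_norm_cinv] at h2
    have h3 := h2.trans (flat_exp hC hc hz0)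
    refine (ContinuousLinearMap.opNorm_comp_le _ _).trans ?_
    refine (mul_le_mul h3 hLn (norm_nonneg _) (by positivity)).trans (le_of_eq ?_)
    field_simp
  have hopen : IsOpen (ball (0 : ℂ) (1 / 2)) := isOpen_ball
  have h00 : (0 : ℂ) ∈ ball (0 : ℂ) (1 / 2) := by simp
  have hd0 : HasFDerivAt (κ ∘ cinv) (0 : ℂ →L[ℝ] F) 0 := by
    rw [hasFDerivAt_iff_isLittleO_nhds_zero]
    have hc0 : (κ ∘ cinv) 0 = 0 := by simp [cinv, h0]
    simp only [zero_add, hc0, sub_zero, ContinuousLinearMap.zero_apply]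
    have hO : (κ ∘ cinv) =O[𝓝 0] fun z : ℂ => ‖z‖ ^ 3 := by
      refine Asymptotics.IsBigO.of_bound (6 * C / c ^ 3) ?_
      filter_upwards [hopen.mem_nhds h00] with z hz
      refine (hbG z hz).trans (le_of_eq ?_)
      rw [Real.norm_of_nonneg (by positivity)]
    have ho : (fun z : ℂ => ‖z‖ ^ 3) =o[𝓝 0] fun z : ℂ => z := by
      have h3 : (fun z : ℂ => ‖z‖ ^ 3) =o[𝓝 0] fun z : ℂ => ‖z‖ ^ 1 := by
        have := (Asymptotics.isLittleO_pow_pow (𝕜 := ℝ) (show 1 < 3 by norm_num)).comp_tendsto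
          (continuous_norm.tendsto' (0 : ℂ) 0 norm_zero)
        exact this
      simp only [pow_one] at h3
      exact h3.norm_right.of_norm_right.trans_isBigO (Asymptotics.isBigO_refl _ _ |>.norm_left)
    exact hO.trans_isLittleO ho
  rw [show (1 : WithTop ℕ∞) = 0 + 1 from rfl, contDiffOn_succ_iff_fderiv_of_isOpen hopen]
  refine ⟨fun z hz => ?_, by simp, ?_⟩
  · rcases eq_or_ne z 0 with rfl | h
    · exact hd0.differentiableAt.differentiableWithinAt
    · exact ((hG z hz h).differentiableAt (by norm_num)).differentiableWithinAt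
  · rw [contDiffOn_zero]
    intro z hz
    refine ContinuousAt.continuousWithinAt ?_
    rcases eq_or_ne z 0 with rfl | h
    · have hf0 : fderiv ℝ (κ ∘ cinv) 0 = 0 := hd0.fderiv
      rw [ContinuousAt, hf0]
      refine squeeze_zero_norm' (a := fun z : ℂ => 6 * C / c ^ 3 * ‖z‖) ?_ ?_
      · filter_upwards [hopen.mem_nhds h00] with z hz
        rcases eq_or_ne z 0 with rfl | h
        · rw [hf0]; simp
        · exact hbG' z hz h
      · have : Continuous fun z : ℂ => 6 * C / c ^ 3 * ‖z‖ := by fun_prop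
        exact this.tendsto' 0 0 (by simp)
    · have h1 := (hG z hz h).fderiv_right (m := 0) (by norm_num)
      exact h1.continuousAt

/-! ### cutoffs -/

private noncomputable def flatB : ContDiffBump (0 : ℝ) := ⟨1, 2, one_pos, one_lt_two⟩

private theorem flatB_one {s : ℝ} (h : |s| ≤ 1) : flatB s = 1 :=
  flatB.one_of_mem_closedBall (by rw [mem_closedBall_zero_iff, Real.norm_eq_abs]; exact h)

private theorem flatB_zero {s : ℝ} (h : 2 ≤ |s|) : flatB s = 0 :=
  flatB.zero_of_le_dist (by rw [dist_zero_right, Real.norm_eq_abs]; exact h)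

private theorem flatB_bound : ∃ M : ℝ, 0 ≤ M ∧ ∀ ζ : ℂ,
    ‖fderiv ℝ (fun ζ : ℂ => flatB ζ.re) ζ‖ ≤ M := by
  have hcd : ContDiff ℝ 1 (flatB : ℝ → ℝ) := flatB.contDiff
  have hcont : Continuous (fderiv ℝ (flatB : ℝ → ℝ)) := hcd.continuous_fderiv (by norm_num)
  have hsupp : HasCompactSupport (fderiv ℝ (flatB : ℝ → ℝ)) :=
    flatB.hasCompactSupport.fderiv ℝ
  obtain ⟨M, hM⟩ := hcont.bounded_above_of_compact_support hsupp
  refine ⟨max M 0, le_max_right _ _, fun ζ => ?_⟩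
  have h1 : HasFDerivAt (fun ζ : ℂ => flatB ζ.re)
      ((fderiv ℝ (flatB : ℝ → ℝ) ζ.re).comp Complex.reCLM) ζ :=
    ((hcd.differentiable (by norm_num)) ζ.re).hasFDerivAt.comp ζ Complex.reCLM.hasFDerivAt
  rw [h1.fderiv]
  refine (ContinuousLinearMap.opNorm_comp_le _ _).trans ?_
  rw [Complex.reCLM_norm, mul_one]
  exact (hM _).trans (le_max_left _ _)

/-- the cut off function -/
private noncomputable def flatκ (h : ℂ → ℂ) (ζ : ℂ) : ℂ :=
  if 0 < ζ.im then (flatB ζ.re) • h (starRingEnd ℂ ζ) else 0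

private theorem flat_norm_le (ζ : ℂ) (h : |ζ.re| ≤ 2) (him : 0 < ζ.im) : ‖ζ‖ ≤ 2 + ζ.im := by
  refine (Complex.norm_le_abs_re_add_abs_im ζ).trans ?_
  rw [abs_of_pos him]
  linarith

private theorem flat_ev_pos {h : ℂ → ℂ} {ζ : ℂ} (him : 0 < ζ.im) :
    flatκ h =ᶠ[𝓝 ζ] fun ζ => (flatB ζ.re) • h (starRingEnd ℂ ζ) := by
  have : {ζ : ℂ | 0 < ζ.im} ∈ 𝓝 ζ := (isOpen_lt continuous_const Complex.continuous_im).mem_nhds him
  filter_upwards [this] with w hw
  exact if_pos hw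

private theorem flat_ev_neg {h : ℂ → ℂ} {ζ : ℂ} (him : ζ.im < 0) :
    flatκ h =ᶠ[𝓝 ζ] fun _ => 0 := by
  have : {ζ : ℂ | ζ.im < 0} ∈ 𝓝 ζ := (isOpen_lt Complex.continuous_im continuous_const).mem_nhds him
  filter_upwards [this] with w hw
  exact if_neg (not_lt.mpr (le_of_lt hw))

private theorem flat_zero_of {h : ℂ → ℂ} {ζ : ℂ} (hre : 2 ≤ |ζ.re|) : flatκ h ζ = 0 := by
  unfold flatκ
  rw [flatB_zero hre, zero_smul, ite_self]

private theorem flat_ev_re {h : ℂ → ℂ} {ζ : ℂ} (hre : 2 < |ζ.re|) :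
    flatκ h =ᶠ[𝓝 ζ] fun _ => 0 := by
  have : {ζ : ℂ | 2 < |ζ.re|} ∈ 𝓝 ζ :=
    (isOpen_lt continuous_const (Complex.continuous_re.abs)).mem_nhds hre
  filter_upwards [this] with w hw
  exact flat_zero_of (le_of_lt hw)

private theorem flat_cases (ζ : ℂ) (hζ : 2 < ‖ζ‖) : 0 < ζ.im ∨ ζ.im < 0 ∨ 2 < |ζ.re| := by
  rcases lt_trichotomy ζ.im 0 with h | h | h
  · exact Or.inr (Or.inl h)
  · refine Or.inr (Or.inr (hζ.trans_le ?_))
    refine (Complex.norm_le_abs_re_add_abs_im ζ).trans ?_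
    rw [h, abs_zero, add_zero]
  · exact Or.inl h

private theorem flat_hconj {h h' : ℂ → ℂ} (hh : ∀ w, HasDerivAt h (h' w) w) (ζ : ℂ) :
    ∃ L : ℂ →L[ℝ] ℂ, HasFDerivAt (fun ζ : ℂ => h (starRingEnd ℂ ζ)) L ζ ∧
      ‖L‖ ≤ ‖h' (starRingEnd ℂ ζ)‖ := by
  have h1 := (hh (starRingEnd ℂ ζ)).hasFDerivAt.restrictScalars ℝ
  have h2 : HasFDerivAt (fun z : ℂ => starRingEnd ℂ z) (Complex.conjCLE : ℂ →L[ℝ] ℂ) ζ :=
    Complex.conjCLE.hasFDerivAt
  refine ⟨_, h1.comp ζ h2, ?_⟩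
  refine ContinuousLinearMap.opNorm_le_bound _ (norm_nonneg _) fun v => ?_
  have hv : ‖(starRingEnd ℂ) v‖ = ‖v‖ := RCLike.norm_conj v
  simp [hv, mul_comm]

private theorem flat_contDiff_h {h : ℂ → ℂ} (hh : ContDiff ℂ 1 h) :
    ContDiff ℝ 1 (fun ζ : ℂ => (flatB ζ.re) • h (starRingEnd ℂ ζ)) := by
  have h1 : ContDiff ℝ 1 (fun ζ : ℂ => flatB ζ.re) :=
    flatB.contDiff.comp Complex.reCLM.contDiff
  have h2 : ContDiff ℝ 1 (fun ζ : ℂ => h (starRingEnd ℂ ζ)) :=
    (hh.restrict_scalars ℝ).comp Complex.conjCLE.contDiff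
  exact h1.smul h2

private theorem flat_main {h h' : ℂ → ℂ} (hcd : ContDiff ℂ 1 h)
    (hh : ∀ w, HasDerivAt h (h' w) w) {C c : ℝ} (hC : 0 ≤ C) (hc : 0 < c)
    (h1 : ∀ w : ℂ, |w.re| ≤ 2 → w.im < 0 → ‖h w‖ ≤ C * Real.exp (c * w.im))
    (h2 : ∀ w : ℂ, |w.re| ≤ 2 → w.im < 0 → ‖h' w‖ ≤ C * Real.exp (c * w.im)) :
    ∃ C' : ℝ, 0 ≤ C' ∧ (∀ ζ : ℂ, 2 < ‖ζ‖ → ContDiffAt ℝ 1 (flatκ h) ζ) ∧
      (∀ ζ : ℂ, 2 < ‖ζ‖ → ‖flatκ h ζ‖ ≤ C' * Real.exp (-c * ‖ζ‖)) ∧
      (∀ ζ : ℂ, 2 < ‖ζ‖ → ‖fderiv ℝ (flatκ h) ζ‖ ≤ C' * Real.exp (-c * ‖ζ‖)) := by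
  obtain ⟨M, hM0, hM⟩ := flatB_bound
  have hexp : ∀ ζ : ℂ, |ζ.re| ≤ 2 → 0 < ζ.im →
      Real.exp (c * (starRingEnd ℂ ζ).im) ≤ Real.exp (2 * c) * Real.exp (-c * ‖ζ‖) := by
    intro ζ hre him
    rw [← Real.exp_add, Real.exp_le_exp, Complex.conj_im]
    have := flat_norm_le ζ hre him
    nlinarith
  have hB0 : ∀ s, 0 ≤ flatB s := fun s => flatB.nonneg
  have hB1 : ∀ s, flatB s ≤ 1 := fun s => flatB.le_one
  refine ⟨(1 + M) * C * Real.exp (2 * c), by positivity, ?_, ?_, ?_⟩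
  · intro ζ hζ
    rcases flat_cases ζ hζ with h | h | h
    · exact (flat_contDiff_h hcd).contDiffAt.congr_of_eventuallyEq (flat_ev_pos h)
    · exact contDiffAt_const.congr_of_eventuallyEq (flat_ev_neg h)
    · exact contDiffAt_const.congr_of_eventuallyEq (flat_ev_re h)
  · intro ζ hζ
    by_cases him : 0 < ζ.im
    · rcases le_or_gt 2 |ζ.re| with hre | hre
      · rw [flat_zero_of hre, norm_zero]
        positivity
      · unfold flatκ
        rw [if_pos him, norm_smul, Real.norm_of_nonneg (hB0 _)]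
        have k1 := h1 (starRingEnd ℂ ζ) (by rw [Complex.conj_re]; exact hre.le)
          (by rw [Complex.conj_im]; linarith)
        have k2 := hexp ζ hre.le him
        calc flatB ζ.re * ‖h (starRingEnd ℂ ζ)‖ ≤ 1 * (C * Real.exp (c * (starRingEnd ℂ ζ).im)) :=
              mul_le_mul (hB1 _) k1 (norm_nonneg _) zero_le_one
          _ ≤ 1 * (C * (Real.exp (2 * c) * Real.exp (-c * ‖ζ‖))) := by gcongr
          _ ≤ (1 + M) * C * Real.exp (2 * c) * Real.exp (-c * ‖ζ‖) := by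
              have : 0 ≤ M * (C * (Real.exp (2 * c) * Real.exp (-c * ‖ζ‖))) := by positivity
              nlinarith
    · unfold flatκ
      rw [if_neg him, norm_zero]
      positivity
  · intro ζ hζ
    have hzero : flatκ h =ᶠ[𝓝 ζ] (fun _ => 0) →
        ‖fderiv ℝ (flatκ h) ζ‖ ≤ (1 + M) * C * Real.exp (2 * c) * Real.exp (-c * ‖ζ‖) := by
      intro he
      rw [he.fderiv_eq]
      simp only [fderiv_fun_const, Pi.zero_apply, norm_zero]
      positivity
    rcases flat_cases ζ hζ with him | him | hre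
    · rcases lt_or_ge 2 |ζ.re| with hre | hre
      · exact hzero (flat_ev_re hre)
      · rw [(flat_ev_pos him).fderiv_eq]
        obtain ⟨L, hL, hLn⟩ := flat_hconj hh ζ
        have hBd : DifferentiableAt ℝ (fun ζ : ℂ => flatB ζ.re) ζ :=
          ((flatB.contDiff (n := 1)).comp Complex.reCLM.contDiff).differentiable (by norm_num) ζ
        have e := hBd.hasFDerivAt.smul hL
        have e' : HasFDerivAt (fun ζ : ℂ => (flatB ζ.re) • h (starRingEnd ℂ ζ)) _ ζ := e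
        rw [e'.fderiv]
        have hreC : |(starRingEnd ℂ ζ).re| ≤ 2 := by rw [Complex.conj_re]; exact hre
        have himC : (starRingEnd ℂ ζ).im < 0 := by rw [Complex.conj_im]; linarith
        have k1 := h1 _ hreC himC
        have k2 := h2 _ hreC himC
        have k3 := hexp ζ hre him
        refine (norm_add_le _ _).trans ?_
        rw [norm_smul, Real.norm_of_nonneg (hB0 _), ContinuousLinearMap.norm_smulRight_apply]
        have a1 : flatB ζ.re * ‖L‖ ≤ 1 * (C * Real.exp (c * (starRingEnd ℂ ζ).im)) :=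
          mul_le_mul (hB1 _) (hLn.trans k2) (norm_nonneg _) zero_le_one
        have a2 : ‖fderiv ℝ (fun ζ : ℂ => flatB ζ.re) ζ‖ * ‖h (starRingEnd ℂ ζ)‖
            ≤ M * (C * Real.exp (c * (starRingEnd ℂ ζ).im)) :=
          mul_le_mul (hM ζ) k1 (norm_nonneg _) hM0
        calc _ ≤ 1 * (C * Real.exp (c * (starRingEnd ℂ ζ).im))
              + M * (C * Real.exp (c * (starRingEnd ℂ ζ).im)) := add_le_add a1 a2
          _ = (1 + M) * (C * Real.exp (c * (starRingEnd ℂ ζ).im)) := by ring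
          _ ≤ (1 + M) * (C * (Real.exp (2 * c) * Real.exp (-c * ‖ζ‖))) := by gcongr
          _ = (1 + M) * C * Real.exp (2 * c) * Real.exp (-c * ‖ζ‖) := by ring
    · exact hzero (flat_ev_neg him)
    · exact hzero (flat_ev_re hre)

/-! ### the two functions -/

private theorem flat_cinv_im {z : ℂ} : 0 < (cinv z).im ↔ 0 < z.im := by
  unfold cinv
  rw [Complex.inv_im, Complex.conj_im, neg_neg, Complex.normSq_conj]
  rcases eq_or_ne z 0 with rfl | h
  · simp
  · have := Complex.normSq_pos.mpr h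
    exact div_pos_iff_of_pos_right this

private theorem flat_conj_cinv (z : ℂ) : starRingEnd ℂ (cinv z) = z⁻¹ := by
  unfold cinv
  rw [map_inv₀, Complex.conj_conj]

private theorem flat_cinv_zero : cinv 0 = 0 := by simp [cinv]

private theorem flatκ_zero (h : ℂ → ℂ) : flatκ h 0 = 0 := by simp [flatκ]

private theorem flat_norm_exp (a : ℝ) (w : ℂ) :
    ‖Complex.exp (-(Complex.I * a * w))‖ = Real.exp (a * w.im) := by
  rw [Complex.norm_exp]
  congr 1
  simp

private theorem flat_exp_deriv (a : ℝ) (w : ℂ) :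
    HasDerivAt (fun w : ℂ => Complex.exp (-(Complex.I * a * w)))
      (-(Complex.I * a) * Complex.exp (-(Complex.I * a * w))) w := by
  have h1 : HasDerivAt (fun w : ℂ => -(Complex.I * a * w)) (-(Complex.I * a)) w := by
    have h0 : HasDerivAt (fun w : ℂ => -(Complex.I * a) * w) (-(Complex.I * a) * 1) w :=
      (hasDerivAt_id w).const_mul (-(Complex.I * a))
    rw [mul_one] at h0
    refine h0.congr_of_eventuallyEq (Filter.Eventually.of_forall fun w => ?_)
    exact (neg_mul _ _).symm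
  exact h1.cexp.congr_deriv (mul_comm _ _)

/-- the flat function `f(z) = χ(s) sin(π s / 2) exp(-π τ / 2)` for `Im z > 0`, where
`s + i τ = cinv z` and `χ` is a cutoff (`= 1` on `[-1,1]`, `= 0` off `(-2,2)`) -/
theorem exists_f : ∃ f : ℂ → ℝ, ContDiffOn ℝ 1 f (ball 0 (1 / 2)) ∧
    (∀ z, z.re = 0 → f z = 0) ∧ (∀ z, z.im ≤ 0 → f z = 0) ∧
    (∀ z, 0 < z.im → |(cinv z).re| ≤ 1 →
      f z = Real.sin (Real.pi / 2 * (cinv z).re) * Real.exp (-(Real.pi / 2) * (cinv z).im)) ∧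
    (∀ z, |f z| ≤ 1) ∧
    ∃ C c : ℝ, 0 < c ∧ ∀ z ∈ ball (0 : ℂ) (1 / 2), |f z| ≤ C * Real.exp (-c / ‖z‖) := by
  set a : ℝ := Real.pi / 2 with ha
  have ha0 : 0 < a := by positivity
  have ha2 : a ≤ 2 := by
    have := Real.pi_le_four
    rw [ha]; linarith
  set h : ℂ → ℂ := fun w => Complex.exp (-(Complex.I * a * w)) with hh
  obtain ⟨C', hC', hk, hb, hb'⟩ := flat_main (h := h)
    (h' := fun w => -(Complex.I * a) * Complex.exp (-(Complex.I * a * w))) (C := 2) (c := a)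
    (by rw [hh]; fun_prop) (fun w => flat_exp_deriv a w) (by norm_num) ha0
    (fun w _ _ => by
      rw [hh, flat_norm_exp]
      nlinarith [Real.exp_pos (a * w.im)])
    (fun w _ _ => by
      rw [norm_mul, flat_norm_exp, norm_neg, norm_mul, Complex.norm_I, one_mul,
        Complex.norm_real, Real.norm_of_nonneg ha0.le]
      exact mul_le_mul_of_nonneg_right ha2 (Real.exp_pos _).le)
  have hcd := contDiffOn_flat (flatκ h) (flatκ_zero h) C' a ha0 hk hb hb'
  have hexp : ∀ ζ : ℂ, Complex.exp (-(Complex.I * a * (starRingEnd ℂ ζ))) =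
      ((Real.exp (-a * ζ.im) * Real.cos (a * ζ.re) : ℝ) : ℂ)
        - ((Real.exp (-a * ζ.im) * Real.sin (a * ζ.re) : ℝ) : ℂ) * Complex.I := by
    intro ζ
    have e : -(Complex.I * a * (starRingEnd ℂ ζ)) = ((-a * ζ.im : ℝ) : ℂ)
        + ((-(a * ζ.re) : ℝ) : ℂ) * Complex.I := by
      apply Complex.ext <;> simp
    rw [e, Complex.exp_add_mul_I, ← Complex.ofReal_exp, ← Complex.ofReal_cos,
      ← Complex.ofReal_sin, Real.cos_neg, Real.sin_neg]
    push_cast
    ring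
  have hval : ∀ z : ℂ, -((flatκ h ∘ cinv) z).im = if 0 < z.im then
      flatB (cinv z).re * (Real.exp (-a * (cinv z).im) * Real.sin (a * (cinv z).re)) else 0 := by
    intro z
    show -(flatκ h (cinv z)).im = _
    unfold flatκ
    by_cases hz : 0 < z.im
    · rw [if_pos (flat_cinv_im.mpr hz), if_pos hz, hh]
      simp only
      rw [hexp, Complex.smul_im]
      have e3 : ((((Real.exp (-a * (cinv z).im) * Real.cos (a * (cinv z).re) : ℝ) : ℂ)
        - ((Real.exp (-a * (cinv z).im) * Real.sin (a * (cinv z).re) : ℝ) : ℂ) * Complex.I)).im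
          = -(Real.exp (-a * (cinv z).im) * Real.sin (a * (cinv z).re)) := by
        rw [Complex.sub_im, Complex.ofReal_im, Complex.im_ofReal_mul, Complex.I_im]
        ring
      rw [e3, smul_eq_mul]
      ring
    · rw [if_neg (fun h => hz (flat_cinv_im.mp h)), if_neg hz]
      simp
  refine ⟨fun z => -((flatκ h ∘ cinv) z).im, ?_, ?_, ?_, ?_, ?_, C', a, ha0, ?_⟩
  · exact (Complex.imCLM.contDiff.comp_contDiffOn hcd).neg
  · intro z hz
    beta_reduce
    rw [hval]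
    have : (cinv z).re = 0 := by
      unfold cinv
      rw [Complex.inv_re, Complex.conj_re, hz, zero_div]
    rw [this]
    simp
  · intro z hz
    beta_reduce
    rw [hval, if_neg (not_lt.mpr hz)]
  · intro z hz hs
    beta_reduce
    rw [hval, if_pos hz, flatB_one hs, one_mul, mul_comm]
  · intro z
    beta_reduce
    rw [hval]
    split_ifs with hz
    · rw [abs_mul, abs_mul, abs_of_nonneg (flatB.nonneg), abs_of_pos (Real.exp_pos _)]
      have h1 : flatB (cinv z).re ≤ 1 := flatB.le_one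
      have h2 : Real.exp (-a * (cinv z).im) ≤ 1 := by
        rw [Real.exp_le_one_iff]
        have := flat_cinv_im.mpr hz
        nlinarith
      have h3 := Real.abs_sin_le_one (a * (cinv z).re)
      have h4 : Real.exp (-a * (cinv z).im) * |Real.sin (a * (cinv z).re)| ≤ 1 * 1 :=
        mul_le_mul h2 h3 (abs_nonneg _) zero_le_one
      have h5 := mul_le_mul h1 h4 (by positivity) zero_le_one
      linarith
    · simp
  · intro z hz
    rw [mem_ball_zero_iff] at hz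
    rcases eq_or_ne z 0 with rfl | h0
    · simp only [Function.comp_apply, flat_cinv_zero, flatκ_zero, Complex.zero_im, neg_zero,
        abs_zero]
      positivity
    · have hz0 : 0 < ‖z‖ := norm_pos_iff.mpr h0
      have h2 : 2 < ‖cinv z‖ := by
        rw [flat_norm_cinv, lt_inv_comm₀ (by norm_num) hz0]
        linarith
      have h3 := hb (cinv z) h2
      rw [flat_norm_cinv] at h3
      rw [abs_neg]
      refine (Complex.abs_im_le_norm _).trans ?_
      rw [div_eq_mul_inv]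
      exact h3

/-- a `C¹` function on the disc which agrees with the derivative of `exp (-iπ/z)` in the region
`Im z > 0`, `|Re (1/z)| ≤ 1` (cutoff as before) -/
theorem exists_Γ : ∃ Γ : ℂ → ℂ, ContDiffOn ℝ 1 Γ (ball 0 (1 / 2)) ∧
    ∀ z, 0 < z.im → |(cinv z).re| ≤ 1 →
      Γ z = Complex.I * Real.pi / z ^ 2 * Complex.exp (-(Complex.I * Real.pi / z)) := by
  set h : ℂ → ℂ := fun w => Complex.I * Real.pi * w ^ 2 * Complex.exp (-(Complex.I * Real.pi * w))
    with hh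
  set h' : ℂ → ℂ := fun w => Complex.I * Real.pi * (2 * w) * Complex.exp (-(Complex.I * Real.pi * w))
    + Complex.I * Real.pi * w ^ 2
      * (-(Complex.I * Real.pi) * Complex.exp (-(Complex.I * Real.pi * w))) with hh'
  have hder : ∀ w, HasDerivAt h (h' w) w := by
    intro w
    have h1 : HasDerivAt (fun w : ℂ => Complex.I * Real.pi * w ^ 2)
        (Complex.I * Real.pi * (2 * w)) w := by
      have := (hasDerivAt_pow 2 w).const_mul (Complex.I * (Real.pi : ℂ))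
      simpa using this
    exact h1.mul (flat_exp_deriv Real.pi w)
  have hwn : ∀ w : ℂ, |w.re| ≤ 2 → w.im < 0 → ‖w‖ ≤ 2 - w.im := by
    intro w h1 h2
    refine (Complex.norm_le_abs_re_add_abs_im w).trans ?_
    rw [abs_of_neg h2]
    linarith
  have hpoly : ∀ t : ℝ, 0 < t → (2 + t) ^ 2 * Real.exp (-Real.pi * t) ≤ 4 * Real.exp (-1 * t) := by
    intro t ht
    have h1 : (2 + t) ^ 2 ≤ 4 * Real.exp (2 * t) := by
      have := Real.quadratic_le_exp_of_nonneg (show 0 ≤ 2 * t by positivity)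
      nlinarith
    have h2 : Real.exp (-Real.pi * t) ≤ Real.exp (-3 * t) := by
      rw [Real.exp_le_exp]
      nlinarith [Real.pi_gt_three]
    calc (2 + t) ^ 2 * Real.exp (-Real.pi * t) ≤ (4 * Real.exp (2 * t)) * Real.exp (-3 * t) :=
          mul_le_mul h1 h2 (Real.exp_pos _).le (by positivity)
      _ = 4 * Real.exp (-1 * t) := by
          rw [mul_assoc, ← Real.exp_add]
          congr 2
          ring
  have hπ4 := Real.pi_le_four
  have hπ0 := Real.pi_pos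
  have hbd : ∀ w : ℂ, |w.re| ≤ 2 → w.im < 0 →
      ‖w‖ ^ 2 * Real.exp (Real.pi * w.im) ≤ 4 * Real.exp (1 * w.im) ∧
      ‖w‖ * Real.exp (Real.pi * w.im) ≤ 4 * Real.exp (1 * w.im) := by
    intro w h1 h2
    have h3 := hwn w h1 h2
    have h4 := hpoly (-w.im) (by linarith)
    have e1 : -Real.pi * -w.im = Real.pi * w.im := by ring
    have e2 : (-1 : ℝ) * -w.im = 1 * w.im := by ring
    rw [e1, e2] at h4
    have h5 : ‖w‖ ^ 2 ≤ (2 + -w.im) ^ 2 := pow_le_pow_left₀ (norm_nonneg _) (by linarith) 2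
    have h6 : ‖w‖ ≤ (2 + -w.im) ^ 2 := by nlinarith [norm_nonneg w]
    exact ⟨(mul_le_mul_of_nonneg_right h5 (Real.exp_pos _).le).trans h4,
      (mul_le_mul_of_nonneg_right h6 (Real.exp_pos _).le).trans h4⟩
  have hnI : ‖Complex.I * (Real.pi : ℂ)‖ = Real.pi := by
    rw [norm_mul, Complex.norm_I, one_mul, Complex.norm_real, Real.norm_of_nonneg hπ0.le]
  obtain ⟨C', hC', hk, hb, hb'⟩ := flat_main (h := h) (h' := h') (C := 100) (c := 1)
    (by rw [hh]; fun_prop) hder (by norm_num) one_pos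
    (fun w h1 h2 => by
      rw [hh]
      simp only
      rw [norm_mul, norm_mul, flat_norm_exp, hnI, norm_pow, mul_assoc]
      have := (hbd w h1 h2).1
      calc Real.pi * (‖w‖ ^ 2 * Real.exp (Real.pi * w.im)) ≤ 4 * (4 * Real.exp (1 * w.im)) :=
            mul_le_mul hπ4 this (by positivity) (by norm_num)
        _ ≤ 100 * Real.exp (1 * w.im) := by nlinarith [Real.exp_pos (1 * w.im)])
    (fun w h1 h2 => by
      rw [hh']
      simp only
      refine (norm_add_le _ _).trans ?_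
      have n1 : ‖Complex.I * (Real.pi : ℂ) * (2 * w) * Complex.exp (-(Complex.I * Real.pi * w))‖
          = Real.pi * (2 * ‖w‖) * Real.exp (Real.pi * w.im) := by
        rw [norm_mul, norm_mul, hnI, flat_norm_exp, norm_mul, Complex.norm_ofNat]
      have n2 : ‖Complex.I * (Real.pi : ℂ) * w ^ 2
          * (-(Complex.I * (Real.pi : ℂ)) * Complex.exp (-(Complex.I * Real.pi * w)))‖
          = Real.pi * ‖w‖ ^ 2 * (Real.pi * Real.exp (Real.pi * w.im)) := by
        rw [norm_mul, norm_mul (Complex.I * (Real.pi : ℂ)) (w ^ 2), norm_mul (-(Complex.I * _)),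
          norm_neg, hnI, flat_norm_exp, norm_pow]
      rw [n1, n2]
      obtain ⟨b1, b2⟩ := hbd w h1 h2
      have c1 : Real.pi * (2 * ‖w‖) * Real.exp (Real.pi * w.im) ≤ 8 * (4 * Real.exp (1 * w.im)) := by
        have : Real.pi * (2 * ‖w‖) * Real.exp (Real.pi * w.im)
            = (2 * Real.pi) * (‖w‖ * Real.exp (Real.pi * w.im)) := by ring
        rw [this]
        exact mul_le_mul (by linarith) b2 (by positivity) (by norm_num)
      have c2 : Real.pi * ‖w‖ ^ 2 * (Real.pi * Real.exp (Real.pi * w.im))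
          ≤ 16 * (4 * Real.exp (1 * w.im)) := by
        have : Real.pi * ‖w‖ ^ 2 * (Real.pi * Real.exp (Real.pi * w.im))
            = (Real.pi * Real.pi) * (‖w‖ ^ 2 * Real.exp (Real.pi * w.im)) := by ring
        rw [this]
        exact mul_le_mul (by nlinarith) b1 (by positivity) (by norm_num)
      nlinarith [Real.exp_pos (1 * w.im)])
  have hcd := contDiffOn_flat (flatκ h) (flatκ_zero h) C' 1 one_pos hk hb hb'
  refine ⟨flatκ h ∘ cinv, hcd, fun z hz hs => ?_⟩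
  show flatκ h (cinv z) = _
  unfold flatκ
  rw [if_pos (flat_cinv_im.mpr hz), flatB_one hs, one_smul, flat_conj_cinv, hh]
  simp only
  rw [inv_pow]
  rfl

end VUC
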