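import Pool.Agent.Lib.MP_b5b7b7_an.Defs

/-!
# The four sheets
-/

set_option autoImplicit false
set_option linter.unusedVariables false

open MeasureTheory Metric Set Filter Topology
open scoped RealInnerProductSpace NNReal ENNReal

namespace VUC

/-- the parameter disc -/
def D : Set ℂ := ball 0 (1 / 2)

/-- the open set of the ambient space -/
def U6 : Set (Eu 6) := ball 0 (1 / 2)

/-- the holomorphic function `B(w) = w / (w - 1)` -/
noncomputable def Bf (w : ℂ) : ℂ := w / (w - 1)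

/-- its derivative -/
noncomputable def Bd (w : ℂ) : ℂ := -1 / (w - 1) ^ 2

theorem isOpen_D : IsOpen D := isOpen_ball

theorem isOpen_U6 : IsOpen U6 := isOpen_ball

theorem mem_D {w : ℂ} : w ∈ D ↔ ‖w‖ < 1 / 2 := by
  unfold D; rw [mem_ball_zero_iff]

theorem norm_sub_one {w : ℂ} (hw : w ∈ D) : 1 / 2 < ‖w - 1‖ := by
  rw [mem_D] at hw
  have h1 : ‖(1 : ℂ)‖ ≤ ‖w‖ + ‖w - 1‖ := by
    calc ‖(1 : ℂ)‖ = ‖w - (w - 1)‖ := by congr 1; ring
      _ ≤ ‖w‖ + ‖w - 1‖ := norm_sub_le _ _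
  rw [norm_one] at h1
  linarith

theorem sub_one_ne {w : ℂ} (hw : w ∈ D) : w - 1 ≠ 0 := by
  intro h
  have := norm_sub_one hw
  rw [h, norm_zero] at this
  linarith

theorem hasDerivAt_Bf {w : ℂ} (hw : w ∈ D) : HasDerivAt Bf (Bd w) w := by
  have h1 := (hasDerivAt_id w).div ((hasDerivAt_id w).sub_const 1) (sub_one_ne hw)
  have h2 : (1 * (id w - 1) - id w * 1) / (id w - 1) ^ 2 = Bd w := by
    simp only [id, Bd]; congr 1; ring
  rw [h2] at h1
  exact h1

theorem norm_Bd_le {w : ℂ} (hw : w ∈ D) : ‖Bd w‖ ≤ 4 := by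
  unfold Bd
  have h1 := norm_sub_one hw
  rw [norm_div, norm_neg, norm_one, norm_pow]
  rw [div_le_iff₀ (by positivity)]
  nlinarith

theorem lipschitzOn_Bf : LipschitzOnWith 4 Bf D := by
  refine (convex_ball (0 : ℂ) (1 / 2)).lipschitzOnWith_of_nnnorm_hasDerivWithin_le
    (f' := Bd) (fun w hw => (hasDerivAt_Bf hw).hasDerivWithinAt) (fun w hw => ?_)
  have := norm_Bd_le hw
  rw [← NNReal.coe_le_coe, coe_nnnorm]
  exact this

theorem exists_ext : ∃ p : (ℂ → ℝ) × (ℂ → ℝ), LipschitzWith 4 p.1 ∧ LipschitzWith 4 p.2 ∧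
    ∀ w ∈ D, p.1 w = (Bf w).re ∧ p.2 w = -(Bf w).im := by
  have h1 : LipschitzOnWith 4 (fun w => (Bf w).re) D := by
    refine LipschitzOnWith.of_dist_le_mul (fun x hx y hy => ?_)
    refine le_trans ?_ (lipschitzOn_Bf.dist_le_mul x hx y hy)
    rw [Real.dist_eq, dist_eq_norm, ← Complex.sub_re]
    exact Complex.abs_re_le_norm _
  have h2 : LipschitzOnWith 4 (fun w => -(Bf w).im) D := by
    refine LipschitzOnWith.of_dist_le_mul (fun x hx y hy => ?_)
    refine le_trans ?_ (lipschitzOn_Bf.dist_le_mul x hx y hy)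
    rw [Real.dist_eq, dist_eq_norm, neg_sub_neg, ← Complex.sub_im, ← abs_neg, ← Complex.neg_im,
      neg_sub]
    exact Complex.abs_im_le_norm _
  obtain ⟨g1, hg1, he1⟩ := h1.extend_real
  obtain ⟨g2, hg2, he2⟩ := h2.extend_real
  exact ⟨(g1, g2), hg1, hg2, fun w hw => ⟨(he1 hw).symm, (he2 hw).symm⟩⟩

/-- `Re B`, extended to a Lipschitz function -/
noncomputable def bh : ℂ → ℝ := (Classical.choose exists_ext).1

/-- `- Im B`, extended to a Lipschitz function -/
noncomputable def bh1 : ℂ → ℝ := (Classical.choose exists_ext).2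

theorem lip_bh : LipschitzWith 4 bh := (Classical.choose_spec exists_ext).1
theorem lip_bh1 : LipschitzWith 4 bh1 := (Classical.choose_spec exists_ext).2.1
theorem bh_eq {w : ℂ} (hw : w ∈ D) : bh w = (Bf w).re :=
  ((Classical.choose_spec exists_ext).2.2 w hw).1
theorem bh1_eq {w : ℂ} (hw : w ∈ D) : bh1 w = -(Bf w).im :=
  ((Classical.choose_spec exists_ext).2.2 w hw).2

/-- the sign -/
def sg (b : Bool) : ℝ := if b then 1 else -1

theorem sg_sq (b : Bool) : sg b * sg b = 1 := by cases b <;> norm_num [sg]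
theorem sg_ne (b : Bool) : sg b ≠ 0 := by cases b <;> norm_num [sg]
theorem abs_sg (b : Bool) : |sg b| = 1 := by cases b <;> norm_num [sg]
theorem sg_true : sg true = 1 := rfl
theorem sg_false : sg false = -1 := rfl

/-- the four sheets -/
noncomputable def F (p : Bool × Bool) (w : ℂ) : Eu 6 :=
  WithLp.toLp 2 ![sg p.1 * max w.re 0, sg p.1 * max (-w.re) 0, w.im,
    sg p.2 * max (bh w) 0, sg p.2 * max (-bh w) 0, bh1 w]

@[simp] theorem F_0 (p : Bool × Bool) (w : ℂ) : F p w 0 = sg p.1 * max w.re 0 := rfl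
@[simp] theorem F_1 (p : Bool × Bool) (w : ℂ) : F p w 1 = sg p.1 * max (-w.re) 0 := rfl
@[simp] theorem F_2 (p : Bool × Bool) (w : ℂ) : F p w 2 = w.im := rfl
@[simp] theorem F_3 (p : Bool × Bool) (w : ℂ) : F p w 3 = sg p.2 * max (bh w) 0 := rfl
@[simp] theorem F_4 (p : Bool × Bool) (w : ℂ) : F p w 4 = sg p.2 * max (-bh w) 0 := rfl
@[simp] theorem F_5 (p : Bool × Bool) (w : ℂ) : F p w 5 = bh1 w := rfl

/-- the Lipschitz left inverse of all sheets -/
noncomputable def q (x : Eu 6) : ℂ := ⟨|x 0| - |x 1|, x 2⟩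

theorem q_F (p : Bool × Bool) (w : ℂ) : q (F p w) = w := by
  unfold q
  apply Complex.ext
  · show |F p w 0| - |F p w 1| = w.re
    rw [F_0, F_1, abs_mul, abs_mul, abs_sg, one_mul, one_mul, abs_of_nonneg (le_max_right _ _),
      abs_of_nonneg (le_max_right _ _)]
    rcases le_total 0 w.re with h | h
    · rw [max_eq_left h, max_eq_right (by linarith)]; ring
    · rw [max_eq_right h, max_eq_left (by linarith)]; ring
  · rfl

theorem abs_apply_sub_le (x y : Eu 6) (i : Fin 6) : |x i - y i| ≤ ‖x - y‖ := by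
  have h := PiLp.norm_apply_le (x - y) i
  rwa [Real.norm_eq_abs, PiLp.sub_apply] at h

theorem lip_q : LipschitzWith 3 q := by
  refine LipschitzWith.of_dist_le_mul (fun x y => ?_)
  rw [dist_eq_norm, dist_eq_norm]
  have h1 : ‖q x - q y‖ ≤ |(q x - q y).re| + |(q x - q y).im| := Complex.norm_le_abs_re_add_abs_im _
  have h2 : |(q x - q y).re| ≤ |x 0 - y 0| + |x 1 - y 1| := by
    have : (q x - q y).re = (|x 0| - |y 0|) - (|x 1| - |y 1|) := by
      simp only [q, Complex.sub_re]; ring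
    rw [this]
    exact (abs_sub _ _).trans (add_le_add (abs_abs_sub_abs_le_abs_sub _ _)
      (abs_abs_sub_abs_le_abs_sub _ _))
  have h3 : |(q x - q y).im| = |x 2 - y 2| := by simp only [q, Complex.sub_im]
  have h4 := abs_apply_sub_le x y 0
  have h5 := abs_apply_sub_le x y 1
  have h6 := abs_apply_sub_le x y 2
  have : ((3 : ℝ≥0) : ℝ) = 3 := rfl
  rw [this]
  linarith

theorem sep (i j : Bool × Bool) (w w' : ℂ) : (1 / 3 : ℝ) * ‖w - w'‖ ≤ ‖F i w - F j w'‖ := by
  have h := lip_q.dist_le_mul (F i w) (F j w')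
  rw [q_F, q_F, dist_eq_norm, dist_eq_norm] at h
  have : ((3 : ℝ≥0) : ℝ) = 3 := rfl
  rw [this] at h
  linarith

theorem norm_F_sq (p : Bool × Bool) (w : ℂ) :
    ‖F p w‖ ^ 2 = ‖w‖ ^ 2 + bh w ^ 2 + bh1 w ^ 2 := by
  rw [EuclideanSpace.norm_sq_eq, Fin.sum_univ_six]
  simp only [F_0, F_1, F_2, F_3, F_4, F_5, Real.norm_eq_abs, sq_abs]
  rw [Complex.sq_norm, Complex.normSq_apply]
  have h1 : ∀ (b : Bool) (t : ℝ), (sg b * max t 0) ^ 2 + (sg b * max (-t) 0) ^ 2 = t ^ 2 := by
    intro b t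
    have := sg_sq b
    rcases le_total 0 t with h | h
    · rw [max_eq_left h, max_eq_right (by linarith)]
      linear_combination t ^ 2 * this
    · rw [max_eq_right h, max_eq_left (by linarith)]
      linear_combination t ^ 2 * this
  have e1 := h1 p.1 w.re
  have e2 := h1 p.2 (bh w)
  linarith

theorem norm_le_norm_F (p : Bool × Bool) (w : ℂ) : ‖w‖ ≤ ‖F p w‖ := by
  have h := norm_F_sq p w
  have h2 : ‖w‖ ^ 2 ≤ ‖F p w‖ ^ 2 := by nlinarith [sq_nonneg (bh w), sq_nonneg (bh1 w)]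
  exact (pow_le_pow_iff_left₀ (norm_nonneg _) (norm_nonneg _) two_ne_zero).1 h2

theorem mem_D_of_F {p : Bool × Bool} {w : ℂ} (h : F p w ∈ U6) : w ∈ D := by
  rw [mem_D]
  have h1 : ‖F p w‖ < 1 / 2 := by rwa [U6, mem_ball_zero_iff] at h
  exact (norm_le_norm_F p w).trans_lt h1

theorem lip_F (p : Bool × Bool) : ∃ K : ℝ≥0, LipschitzWith K (F p) := by
  refine ⟨18, LipschitzWith.of_dist_le_mul (fun x y => ?_)⟩
  rw [dist_eq_norm]
  have h0 : ‖F p x - F p y‖ ≤ ∑ i, |(F p x - F p y) i| := by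
    rw [EuclideanSpace.norm_eq]
    refine Real.sqrt_le_iff.2 ⟨Finset.sum_nonneg (fun i _ => abs_nonneg _), ?_⟩
    simp only [Real.norm_eq_abs]
    exact Finset.sum_sq_le_sq_sum_of_nonneg (fun i _ => abs_nonneg _)
  refine h0.trans ?_
  rw [Fin.sum_univ_six]
  simp only [PiLp.sub_apply, F_0, F_1, F_2, F_3, F_4, F_5]
  have hb := lip_bh.dist_le_mul x y
  have hb1 := lip_bh1.dist_le_mul x y
  rw [Real.dist_eq] at hb hb1
  have h4 : ((4 : ℝ≥0) : ℝ) = 4 := rfl
  have h18 : ((18 : ℝ≥0) : ℝ) = 18 := rfl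
  rw [h4] at hb hb1
  rw [h18]
  have hre : |x.re - y.re| ≤ dist x y := by
    rw [dist_eq_norm, ← Complex.sub_re]; exact Complex.abs_re_le_norm _
  have him : |x.im - y.im| ≤ dist x y := by
    rw [dist_eq_norm, ← Complex.sub_im]; exact Complex.abs_im_le_norm _
  have key : ∀ (b : Bool) (s t : ℝ), |sg b * max s 0 - sg b * max t 0| ≤ |s - t| := by
    intro b s t
    rw [← mul_sub, abs_mul, abs_sg, one_mul]
    exact abs_max_sub_max_le_abs _ _ _
  have key2 : ∀ (b : Bool) (s t : ℝ), |sg b * max (-s) 0 - sg b * max (-t) 0| ≤ |s - t| := by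
    intro b s t
    refine (key b (-s) (-t)).trans ?_
    rw [neg_sub_neg, abs_sub_comm]
  have e0 := key p.1 x.re y.re
  have e1 := key2 p.1 x.re y.re
  have e3 := key p.2 (bh x) (bh y)
  have e4 := key2 p.2 (bh x) (bh y)
  have hd : 0 ≤ dist x y := dist_nonneg
  linarith

theorem continuous_F (p : Bool × Bool) : Continuous (F p) := by
  obtain ⟨K, hK⟩ := lip_F p
  exact hK.continuous

theorem injective_F (p : Bool × Bool) : Function.Injective (F p) := by
  intro w w' h
  rw [← q_F p w, h, q_F]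

theorem measurableEmbedding_F (p : Bool × Bool) : MeasurableEmbedding (F p) :=
  (continuous_F p).measurableEmbedding (injective_F p)

/-- the conformal factor -/
noncomputable def lam (w : ℂ) : ℝ := 1 + ‖Bd w‖ ^ 2

theorem lam_pos (w : ℂ) : 0 < lam w := by unfold lam; positivity

theorem lam_le {w : ℂ} (hw : w ∈ D) : lam w ≤ 17 := by
  unfold lam
  have := norm_Bd_le hw
  nlinarith [norm_nonneg (Bd w)]

theorem measurable_Bd : Measurable Bd := by
  unfold Bd; fun_prop

theorem measurable_lam : Measurable lam := by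
  unfold lam
  exact (measurable_Bd.norm.pow_const 2).const_add 1

theorem continuousAt_Bd {w : ℂ} (hw : w ∈ D) : ContinuousAt Bd w := by
  unfold Bd
  exact continuousAt_const.div (by fun_prop) (pow_ne_zero _ (sub_one_ne hw))

theorem continuousAt_lam {w : ℂ} (hw : w ∈ D) : ContinuousAt lam w := by
  unfold lam
  exact ((continuousAt_Bd hw).norm.pow 2).const_add 1

/-- the measure on the parameter disc -/
noncomputable def nu : Measure ℂ :=
  (volume.restrict D).withDensity (fun w => ENNReal.ofReal (lam w))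

/-- the weight measure of the varifold -/
noncomputable def wt : Measure (Eu 6) := (∑ p, nu.map (F p)).restrict U6

/-- first tangent vector -/
noncomputable def t1 (x : Eu 6) : Eu 6 :=
  WithLp.toLp 2 ![(SignType.sign (x 0) : ℝ), -(SignType.sign (x 1) : ℝ), 0,
    (SignType.sign (x 3) : ℝ) * (Bd (q x)).re, -((SignType.sign (x 4) : ℝ) * (Bd (q x)).re),
    -(Bd (q x)).im]

/-- second tangent vector -/
noncomputable def t2 (x : Eu 6) : Eu 6 :=
  WithLp.toLp 2 ![0, 0, 1, -((SignType.sign (x 3) : ℝ) * (Bd (q x)).im),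
    (SignType.sign (x 4) : ℝ) * (Bd (q x)).im, -(Bd (q x)).re]

/-- the differential of the sheet through `x` -/
noncomputable def Lx (x : Eu 6) : ℂ →L[ℝ] Eu 6 :=
  Complex.reCLM.smulRight (t1 x) + Complex.imCLM.smulRight (t2 x)

theorem Lx_apply (x : Eu 6) (v : ℂ) : Lx x v = v.re • t1 x + v.im • t2 x := rfl

theorem Lx_one (x : Eu 6) : Lx x 1 = t1 x := by simp [Lx_apply]

theorem Lx_I (x : Eu 6) : Lx x Complex.I = t2 x := by simp [Lx_apply]

/-- points on exactly one sheet -/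
def good (x : Eu 6) : Prop := (x 0 = 0 ↔ x 1 ≠ 0) ∧ (x 3 = 0 ↔ x 4 ≠ 0)

open Classical in
/-- the tangent planes -/
noncomputable def tan (x : Eu 6) : Submodule ℝ (Eu 6) :=
  if good x then LinearMap.range (Lx x : ℂ →ₗ[ℝ] Eu 6) else ⊥

end VUC
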