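import Pool.Agent.Lib.MP_b5b7b7_an.Geo

/-!
# Differentials and tangent planes of the four sheets
-/

set_option autoImplicit false
set_option linter.unusedVariables false

open MeasureTheory Metric Set Filter Topology
open scoped RealInnerProductSpace NNReal ENNReal

namespace VUC

theorem sign_cases (t : ℝ) : ((SignType.sign t : ℝ)) = 1 ∧ 0 < t ∨ ((SignType.sign t : ℝ)) = -1 ∧ t < 0 ∨
    ((SignType.sign t : ℝ)) = 0 ∧ t = 0 := by
  rcases lt_trichotomy t 0 with h | h | h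
  · right; left; exact ⟨by rw [sign_neg h]; rfl, h⟩
  · right; right; exact ⟨by rw [h, sign_zero]; rfl, h⟩
  · left; exact ⟨by rw [sign_pos h]; rfl, h⟩

theorem good_sq {x : Eu 6} (hx : good x) :
    (SignType.sign (x 0) : ℝ) ^ 2 + (SignType.sign (x 1) : ℝ) ^ 2 = 1 ∧
    (SignType.sign (x 3) : ℝ) ^ 2 + (SignType.sign (x 4) : ℝ) ^ 2 = 1 := by
  obtain ⟨h1, h2⟩ := hx
  constructor
  · rcases sign_cases (x 0) with ⟨e, h⟩ | ⟨e, h⟩ | ⟨e, h⟩ <;>
    rcases sign_cases (x 1) with ⟨e', h'⟩ | ⟨e', h'⟩ | ⟨e', h'⟩ <;> rw [e, e'] <;> try norm_num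
    all_goals (exfalso; first
      | exact absurd (h1.2 h'.ne') h.ne'
      | exact absurd (h1.2 h'.ne') h.ne
      | exact absurd (h1.2 h'.ne) h.ne'
      | exact absurd (h1.2 h'.ne) h.ne
      | exact (h1.1 h) h')
  · rcases sign_cases (x 3) with ⟨e, h⟩ | ⟨e, h⟩ | ⟨e, h⟩ <;>
    rcases sign_cases (x 4) with ⟨e', h'⟩ | ⟨e', h'⟩ | ⟨e', h'⟩ <;> rw [e, e'] <;> try norm_num
    all_goals (exfalso; first
      | exact absurd (h2.2 h'.ne') h.ne'
      | exact absurd (h2.2 h'.ne') h.ne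
      | exact absurd (h2.2 h'.ne) h.ne'
      | exact absurd (h2.2 h'.ne) h.ne
      | exact (h2.1 h) h')

/-- conformality -/
theorem norm_Lx_sq {x : Eu 6} (hx : good x) (v : ℂ) : ‖Lx x v‖ ^ 2 = lam (q x) * ‖v‖ ^ 2 := by
  obtain ⟨h1, h2⟩ := good_sq hx
  rw [Lx_apply, EuclideanSpace.norm_sq_eq, Fin.sum_univ_six]
  simp only [t1, t2, PiLp.add_apply, PiLp.smul_apply, smul_eq_mul, Real.norm_eq_abs, sq_abs, lam]
  rw [Complex.sq_norm, Complex.normSq_apply, Complex.sq_norm, Complex.normSq_apply]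
  simp only [Matrix.cons_val_zero, Matrix.cons_val_one, Matrix.cons_val]
  set s0 := (SignType.sign (x 0) : ℝ)
  set s1 := (SignType.sign (x 1) : ℝ)
  set s3 := (SignType.sign (x 3) : ℝ)
  set s4 := (SignType.sign (x 4) : ℝ)
  set r := (Bd (q x)).re
  set i := (Bd (q x)).im
  linear_combination (v.re ^ 2) * h1 + ((v.re * r - v.im * i) ^ 2) * h2

theorem good_F {p : Bool × Bool} {w : ℂ} (h1 : w.re ≠ 0) (h2 : bh w ≠ 0) : good (F p w) := by
  have key : ∀ (b : Bool) (t : ℝ), t ≠ 0 → (sg b * max t 0 = 0 ↔ sg b * max (-t) 0 ≠ 0) := by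
    intro b t ht
    rcases lt_or_gt_of_ne ht with h | h
    · rw [max_eq_right h.le, max_eq_left (by linarith)]
      simp [sg_ne, ht]
    · rw [max_eq_left h.le, max_eq_right (by linarith)]
      simp [sg_ne, ht]
  exact ⟨key p.1 w.re h1, key p.2 (bh w) h2⟩

theorem tan_F {p : Bool × Bool} {w : ℂ} (h1 : w.re ≠ 0) (h2 : bh w ≠ 0) :
    tan (F p w) = LinearMap.range (Lx (F p w) : ℂ →ₗ[ℝ] Eu 6) := by
  unfold tan
  rw [if_pos (good_F h1 h2)]

theorem conf_F {p : Bool × Bool} {w : ℂ} (h1 : w.re ≠ 0) (h2 : bh w ≠ 0) (v : ℂ) :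
    ‖Lx (F p w) v‖ ^ 2 = lam w * ‖v‖ ^ 2 := by
  rw [norm_Lx_sq (good_F h1 h2), q_F]

theorem sign_sg_mul (b : Bool) (t : ℝ) :
    ((SignType.sign (sg b * max t 0) : ℝ)) = sg b * (if 0 < t then 1 else 0) := by
  by_cases h : 0 < t
  · rw [max_eq_left h.le, if_pos h, mul_one]
    cases b
    · rw [sg_false, sign_neg (by linarith)]; rfl
    · rw [sg_true, sign_pos (by linarith)]; rfl
  · rw [max_eq_right (not_lt.1 h), if_neg h, mul_zero, sign_zero]; rfl

/-- derivative of a folded coordinate -/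
theorem hasFDerivAt_fold {f : ℂ → ℝ} {f' : ℂ →L[ℝ] ℝ} {w : ℂ} (b : Bool)
    (hf : HasFDerivAt f f' w) (h : f w ≠ 0) :
    HasFDerivAt (fun z => sg b * max (f z) 0) (((SignType.sign (sg b * max (f w) 0) : ℝ)) • f') w := by
  rw [sign_sg_mul]
  rcases lt_or_gt_of_ne h with h | h
  · rw [if_neg (by linarith), mul_zero, zero_smul]
    have : (fun z => sg b * max (f z) 0) =ᶠ[𝓝 w] fun _ => 0 := by
      filter_upwards [hf.continuousAt.eventually (gt_mem_nhds h)] with z hz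
      rw [max_eq_right (le_of_lt hz), mul_zero]
    exact (hasFDerivAt_const (0 : ℝ) w).congr_of_eventuallyEq this
  · rw [if_pos h, mul_one]
    have : (fun z => sg b * max (f z) 0) =ᶠ[𝓝 w] fun z => sg b * f z := by
      filter_upwards [hf.continuousAt.eventually (lt_mem_nhds h)] with z hz
      rw [max_eq_left (le_of_lt hz)]
    exact (hf.const_mul (sg b)).congr_of_eventuallyEq this

theorem hasFDerivAt_bh {w : ℂ} (hw : w ∈ D) :
    HasFDerivAt bh ((Bd w).re • Complex.reCLM - (Bd w).im • Complex.imCLM) w := by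
  have h1 := ((hasDerivAt_Bf hw).hasFDerivAt.restrictScalars ℝ)
  have h2 := (Complex.reCLM.hasFDerivAt (x := Bf w)).comp w h1
  have h3 : bh =ᶠ[𝓝 w] (Complex.reCLM ∘ Bf) := by
    filter_upwards [isOpen_D.mem_nhds hw] with z hz
    rw [bh_eq hz]; rfl
  refine (h2.congr_of_eventuallyEq h3).congr_fderiv ?_
  ext v
  simp [mul_comm]

theorem hasFDerivAt_bh1 {w : ℂ} (hw : w ∈ D) :
    HasFDerivAt bh1 (-((Bd w).im • Complex.reCLM) - (Bd w).re • Complex.imCLM) w := by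
  have h1 := ((hasDerivAt_Bf hw).hasFDerivAt.restrictScalars ℝ)
  have h2 := ((Complex.imCLM.hasFDerivAt (x := Bf w)).comp w h1).neg
  have h3 : bh1 =ᶠ[𝓝 w] fun z => -(Complex.imCLM ∘ Bf) z := by
    filter_upwards [isOpen_D.mem_nhds hw] with z hz
    rw [bh1_eq hz]; rfl
  refine (h2.congr_of_eventuallyEq h3).congr_fderiv ?_
  ext v
  simp [mul_comm]
  ring

/-- the differential of a sheet at a good point -/
theorem hasFDerivAt_F (p : Bool × Bool) {w : ℂ} (hw : w ∈ D) (h1 : w.re ≠ 0) (h2 : bh w ≠ 0) :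
    HasFDerivAt (F p) (Lx (F p w)) w := by
  rw [← hasFDerivWithinAt_univ, hasFDerivWithinAt_euclidean]
  simp only [hasFDerivWithinAt_univ]
  have hre : HasFDerivAt (fun z : ℂ => z.re) Complex.reCLM w := Complex.reCLM.hasFDerivAt
  have him : HasFDerivAt (fun z : ℂ => z.im) Complex.imCLM w := Complex.imCLM.hasFDerivAt
  intro i
  fin_cases i
  · refine (hasFDerivAt_fold p.1 hre h1).congr_fderiv ?_
    ext v
    simp [Lx_apply, t1, t2]
    ring
  · refine (hasFDerivAt_fold p.1 hre.neg (neg_ne_zero.2 h1)).congr_fderiv ?_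
    ext v
    simp [Lx_apply, t1, t2]
    ring
  · refine him.congr_fderiv ?_
    ext v
    simp [Lx_apply, t1, t2]
  · refine (hasFDerivAt_fold p.2 (hasFDerivAt_bh hw) h2).congr_fderiv ?_
    ext v
    simp [Lx_apply, t1, t2, q_F]
    ring
  · refine (hasFDerivAt_fold p.2 (hasFDerivAt_bh hw).neg (neg_ne_zero.2 h2)).congr_fderiv ?_
    ext v
    simp [Lx_apply, t1, t2, q_F]
    ring
  · refine (hasFDerivAt_bh1 hw).congr_fderiv ?_
    ext v
    simp [Lx_apply, t1, t2, q_F]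
    ring

end VUC
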