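import Pool.Agent.Lib.MP_b5b7b7_an.Stat2
import Pool.Agent.Lib.MP_b5b7b7_an.Flat

/-!
# The harmonic function
-/

set_option autoImplicit false
set_option linter.unusedVariables false

open MeasureTheory Metric Set Filter Topology
open scoped RealInnerProductSpace NNReal ENNReal

namespace VUC

/-- the flat profile -/
noncomputable def ff : ℂ → ℝ := Classical.choose exists_f

theorem ff_smooth : ContDiffOn ℝ 1 ff (ball 0 (1 / 2)) := (Classical.choose_spec exists_f).1
theorem ff_re {z : ℂ} (h : z.re = 0) : ff z = 0 := (Classical.choose_spec exists_f).2.1 z h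
theorem ff_im {z : ℂ} (h : z.im ≤ 0) : ff z = 0 := (Classical.choose_spec exists_f).2.2.1 z h
theorem ff_eq {z : ℂ} (h : 0 < z.im) (h1 : |(cinv z).re| ≤ 1) :
    ff z = Real.sin (Real.pi / 2 * (cinv z).re) * Real.exp (-(Real.pi / 2) * (cinv z).im) :=
  (Classical.choose_spec exists_f).2.2.2.1 z h h1
theorem ff_le (z : ℂ) : |ff z| ≤ 1 := (Classical.choose_spec exists_f).2.2.2.2.1 z
theorem ff_flat : ∃ C c : ℝ, 0 < c ∧ ∀ z ∈ ball (0 : ℂ) (1 / 2), |ff z| ≤ C * Real.exp (-c / ‖z‖) :=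
  (Classical.choose_spec exists_f).2.2.2.2.2

/-- the cut off derivative of `exp (-iπ/z)` -/
noncomputable def Gm : ℂ → ℂ := Classical.choose exists_Γ

theorem Gm_smooth : ContDiffOn ℝ 1 Gm D := (Classical.choose_spec exists_Γ).1
theorem Gm_eq {z : ℂ} (h : 0 < z.im) (h1 : |(cinv z).re| ≤ 1) :
    Gm z = Complex.I * Real.pi / z ^ 2 * Complex.exp (-(Complex.I * Real.pi / z)) :=
  (Classical.choose_spec exists_Γ).2 z h h1

theorem cinv_re (z : ℂ) : (cinv z).re = z.re / (z.re ^ 2 + z.im ^ 2) := by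
  unfold cinv
  rw [Complex.inv_re, Complex.normSq_conj, Complex.conj_re, Complex.normSq_apply]
  congr 1; ring

theorem cinv_im (z : ℂ) : (cinv z).im = z.im / (z.re ^ 2 + z.im ^ 2) := by
  unfold cinv
  rw [Complex.inv_im, Complex.normSq_conj, Complex.conj_im, Complex.normSq_apply, neg_neg]
  congr 1; ring

/-- the cusp -/
def Cs : Set ℂ := {w | w ∈ D ∧ 0 < w.re ∧ 0 < bh w ∧ 0 < w.im}

theorem isOpen_Cs : IsOpen Cs := by
  have h1 : IsOpen {w : ℂ | 0 < w.re} := isOpen_lt continuous_const Complex.continuous_re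
  have h2 : IsOpen {w : ℂ | 0 < bh w} := isOpen_lt continuous_const lip_bh.continuous
  have h3 : IsOpen {w : ℂ | 0 < w.im} := isOpen_lt continuous_const Complex.continuous_im
  exact isOpen_D.inter (h1.inter (h2.inter h3))

theorem Cs_re {w : ℂ} (hw : w ∈ Cs) : |(cinv w).re| ≤ 1 := by
  obtain ⟨hD, hre, hb, him⟩ := hw
  rw [bh_pos_iff hD] at hb
  have hn : 0 < w.re ^ 2 + w.im ^ 2 := by positivity
  rw [cinv_re, abs_of_pos (div_pos hre hn), div_le_one hn]
  exact hb.le

theorem bh1_formula {w : ℂ} (hw : w ∈ D) : bh1 w = w.im / ((w.re - 1) ^ 2 + w.im ^ 2) := by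
  rw [bh1_eq hw]
  unfold Bf
  rw [Complex.div_im, Complex.normSq_apply]
  simp only [Complex.sub_re, Complex.one_re, Complex.sub_im, Complex.one_im, sub_zero]
  rw [← sub_div, ← neg_div]
  congr 1 <;> ring

/-- the harmonic function on the cusp -/
noncomputable def gg (w : ℂ) : ℝ :=
  Real.sin (Real.pi * (cinv w).re) * Real.exp (-(Real.pi * (cinv w).im))

/-- the linear projections -/
noncomputable def zA (x : Eu 6) : ℂ := ⟨x 0, x 2⟩
/-- the linear projections -/
noncomputable def zB (x : Eu 6) : ℂ := ⟨x 3, x 5⟩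

/-- the function `h` of the counterexample -/
noncomputable def HH (x : Eu 6) : ℝ := 2 * (ff (zA x) * ff (zB x))

theorem HH_F {p : Bool × Bool} {w : ℂ} (hw : w ∈ Cs) : HH (F p w) = sg p.1 * sg p.2 * gg w := by
  have hC := hw
  obtain ⟨hD, hre, hb, him⟩ := hw
  have hb' := hb
  rw [bh_pos_iff hD] at hb'
  have hn : 0 < w.re ^ 2 + w.im ^ 2 := by positivity
  have hd := den_pos hD
  have hA : zA (F p w) = ⟨sg p.1 * w.re, w.im⟩ := by
    unfold zA; rw [F_0, F_2, max_eq_left hre.le]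
  have hB : zB (F p w) = ⟨sg p.2 * bh w, bh1 w⟩ := by
    unfold zB; rw [F_3, F_5, max_eq_left hb.le]
  set n := w.re ^ 2 + w.im ^ 2 with hn_def
  set dd := (w.re - 1) ^ 2 + w.im ^ 2 with hdd
  have hsA : (sg p.1 * w.re) ^ 2 + w.im ^ 2 = n := by
    rw [mul_pow, sq (sg p.1), sg_sq, one_mul]
  have hnd : (n - w.re) ^ 2 + w.im ^ 2 = n * dd := by rw [hn_def, hdd]; ring
  have hsB : (sg p.2 * bh w) ^ 2 + bh1 w ^ 2 = n / dd := by
    rw [mul_pow, sq (sg p.2), sg_sq, one_mul, bh_formula hD, bh1_formula hD, ← hn_def, ← hdd,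
      div_pow, div_pow, ← add_div, hnd]
    field_simp
  have hAr : (cinv (zA (F p w))).re = sg p.1 * (cinv w).re := by
    rw [cinv_re, cinv_re, hA]
    show sg p.1 * w.re / ((sg p.1 * w.re) ^ 2 + w.im ^ 2) = _
    rw [hsA, ← hn_def]; ring
  have hAi : (cinv (zA (F p w))).im = (cinv w).im := by
    rw [cinv_im, cinv_im, hA]
    show w.im / ((sg p.1 * w.re) ^ 2 + w.im ^ 2) = _
    rw [hsA]
  have hBr : (cinv (zB (F p w))).re = sg p.2 * (1 - (cinv w).re) := by
    rw [cinv_re, cinv_re, hB]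
    show sg p.2 * bh w / ((sg p.2 * bh w) ^ 2 + bh1 w ^ 2) = _
    rw [hsB, bh_formula hD, ← hn_def, ← hdd]
    field_simp
  have hBi : (cinv (zB (F p w))).im = (cinv w).im := by
    rw [cinv_im, cinv_im, hB]
    show bh1 w / ((sg p.2 * bh w) ^ 2 + bh1 w ^ 2) = _
    rw [hsB, bh1_formula hD, ← hn_def, ← hdd]
    field_simp
  have hs := Cs_re hC
  have hs0 : 0 ≤ (cinv w).re := by rw [cinv_re]; positivity
  have hs1 : (cinv w).re ≤ 1 := (le_abs_self _).trans hs
  have hfA : ff (zA (F p w)) = sg p.1 * (Real.sin (Real.pi / 2 * (cinv w).re) *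
      Real.exp (-(Real.pi / 2) * (cinv w).im)) := by
    rw [ff_eq (by rw [hA]; exact him) (by rw [hAr, abs_mul, abs_sg, one_mul]; exact hs), hAr, hAi]
    have : Real.sin (Real.pi / 2 * (sg p.1 * (cinv w).re)) =
        sg p.1 * Real.sin (Real.pi / 2 * (cinv w).re) := by
      cases p.1
      · rw [sg_false, neg_one_mul, mul_neg, Real.sin_neg, neg_one_mul]
      · rw [sg_true, one_mul, one_mul]
    rw [this]; ring
  have hfB : ff (zB (F p w)) = sg p.2 * (Real.cos (Real.pi / 2 * (cinv w).re) *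
      Real.exp (-(Real.pi / 2) * (cinv w).im)) := by
    have hb1 : 0 < bh1 w := by rw [bh1_formula hD]; exact div_pos him hd
    rw [ff_eq (by rw [hB]; exact hb1) (by
      rw [hBr, abs_mul, abs_sg, one_mul, abs_of_nonneg (by linarith)]; linarith), hBr, hBi]
    have : Real.sin (Real.pi / 2 * (sg p.2 * (1 - (cinv w).re))) =
        sg p.2 * Real.cos (Real.pi / 2 * (cinv w).re) := by
      have e : Real.sin (Real.pi / 2 * (1 - (cinv w).re)) = Real.cos (Real.pi / 2 * (cinv w).re) := by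
        rw [← Real.sin_pi_div_two_sub]; congr 1; ring
      cases p.2
      · rw [sg_false, neg_one_mul, mul_neg, Real.sin_neg, neg_one_mul, e]
      · rw [sg_true, one_mul, one_mul, e]
    rw [this]; ring
  unfold HH gg
  rw [hfA, hfB]
  have e1 : Real.sin (Real.pi * (cinv w).re) =
      2 * Real.sin (Real.pi / 2 * (cinv w).re) * Real.cos (Real.pi / 2 * (cinv w).re) := by
    rw [← Real.sin_two_mul]; congr 1; ring
  have e2 : Real.exp (-(Real.pi * (cinv w).im)) =
      Real.exp (-(Real.pi / 2) * (cinv w).im) * Real.exp (-(Real.pi / 2) * (cinv w).im) := by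
    rw [← Real.exp_add]; congr 1; ring
  rw [e1, e2]
  ring

theorem HH_F_zero {p : Bool × Bool} {w : ℂ} (hD : w ∈ D) (hw : w ∉ Cs) : HH (F p w) = 0 := by
  unfold HH
  by_cases hre : 0 < w.re
  · by_cases hb : 0 < bh w
    · have him : w.im ≤ 0 := by
        by_contra h
        exact hw ⟨hD, hre, hb, not_le.1 h⟩
      rw [ff_im (z := zA (F p w)) (by show F p w 2 ≤ 0; rw [F_2]; exact him)]
      ring
    · rw [ff_re (z := zB (F p w)) (by
        show F p w 3 = 0
        rw [F_3, max_eq_right (not_lt.1 hb), mul_zero])]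
      ring
  · rw [ff_re (z := zA (F p w)) (by
      show F p w 0 = 0
      rw [F_0, max_eq_right (not_lt.1 hre), mul_zero])]
    ring

theorem norm_zA_le (x : Eu 6) : ‖zA x‖ ≤ ‖x‖ := by
  have h : ‖zA x‖ ^ 2 ≤ ‖x‖ ^ 2 := by
    rw [Complex.sq_norm, Complex.normSq_apply, EuclideanSpace.norm_sq_eq, Fin.sum_univ_six]
    simp only [zA, Real.norm_eq_abs, sq_abs]
    nlinarith [sq_nonneg (x 1), sq_nonneg (x 3), sq_nonneg (x 4), sq_nonneg (x 5)]
  exact (pow_le_pow_iff_left₀ (norm_nonneg _) (norm_nonneg _) two_ne_zero).1 h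

theorem norm_zB_le (x : Eu 6) : ‖zB x‖ ≤ ‖x‖ := by
  have h : ‖zB x‖ ^ 2 ≤ ‖x‖ ^ 2 := by
    rw [Complex.sq_norm, Complex.normSq_apply, EuclideanSpace.norm_sq_eq, Fin.sum_univ_six]
    simp only [zB, Real.norm_eq_abs, sq_abs]
    nlinarith [sq_nonneg (x 1), sq_nonneg (x 0), sq_nonneg (x 4), sq_nonneg (x 2)]
  exact (pow_le_pow_iff_left₀ (norm_nonneg _) (norm_nonneg _) two_ne_zero).1 h

theorem contDiff_pair (i j : Fin 6) : ContDiff ℝ 1 (fun x : Eu 6 => (⟨x i, x j⟩ : ℂ)) := by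
  have h : (fun x : Eu 6 => (⟨x i, x j⟩ : ℂ)) = fun x => ((x i : ℝ) : ℂ) + ((x j : ℝ) : ℂ) * Complex.I := by
    funext x
    exact Complex.mk_eq_add_mul_I _ _
  rw [h]
  have h1 : ContDiff ℝ 1 (fun x : Eu 6 => x i) := (EuclideanSpace.proj i : Eu 6 →L[ℝ] ℝ).contDiff
  have h2 : ContDiff ℝ 1 (fun x : Eu 6 => x j) := (EuclideanSpace.proj j : Eu 6 →L[ℝ] ℝ).contDiff
  exact (Complex.ofRealCLM.contDiff.comp h1).add ((Complex.ofRealCLM.contDiff.comp h2).mul contDiff_const)

theorem HH_smooth : ContDiffOn ℝ 1 HH U6 := by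
  have h1 : ContDiffOn ℝ 1 (fun x : Eu 6 => ff (zA x)) U6 := by
    refine ff_smooth.comp (contDiff_pair 0 2).contDiffOn (fun x hx => ?_)
    rw [mem_ball_zero_iff]
    rw [U6, mem_ball_zero_iff] at hx
    exact (norm_zA_le x).trans_lt hx
  have h2 : ContDiffOn ℝ 1 (fun x : Eu 6 => ff (zB x)) U6 := by
    refine ff_smooth.comp (contDiff_pair 3 5).contDiffOn (fun x hx => ?_)
    rw [mem_ball_zero_iff]
    rw [U6, mem_ball_zero_iff] at hx
    exact (norm_zB_le x).trans_lt hx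
  exact contDiffOn_const.mul (h1.mul h2)

end VUC
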