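import Pool.Agent.Lib.MP_b5b7b7_an.Harm

/-!
# Harmonicity
-/

set_option autoImplicit false
set_option linter.unusedVariables false

open MeasureTheory Metric Set Filter Topology
open scoped RealInnerProductSpace NNReal ENNReal

namespace VUC

/-- the holomorphic function `exp (-iπ/z)` -/
noncomputable def Ef (z : ℂ) : ℂ := Complex.exp (-(Complex.I * Real.pi / z))

theorem hasDerivAt_Ef {z : ℂ} (hz : z ≠ 0) :
    HasDerivAt Ef (Complex.I * Real.pi / z ^ 2 * Complex.exp (-(Complex.I * Real.pi / z))) z := by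
  have h1 : HasDerivAt (fun z : ℂ => -(Complex.I * Real.pi / z)) (Complex.I * Real.pi / z ^ 2) z := by
    have h := ((hasDerivAt_inv hz).const_mul (Complex.I * (Real.pi : ℂ))).neg
    have e : -(Complex.I * (Real.pi : ℂ) * -(z ^ 2)⁻¹) = Complex.I * Real.pi / z ^ 2 := by
      rw [div_eq_mul_inv]; ring
    rw [e] at h
    exact h
  have h2 := h1.cexp
  rw [mul_comm]
  exact h2

theorem ne_zero_of_im {z : ℂ} (h : 0 < z.im) : z ≠ 0 := by
  rintro rfl; simp at h

theorem gg_eq {w : ℂ} (h : 0 < w.im) : gg w = -(Ef w).im := by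
  have hw := ne_zero_of_im h
  have e : -(Complex.I * Real.pi / w) =
      ⟨-(Real.pi * (cinv w).im), -(Real.pi * (cinv w).re)⟩ := by
    have hc : (1 : ℂ) / w = ⟨(cinv w).re, -(cinv w).im⟩ := by
      apply Complex.ext
      · show (1 / w).re = (cinv w).re
        rw [one_div, Complex.inv_re, cinv_re, Complex.normSq_apply]
        congr 1; ring
      · show (1 / w).im = -(cinv w).im
        rw [one_div, Complex.inv_im, cinv_im, Complex.normSq_apply, neg_div]
        congr 2; ring
    rw [div_eq_mul_one_div, hc]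
    apply Complex.ext
    · simp
    · simp
  unfold Ef gg
  rw [e, Complex.exp_im]
  show _ = -(Real.exp (-(Real.pi * (cinv w).im)) * Real.sin (-(Real.pi * (cinv w).re)))
  rw [Real.sin_neg]
  ring

theorem Gm_eventuallyEq {w : ℂ} (hw : w ∈ Cs) :
    Gm =ᶠ[𝓝 w] fun z => Complex.I * Real.pi / z ^ 2 * Complex.exp (-(Complex.I * Real.pi / z)) := by
  filter_upwards [isOpen_Cs.mem_nhds hw] with z hz
  exact Gm_eq hz.2.2.2 (Cs_re hz)

theorem differentiableAt_Gm {w : ℂ} (hw : w ∈ Cs) : DifferentiableAt ℂ Gm w := by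
  have hne := ne_zero_of_im hw.2.2.2
  have h : DifferentiableAt ℂ (fun z : ℂ => Complex.I * Real.pi / z ^ 2 *
      Complex.exp (-(Complex.I * Real.pi / z))) w := by
    refine DifferentiableAt.mul ?_ (hasDerivAt_Ef hne).differentiableAt
    exact (differentiableAt_const _).div (differentiableAt_pow 2) (pow_ne_zero 2 hne)
  exact h.congr_of_eventuallyEq (Gm_eventuallyEq hw)

theorem div_Gm {w : ℂ} (hw : w ∈ Cs) :
    fderiv ℝ (fun z => -(Gm z).im) w 1 + fderiv ℝ (fun z => -(Gm z).re) w Complex.I = 0 := by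
  have h := (differentiableAt_Gm hw).hasDerivAt
  rw [fderiv_neg_apply', fderiv_neg_apply', fderiv_re_apply h, fderiv_im_apply h]
  simp

theorem hasFDerivAt_gg {w : ℂ} (hw : w ∈ Cs) (v : ℂ) :
    fderiv ℝ gg w v = -(Gm w * v).im := by
  have hne := ne_zero_of_im hw.2.2.2
  have e : gg =ᶠ[𝓝 w] fun z => -(Ef z).im := by
    filter_upwards [isOpen_Cs.mem_nhds hw] with z hz
    exact gg_eq hz.2.2.2
  rw [e.fderiv_eq, fderiv_neg_apply' (fun z => (Ef z).im), fderiv_im_apply (hasDerivAt_Ef hne),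
    Gm_eq hw.2.2.2 (Cs_re hw)]

theorem contDiffOn_Gm_re : ContDiffOn ℝ 1 (fun w => -(Gm w).re) D :=
  (Complex.reCLM.contDiff.comp_contDiffOn Gm_smooth).neg

theorem contDiffOn_Gm_im : ContDiffOn ℝ 1 (fun w => -(Gm w).im) D :=
  (Complex.imCLM.contDiff.comp_contDiffOn Gm_smooth).neg

/-- near a good parameter outside the cusp there is no cusp -/
theorem eventually_notMem_Cs {w : ℂ} (hD : w ∈ D) (h1 : w.re ≠ 0) (h2 : bh w ≠ 0) (hw : w ∉ Cs) :
    (∀ᶠ z in 𝓝 w, z.re < 0) ∨ (∀ᶠ z in 𝓝 w, bh z < 0) ∨ (∀ᶠ z : ℂ in 𝓝 w, z.im < 0) := by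
  rcases lt_or_gt_of_ne h1 with h | h
  · left; exact Complex.continuous_re.continuousAt.eventually (gt_mem_nhds h)
  rcases lt_or_gt_of_ne h2 with h' | h'
  · right; left; exact lip_bh.continuous.continuousAt.eventually (gt_mem_nhds h')
  right; right
  have him : w.im ≤ 0 := by
    by_contra hc
    exact hw ⟨hD, h, h', not_le.1 hc⟩
  have him0 : w.im ≠ 0 := by
    intro h0
    rw [bh_pos_iff hD, h0] at h'
    have h3 : |w.re| < 1 / 2 := (Complex.abs_re_le_norm w).trans_lt (mem_D.1 hD)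
    have h4 := (le_abs_self _).trans_lt h3
    nlinarith
  exact Complex.continuous_im.continuousAt.eventually (gt_mem_nhds (lt_of_le_of_ne him him0))

theorem eventually_notMem_Cs' {w : ℂ} (hD : w ∈ D) (h1 : w.re ≠ 0) (h2 : bh w ≠ 0) (hw : w ∉ Cs) :
    ∀ᶠ z in 𝓝 w, z ∉ Cs := by
  rcases eventually_notMem_Cs hD h1 h2 hw with h | h | h
  · filter_upwards [h] with z hz hc
    exact absurd hc.2.1 (by linarith)
  · filter_upwards [h] with z hz hc
    exact absurd hc.2.2.1 (by linarith)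
  · filter_upwards [h] with z hz hc
    exact absurd hc.2.2.2 (by linarith)

/-- the pulled back Dirichlet integrand on the sheet `p` -/
noncomputable def hcomp (φ : Eu 6 → ℝ) (p : Bool × Bool) : ℂ → ℝ :=
  Cs.indicator (fun w => sg p.1 * sg p.2 *
    (-(Gm w).im * lineDeriv ℝ (fun z => φ (F p z)) w 1 +
      -(Gm w).re * lineDeriv ℝ (fun z => φ (F p z)) w Complex.I))

theorem IsTest.support_one {φ : Eu 6 → ℝ} (hφ : IsTest φ) (p : Bool × Bool) :
    IsCompact (F p ⁻¹' tsupport φ) ∧ F p ⁻¹' tsupport φ ⊆ D := by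
  have hsub : F p ⁻¹' tsupport φ ⊆ D := fun w hw => mem_D_of_F (hφ.sub hw)
  refine ⟨?_, hsub⟩
  refine isCompact_of_isClosed_isBounded ((isClosed_tsupport φ).preimage (continuous_F p)) ?_
  exact (isBounded_ball (x := (0 : ℂ)) (r := 1 / 2)).subset hsub

theorem IsTest.comp_zero'' {φ : Eu 6 → ℝ} (hφ : IsTest φ) (p : Bool × Bool) {w : ℂ}
    (hw : w ∉ F p ⁻¹' tsupport φ) : (fun z => φ (F p z)) =ᶠ[𝓝 w] fun _ => 0 := by
  have h1 : F p w ∉ tsupport φ := hw
  filter_upwards [(continuous_F p).continuousAt.eventually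
    ((isClosed_tsupport φ).isOpen_compl.mem_nhds h1)] with z hz
  exact image_eq_zero_of_notMem_tsupport hz

theorem integrable_hcomp {φ : Eu 6 → ℝ} (hφ : IsTest φ) (p : Bool × Bool) :
    Integrable (hcomp φ p) := by
  obtain ⟨hK, hKD⟩ := hφ.support_one p
  set K := F p ⁻¹' tsupport φ with hKdef
  have hKm : MeasurableSet K := hK.isClosed.measurableSet
  have h1 : ∀ (R : ℂ → ℝ) (v : ℂ), ContinuousOn R D → ‖v‖ = 1 →
      IntegrableOn (fun w => R w * lineDeriv ℝ (fun z => φ (F p z)) w v) K := by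
    intro R v hR hv
    obtain ⟨C, hC⟩ := hφ.lineDeriv_bound p
    have hRi : IntegrableOn R K := (hR.mono hKD).integrableOn_compact hK
    refine Integrable.mul_bdd (c := C) hRi
      (measurable_lineDeriv (hφ.continuous_comp p)).aestronglyMeasurable ?_
    exact Filter.Eventually.of_forall (fun w => by rw [Real.norm_eq_abs]; exact hC w v hv)
  have h2 : IntegrableOn (fun w => sg p.1 * sg p.2 *
    (-(Gm w).im * lineDeriv ℝ (fun z => φ (F p z)) w 1 +
      -(Gm w).re * lineDeriv ℝ (fun z => φ (F p z)) w Complex.I)) K :=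
    ((h1 _ 1 contDiffOn_Gm_im.continuousOn norm_one).add
      (h1 _ Complex.I contDiffOn_Gm_re.continuousOn Complex.norm_I)).const_mul _
  have h3 : Integrable (K.indicator (fun w => sg p.1 * sg p.2 *
    (-(Gm w).im * lineDeriv ℝ (fun z => φ (F p z)) w 1 +
      -(Gm w).re * lineDeriv ℝ (fun z => φ (F p z)) w Complex.I))) :=
    (integrable_indicator_iff hKm).2 h2
  have h4 := h3.indicator isOpen_Cs.measurableSet
  refine h4.congr (Filter.Eventually.of_forall (fun w => ?_))
  show Cs.indicator (K.indicator _) w = hcomp φ p w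
  unfold hcomp
  by_cases hw : w ∈ Cs
  · rw [indicator_of_mem hw, indicator_of_mem hw]
    by_cases hwK : w ∈ K
    · rw [indicator_of_mem hwK]
    · rw [indicator_of_notMem hwK]
      have e := hφ.comp_zero'' p hwK
      rw [lineDeriv_zero_of_eventuallyEq e, lineDeriv_zero_of_eventuallyEq e]
      ring
  · rw [indicator_of_notMem hw, indicator_of_notMem hw]

theorem sum_hcomp {φ : Eu 6 → ℝ} (hφ : IsTest φ) : ∑ p, ∫ w, hcomp φ p w = 0 := by
  rw [← integral_finsetSum _ (fun p _ => integrable_hcomp hφ p)]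
  set cf : Bool × Bool → ℝ := fun p => sg p.1 * sg p.2 with hcf
  set Ψ := comb cf φ with hΨ
  obtain ⟨K, hK⟩ := hφ.comb_lip cf
  obtain ⟨hcs, hsub⟩ := hφ.comb_support cf
  set Ψ1 := cut (fun w => w.re) Ψ with hΨ1
  set Ψ2 := cut bh Ψ1 with hΨ2
  set Ψ3 := cut (fun w => w.im) Ψ2 with hΨ3
  have hfst : ∀ w : ℂ, w.re = 0 → Ψ w = 0 := fun w h => comb_fst h φ sg
  have hsnd : ∀ w : ℂ, bh w = 0 → Ψ w = 0 := by
    intro w h
    have := comb_snd h φ sg
    rw [hΨ, hcf]
    simpa only [mul_comm] using this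
  have hsnd1 : ∀ w : ℂ, bh w = 0 → Ψ1 w = 0 := by
    intro w h
    rw [hΨ1]; unfold cut; rw [hsnd w h, ite_self]
  have hmem2 : ∀ w, Ψ2 w ≠ 0 → w ∈ D ∧ 0 < w.re ∧ 0 < bh w := by
    intro w h
    have hb : 0 < bh w := by
      by_contra hc; apply h; rw [hΨ2]; unfold cut; rw [if_neg hc]
    have e1 : Ψ2 w = Ψ1 w := by rw [hΨ2]; unfold cut; rw [if_pos hb]
    have hr : 0 < w.re := by
      by_contra hc; apply h; rw [e1, hΨ1]; unfold cut; rw [if_neg hc]
    have e2 : Ψ1 w = Ψ w := by rw [hΨ1]; unfold cut; rw [if_pos hr]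
    refine ⟨?_, hr, hb⟩
    by_contra hD
    apply h
    rw [e1, e2]
    exact image_eq_zero_of_notMem_tsupport (fun hh => hD (hsub hh))
  have him2 : ∀ w : ℂ, w.im = 0 → Ψ2 w = 0 := by
    intro w h
    by_contra hc
    obtain ⟨hD, hr, hb⟩ := hmem2 w hc
    rw [bh_pos_iff hD, h] at hb
    have h3 : |w.re| < 1 / 2 := (Complex.abs_re_le_norm w).trans_lt (mem_D.1 hD)
    have h4 := (le_abs_self _).trans_lt h3
    nlinarith
  have L1 : LipschitzWith K Ψ1 := lipschitz_cut Ψ _ Complex.continuous_re hK hfst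
  have L2 : LipschitzWith K Ψ2 := lipschitz_cut Ψ1 _ lip_bh.continuous L1 hsnd1
  have L3 : LipschitzWith K Ψ3 := lipschitz_cut Ψ2 _ Complex.continuous_im L2 him2
  have S1 : tsupport Ψ3 ⊆ tsupport Ψ :=
    (tsupport_cut_subset _ _).trans ((tsupport_cut_subset _ _).trans (tsupport_cut_subset _ _))
  have h1 := div_lemma (fun w => -(Gm w).im) (fun w => -(Gm w).re) Ψ3 isOpen_D contDiffOn_Gm_im
    contDiffOn_Gm_re L3 (hcs.of_isClosed_subset (isClosed_tsupport _) S1) (S1.trans hsub) (by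
      intro w hw hne
      have him : 0 < w.im := by
        by_contra hc; apply hne; rw [hΨ3]; unfold cut; rw [if_neg hc]
      have h2 : Ψ2 w ≠ 0 := by
        intro h; apply hne; rw [hΨ3]; unfold cut; rw [h, ite_self]
      obtain ⟨hD, hr, hb⟩ := hmem2 w h2
      exact div_Gm ⟨hD, hr, hb, him⟩)
  refine (integral_congr_ae ?_).trans h1
  filter_upwards [ae_good] with w hw
  by_cases hwD : w ∈ D
  · obtain ⟨hre, hbh⟩ := hw hwD
    by_cases hC : w ∈ Cs
    · have e1 : Ψ1 =ᶠ[𝓝 w] Ψ := cut_eventuallyEq_pos Complex.continuous_re hC.2.1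
      have e2 : Ψ2 =ᶠ[𝓝 w] Ψ1 := cut_eventuallyEq_pos lip_bh.continuous hC.2.2.1
      have e3 : Ψ3 =ᶠ[𝓝 w] Ψ2 := cut_eventuallyEq_pos Complex.continuous_im hC.2.2.2
      have e := e3.trans (e2.trans e1)
      rw [e.lineDeriv_eq, e.lineDeriv_eq, hΨ, hφ.lineDeriv_comb cf hwD hre hbh,
        hφ.lineDeriv_comb cf hwD hre hbh]
      unfold hcomp
      simp only [indicator_of_mem hC]
      rw [Finset.mul_sum, Finset.mul_sum, ← Finset.sum_add_distrib]
      refine Finset.sum_congr rfl (fun p _ => ?_)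
      rw [hcf]
      ring
    · have e : Ψ3 =ᶠ[𝓝 w] fun _ => 0 := by
        rcases eventually_notMem_Cs hwD hre hbh hC with h | h | h
        · filter_upwards [h] with z hz
          have : Ψ1 z = 0 := by rw [hΨ1]; unfold cut; rw [if_neg (by linarith)]
          rw [hΨ3, hΨ2]; unfold cut; rw [this, ite_self, ite_self]
        · filter_upwards [h] with z hz
          have : Ψ2 z = 0 := by rw [hΨ2]; unfold cut; rw [if_neg (by linarith)]
          rw [hΨ3]; unfold cut; rw [this, ite_self]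
        · filter_upwards [h] with z hz
          rw [hΨ3]; unfold cut; rw [if_neg (by linarith)]
      rw [lineDeriv_zero_of_eventuallyEq e, lineDeriv_zero_of_eventuallyEq e]
      unfold hcomp
      simp only [indicator_of_notMem hC, Finset.sum_const_zero, mul_zero, add_zero]
  · have hts : w ∉ tsupport Ψ3 := fun h => hwD (hsub (S1 h))
    have e := eventuallyEq_zero_of_notMem_tsupport hts
    rw [lineDeriv_zero_of_eventuallyEq e, lineDeriv_zero_of_eventuallyEq e]
    unfold hcomp
    have hC : w ∉ Cs := fun h => hwD h.1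
    simp only [indicator_of_notMem hC, Finset.sum_const_zero, mul_zero, add_zero]

/-- **harmonicity** -/
theorem harmonic_integral {φ : Eu 6 → ℝ} (hφ : IsTest φ) :
    ∫ x, ⟪tanGrad (tan x) HH x, tanGrad (tan x) φ x⟫ ∂wt = 0 := by
  rw [int_wt (fun x => ⟪tanGrad (tan x) HH x, tanGrad (tan x) φ x⟫) (hcomp φ)
    (integrable_hcomp hφ) ?_ ?_]
  · exact sum_hcomp hφ
  · intro p
    filter_upwards [ae_good] with w hw hwD hU
    obtain ⟨hre, hbh⟩ := hw hwD
    have hH : DifferentiableAt ℝ HH (F p w) :=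
      (HH_smooth.differentiableOn one_ne_zero).differentiableAt (isOpen_U6.mem_nhds hU)
    have hφd : DifferentiableAt ℝ φ (F p w) := (hφ.smooth.differentiable one_ne_zero).differentiableAt
    rw [tan_F hre hbh, tanGrad_inner_range (Lx (F p w)) (lam w) (lam_pos w) (conf_F hre hbh) HH φ
      (F p w) hH hφd, ← hφ.lineDeriv_eq p hwD hre hbh 1, ← hφ.lineDeriv_eq p hwD hre hbh Complex.I]
    have hchain : ∀ v, fderiv ℝ HH (F p w) (Lx (F p w) v) = fderiv ℝ (fun z => HH (F p z)) w v := by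
      intro v
      have := (hH.hasFDerivAt.comp w (hasFDerivAt_F p hwD hre hbh)).fderiv
      have e : fderiv ℝ (fun z => HH (F p z)) w = (fderiv ℝ HH (F p w)).comp (Lx (F p w)) := this
      rw [e]; rfl
    rw [hchain, hchain]
    unfold hcomp
    by_cases hC : w ∈ Cs
    · rw [indicator_of_mem hC]
      have e : (fun z => HH (F p z)) =ᶠ[𝓝 w] fun z => sg p.1 * sg p.2 * gg z := by
        filter_upwards [isOpen_Cs.mem_nhds hC] with z hz
        exact HH_F hz
      have hgd : DifferentiableAt ℝ gg w := by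
        have hne := ne_zero_of_im hC.2.2.2
        have e : gg =ᶠ[𝓝 w] fun z => -(Ef z).im := by
          filter_upwards [isOpen_Cs.mem_nhds hC] with z hz
          exact gg_eq hz.2.2.2
        refine DifferentiableAt.congr_of_eventuallyEq ?_ e
        have h1 : DifferentiableAt ℝ Ef w :=
          (hasDerivAt_Ef hne).differentiableAt.restrictScalars ℝ
        exact (Complex.imCLM.differentiableAt.comp w h1).neg
      have e2 : ∀ v, fderiv ℝ (fun z => HH (F p z)) w v = sg p.1 * sg p.2 * (-(Gm w * v).im) := by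
        intro v
        rw [e.fderiv_eq]
        have h3 : fderiv ℝ (fun z => sg p.1 * sg p.2 * gg z) w = (sg p.1 * sg p.2) • fderiv ℝ gg w :=
          fderiv_const_mul hgd _
        rw [h3, ← hasFDerivAt_gg hC v]; rfl
      rw [e2, e2]
      simp only [mul_one, Complex.mul_I_im]
      ring
    · rw [indicator_of_notMem hC]
      have e : (fun z => HH (F p z)) =ᶠ[𝓝 w] fun _ => 0 := by
        filter_upwards [eventually_notMem_Cs' hwD hre hbh hC, isOpen_D.mem_nhds hwD] with z hz hzD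
        exact HH_F_zero hzD hz
      rw [e.fderiv_eq]
      simp
  · intro p
    refine Filter.Eventually.of_forall (fun w hw => ?_)
    unfold hcomp
    by_cases hC : w ∈ Cs
    · have hU : F p w ∉ U6 := fun h => hw ⟨hC.1, h⟩
      have e := hφ.comp_zero' p hU
      rw [indicator_of_mem hC, lineDeriv_zero_of_eventuallyEq e, lineDeriv_zero_of_eventuallyEq e]
      ring
    · rw [indicator_of_notMem hC]

end VUC
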