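import Pool.Agent.Lib.MP_b5b7b7_an.Geo2

/-!
# Integration with respect to the weight measure
-/

set_option autoImplicit false
set_option linter.unusedVariables false

open MeasureTheory Metric Set Filter Topology
open scoped RealInnerProductSpace NNReal ENNReal

namespace VUC

theorem measurableSet_D : MeasurableSet D := isOpen_D.measurableSet

theorem measurableSet_U6 : MeasurableSet U6 := isOpen_U6.measurableSet

theorem nu_ac : nu ≪ volume.restrict D := withDensity_absolutelyContinuous _ _

theorem nu_ac' : nu ≪ volume := nu_ac.trans Measure.absolutelyContinuous_restrict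

theorem nu_univ_lt_top : nu univ < ⊤ := by
  unfold nu
  rw [withDensity_apply _ MeasurableSet.univ, Measure.restrict_univ]
  calc ∫⁻ w in D, ENNReal.ofReal (lam w) ≤ ∫⁻ w in D, ENNReal.ofReal 17 := by
        refine setLIntegral_mono' measurableSet_D (fun w hw => ENNReal.ofReal_le_ofReal (lam_le hw))
    _ = ENNReal.ofReal 17 * volume D := by rw [setLIntegral_const]
    _ < ⊤ := ENNReal.mul_lt_top ENNReal.ofReal_lt_top (by unfold D; exact measure_ball_lt_top)

instance : IsFiniteMeasure nu := ⟨nu_univ_lt_top⟩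

theorem wt_eq : wt = ∑ p, (nu.map (F p)).restrict U6 := by
  unfold wt
  ext s hs
  rw [Measure.restrict_apply hs, Measure.finsetSum_apply, Measure.finsetSum_apply]
  refine Finset.sum_congr rfl (fun p _ => ?_)
  rw [Measure.restrict_apply hs]

/-- almost everywhere statements for the weight measure -/
theorem ae_wt {P : Eu 6 → Prop} (h : ∀ p, ∀ᵐ w ∂(volume : Measure ℂ), w ∈ D → F p w ∈ U6 → P (F p w)) :
    ∀ᵐ x ∂wt, P x := by
  rw [wt_eq, ae_iff, Measure.finsetSum_apply]
  refine Finset.sum_eq_zero (fun p _ => ?_)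
  have h1 : ∀ᵐ x ∂((nu.map (F p)).restrict U6), P x := by
    rw [ae_restrict_iff' measurableSet_U6, (measurableEmbedding_F p).ae_map_iff]
    refine nu_ac ?_
    have h2 := (ae_restrict_iff' measurableSet_D).2 (h p)
    exact h2
  exact h1

/-- the integral with respect to the weight measure in terms of the sheets -/
theorem int_wt (f : Eu 6 → ℝ) (G : Bool × Bool → ℂ → ℝ) (hG : ∀ p, Integrable (G p))
    (h1 : ∀ p, ∀ᵐ w ∂(volume : Measure ℂ), w ∈ D → F p w ∈ U6 → lam w * f (F p w) = G p w)
    (h2 : ∀ p, ∀ᵐ w ∂(volume : Measure ℂ), ¬ (w ∈ D ∧ F p w ∈ U6) → G p w = 0) :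
    ∫ x, f x ∂wt = ∑ p, ∫ w, G p w := by
  have hS : ∀ p, MeasurableSet (D ∩ F p ⁻¹' U6) := fun p =>
    measurableSet_D.inter ((continuous_F p).measurable measurableSet_U6)
  have hrest : ∀ p, (nu.restrict (F p ⁻¹' U6)) =
      (volume.restrict (D ∩ F p ⁻¹' U6)).withDensity (fun w => ENNReal.ofReal (lam w)) := by
    intro p
    have hm := (continuous_F p).measurable measurableSet_U6
    unfold nu
    rw [restrict_withDensity hm, Measure.restrict_restrict hm, inter_comm]
  have hae : ∀ p, (fun w => lam w * f (F p w)) =ᵐ[volume.restrict (D ∩ F p ⁻¹' U6)] G p := by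
    intro p
    rw [Filter.EventuallyEq, ae_restrict_iff' (hS p)]
    filter_upwards [h1 p] with w hw h
    exact hw h.1 h.2
  have hdens : Measurable (fun w => ENNReal.ofReal (lam w)) := measurable_lam.ennreal_ofReal
  have hint : ∀ p ∈ (Finset.univ : Finset (Bool × Bool)), Integrable f ((nu.map (F p)).restrict U6) := by
    intro p _
    rw [(measurableEmbedding_F p).restrict_map, (measurableEmbedding_F p).integrable_map_iff,
      hrest p, integrable_withDensity_iff_integrable_smul' hdens (by simp)]
    refine ((hG p).restrict (s := D ∩ F p ⁻¹' U6)).congr ?_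
    filter_upwards [hae p] with w hw
    rw [← hw, ENNReal.toReal_ofReal (lam_pos w).le, smul_eq_mul]
    rfl
  rw [wt_eq, integral_finsetSum_measure hint]
  refine Finset.sum_congr rfl (fun p _ => ?_)
  rw [(measurableEmbedding_F p).restrict_map, (measurableEmbedding_F p).integral_map, hrest p,
    integral_withDensity_eq_integral_toReal_smul hdens (by simp)]
  rw [← setIntegral_eq_integral_of_ae_compl_eq_zero (s := D ∩ F p ⁻¹' U6) (f := G p)]
  · refine integral_congr_ae ?_
    filter_upwards [hae p] with w hw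
    rw [← hw, ENNReal.toReal_ofReal (lam_pos w).le, smul_eq_mul]
  · filter_upwards [h2 p] with w hw h
    exact hw h

theorem wt_univ_lt_top : wt univ < ⊤ := by
  rw [wt_eq, Measure.finsetSum_apply]
  refine ENNReal.sum_lt_top.2 (fun p _ => ?_)
  refine (Measure.restrict_le_self univ).trans_lt ?_
  rw [(measurableEmbedding_F p).map_apply, preimage_univ]
  exact nu_univ_lt_top

theorem wt_compl : wt U6ᶜ = 0 := by
  unfold wt
  rw [Measure.restrict_apply measurableSet_U6.compl, compl_inter_self, measure_empty]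

theorem bh_formula {w : ℂ} (hw : w ∈ D) :
    bh w = (w.re ^ 2 + w.im ^ 2 - w.re) / ((w.re - 1) ^ 2 + w.im ^ 2) := by
  rw [bh_eq hw]
  unfold Bf
  rw [Complex.div_re, Complex.normSq_apply]
  simp only [Complex.sub_re, Complex.one_re, Complex.sub_im, Complex.one_im, sub_zero]
  rw [← add_div]
  congr 1 <;> ring

theorem den_pos {w : ℂ} (hw : w ∈ D) : 0 < (w.re - 1) ^ 2 + w.im ^ 2 := by
  rw [mem_D] at hw
  have h1 : |w.re| ≤ ‖w‖ := Complex.abs_re_le_norm w
  have h2 : w.re < 1 / 2 := (le_abs_self _).trans_lt (h1.trans_lt hw)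
  nlinarith [sq_nonneg w.im]

theorem bh_pos_iff {w : ℂ} (hw : w ∈ D) : 0 < bh w ↔ w.re < w.re ^ 2 + w.im ^ 2 := by
  rw [bh_formula hw, div_pos_iff_of_pos_right (den_pos hw)]
  constructor <;> intro h <;> linarith

theorem bh_zero_iff {w : ℂ} (hw : w ∈ D) : bh w = 0 ↔ w.re = w.re ^ 2 + w.im ^ 2 := by
  rw [bh_formula hw, div_eq_zero_iff]
  have := (den_pos hw).ne'
  constructor
  · rintro (h | h)
    · linarith
    · exact absurd h this
  · intro h; left; linarith

end VUC
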