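import Pool.Agent.Lib.MP_b5b7b7_an.Cut

/-!
# The first variation of the varifold
-/

set_option autoImplicit false
set_option linter.unusedVariables false

open MeasureTheory Metric Set Filter Topology
open scoped RealInnerProductSpace NNReal ENNReal

namespace VUC

theorem measurable_sgn : Measurable (fun t : ℝ => (SignType.sign t : ℝ)) := by
  have h : (fun t : ℝ => (SignType.sign t : ℝ)) = fun t => if 0 < t then 1 else
      if t < 0 then -1 else 0 := by
    funext t
    rcases sign_cases t with ⟨e, h⟩ | ⟨e, h⟩ | ⟨e, h⟩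
    · rw [e, if_pos h]
    · rw [e, if_neg (by linarith), if_pos h]
    · rw [e, h]; simp
  rw [h]
  exact Measurable.ite measurableSet_Ioi measurable_const
    (Measurable.ite measurableSet_Iio measurable_const measurable_const)

theorem measurable_apply (i : Fin 6) : Measurable (fun x : Eu 6 => x i) := by
  fun_prop

theorem measurable_Bdq_re : Measurable (fun x : Eu 6 => (Bd (q x)).re) :=
  Complex.measurable_re.comp (measurable_Bd.comp lip_q.continuous.measurable)

theorem measurable_Bdq_im : Measurable (fun x : Eu 6 => (Bd (q x)).im) :=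
  Complex.measurable_im.comp (measurable_Bd.comp lip_q.continuous.measurable)

theorem measurable_t1 (i : Fin 6) : Measurable (fun x : Eu 6 => t1 x i) := by
  have hs := fun j : Fin 6 => measurable_sgn.comp (measurable_apply j)
  fin_cases i
  · exact hs 0
  · exact (hs 1).neg
  · exact measurable_const
  · exact (hs 3).mul measurable_Bdq_re
  · exact ((hs 4).mul measurable_Bdq_re).neg
  · exact measurable_Bdq_im.neg

theorem measurable_t2 (i : Fin 6) : Measurable (fun x : Eu 6 => t2 x i) := by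
  have hs := fun j : Fin 6 => measurable_sgn.comp (measurable_apply j)
  fin_cases i
  · exact measurable_const
  · exact measurable_const
  · exact measurable_const
  · exact ((hs 3).mul measurable_Bdq_im).neg
  · exact (hs 4).mul measurable_Bdq_im
  · exact measurable_Bdq_re.neg

theorem abs_sign_le (t : ℝ) : |(SignType.sign t : ℝ)| ≤ 1 := by
  rcases sign_cases t with ⟨e, h⟩ | ⟨e, h⟩ | ⟨e, h⟩ <;> rw [e] <;> norm_num

theorem abs_t1_le {p : Bool × Bool} {w : ℂ} (hw : w ∈ D) (i : Fin 6) : |t1 (F p w) i| ≤ 4 := by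
  have hB := norm_Bd_le hw
  have hre : |(Bd w).re| ≤ 4 := (Complex.abs_re_le_norm _).trans hB
  have him : |(Bd w).im| ≤ 4 := (Complex.abs_im_le_norm _).trans hB
  have hm : ∀ t s : ℝ, |s| ≤ 4 → |(SignType.sign t : ℝ) * s| ≤ 4 := by
    intro t s hs
    rw [abs_mul]
    calc |(SignType.sign t : ℝ)| * |s| ≤ 1 * 4 :=
          mul_le_mul (abs_sign_le t) hs (abs_nonneg _) zero_le_one
      _ = 4 := by norm_num
  fin_cases i
  · exact (abs_sign_le _).trans (by norm_num)
  · show |-(SignType.sign (F p w 1) : ℝ)| ≤ 4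
    rw [abs_neg]; exact (abs_sign_le _).trans (by norm_num)
  · show |(0 : ℝ)| ≤ 4
    norm_num
  · show |(SignType.sign (F p w 3) : ℝ) * (Bd (q (F p w))).re| ≤ 4
    rw [q_F]; exact hm _ _ hre
  · show |-((SignType.sign (F p w 4) : ℝ) * (Bd (q (F p w))).re)| ≤ 4
    rw [q_F, abs_neg]; exact hm _ _ hre
  · show |-(Bd (q (F p w))).im| ≤ 4
    rw [q_F, abs_neg]; exact him

theorem abs_t2_le {p : Bool × Bool} {w : ℂ} (hw : w ∈ D) (i : Fin 6) : |t2 (F p w) i| ≤ 4 := by
  have hB := norm_Bd_le hw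
  have hre : |(Bd w).re| ≤ 4 := (Complex.abs_re_le_norm _).trans hB
  have him : |(Bd w).im| ≤ 4 := (Complex.abs_im_le_norm _).trans hB
  have hm : ∀ t s : ℝ, |s| ≤ 4 → |(SignType.sign t : ℝ) * s| ≤ 4 := by
    intro t s hs
    rw [abs_mul]
    calc |(SignType.sign t : ℝ)| * |s| ≤ 1 * 4 :=
          mul_le_mul (abs_sign_le t) hs (abs_nonneg _) zero_le_one
      _ = 4 := by norm_num
  fin_cases i
  · show |(0 : ℝ)| ≤ 4
    norm_num
  · show |(0 : ℝ)| ≤ 4
    norm_num
  · show |(1 : ℝ)| ≤ 4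
    norm_num
  · show |-((SignType.sign (F p w 3) : ℝ) * (Bd (q (F p w))).im)| ≤ 4
    rw [q_F, abs_neg]; exact hm _ _ him
  · show |(SignType.sign (F p w 4) : ℝ) * (Bd (q (F p w))).im| ≤ 4
    rw [q_F]; exact hm _ _ him
  · show |-(Bd (q (F p w))).re| ≤ 4
    rw [q_F, abs_neg]; exact hre

/-- an integrability criterion on the disc -/
theorem integrable_ind {g : ℂ → ℝ} (hg : Measurable g) (C : ℝ) (hC : ∀ w ∈ D, |g w| ≤ C) :
    Integrable (D.indicator g) := by
  rw [integrable_indicator_iff measurableSet_D]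
  refine Measure.integrableOn_of_bounded (M := C) ?_ hg.aestronglyMeasurable ?_
  · unfold D; exact measure_ball_lt_top.ne
  · rw [ae_restrict_iff' measurableSet_D]
    exact Filter.Eventually.of_forall (fun w hw => hC w hw)

theorem IsTest.lineDeriv_bound {φ : Eu 6 → ℝ} (hφ : IsTest φ) (p : Bool × Bool) :
    ∃ K : ℝ, ∀ w v, ‖v‖ = 1 → |lineDeriv ℝ (fun z => φ (F p z)) w v| ≤ K := by
  obtain ⟨K, hK⟩ := hφ.lip p
  have hL : LipschitzWith (Real.toNNReal K) (fun z => φ (F p z)) :=
    LipschitzWith.of_dist_le' (fun x y => by rw [Real.dist_eq]; exact hK x y)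
  refine ⟨Real.toNNReal K, fun w v hv => ?_⟩
  have := norm_lineDeriv_le_of_lipschitz ℝ hL (x₀ := w) (v := v)
  rwa [hv, mul_one, Real.norm_eq_abs] at this

theorem IsTest.continuous_comp {φ : Eu 6 → ℝ} (hφ : IsTest φ) (p : Bool × Bool) :
    Continuous (fun z => φ (F p z)) := hφ.smooth.continuous.comp (continuous_F p)

/-- the contribution of the `i`-th component to the first variation on the sheet `p` -/
noncomputable def gcomp (i : Fin 6) (φ : Eu 6 → ℝ) (p : Bool × Bool) : ℂ → ℝ :=
  D.indicator (fun w => t1 (F p w) i * lineDeriv ℝ (fun z => φ (F p z)) w 1 +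
    t2 (F p w) i * lineDeriv ℝ (fun z => φ (F p z)) w Complex.I)

theorem integrable_gcomp (i : Fin 6) {φ : Eu 6 → ℝ} (hφ : IsTest φ) (p : Bool × Bool) :
    Integrable (gcomp i φ p) := by
  obtain ⟨K, hK⟩ := hφ.lineDeriv_bound p
  have hK0 : 0 ≤ K := (abs_nonneg _).trans (hK 0 1 norm_one)
  refine integrable_ind ?_ (4 * K + 4 * K) (fun w hw => ?_)
  · exact (((measurable_t1 i).comp (continuous_F p).measurable).mul
      (measurable_lineDeriv (hφ.continuous_comp p))).add
      (((measurable_t2 i).comp (continuous_F p).measurable).mul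
      (measurable_lineDeriv (hφ.continuous_comp p)))
  · refine (abs_add_le _ _).trans (add_le_add ?_ ?_)
    · rw [abs_mul]
      exact mul_le_mul (abs_t1_le hw i) (hK w 1 norm_one) (abs_nonneg _) (by norm_num)
    · rw [abs_mul]
      exact mul_le_mul (abs_t2_le hw i) (hK w _ Complex.norm_I) (abs_nonneg _) (by norm_num)

/-- a component contributes nothing -/
theorem comp_zero (i : Fin 6) {φ : Eu 6 → ℝ} (hφ : IsTest φ) (c P Q : ℂ → ℝ)
    (cf : Bool × Bool → ℝ) (hc : Continuous c) (hP : ContDiffOn ℝ 1 P D) (hQ : ContDiffOn ℝ 1 Q D)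
    (hdiv : ∀ w ∈ D, fderiv ℝ P w 1 + fderiv ℝ Q w Complex.I = 0)
    (h0 : ∀ w, c w = 0 → comb cf φ w = 0)
    (hnull : volume {w | w ∈ D ∧ c w = 0} = 0)
    (ht1 : ∀ p, ∀ w ∈ D, t1 (F p w) i = if 0 < c w then cf p * P w else 0)
    (ht2 : ∀ p, ∀ w ∈ D, t2 (F p w) i = if 0 < c w then cf p * Q w else 0) :
    ∑ p, ∫ w, gcomp i φ p w = 0 := by
  rw [← integral_finsetSum _ (fun p _ => integrable_gcomp i hφ p)]
  obtain ⟨K, hK⟩ := hφ.comb_lip cf
  obtain ⟨hcs, hsub⟩ := hφ.comb_support cf
  have h1 := cut_integral P Q (comb cf φ) c isOpen_D hP hQ hK hcs hsub hc h0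
    (fun w hw _ => hdiv w hw) hnull
  refine (integral_congr_ae ?_).trans h1
  filter_upwards [ae_good] with w hw
  by_cases hwD : w ∈ D
  · obtain ⟨hre, hbh⟩ := hw hwD
    rw [hφ.lineDeriv_comb cf hwD hre hbh, hφ.lineDeriv_comb cf hwD hre hbh]
    unfold gcomp
    simp only [indicator_of_mem hwD, ht1 _ w hwD, ht2 _ w hwD]
    by_cases hcw : 0 < c w
    · simp only [if_pos hcw]
      rw [Finset.mul_sum, Finset.mul_sum, ← Finset.sum_add_distrib]
      refine Finset.sum_congr rfl (fun p _ => ?_)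
      ring
    · simp only [if_neg hcw, zero_mul, add_zero, Finset.sum_const_zero]
  · have hts : w ∉ tsupport (comb cf φ) := fun h => hwD (hsub h)
    have e := eventuallyEq_zero_of_notMem_tsupport hts
    rw [lineDeriv_zero_of_eventuallyEq e, lineDeriv_zero_of_eventuallyEq e]
    unfold gcomp
    simp only [indicator_of_notMem hwD, Finset.sum_const_zero, mul_zero, add_zero, ite_self]

end VUC
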