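import Pool.Agent.Lib.MP_b5b7b7_an.Stat

/-!
# Stationarity
-/

set_option autoImplicit false
set_option linter.unusedVariables false

open MeasureTheory Metric Set Filter Topology
open scoped RealInnerProductSpace NNReal ENNReal

namespace VUC

theorem fderiv_re_apply {Γ : ℂ → ℂ} {Γ' w : ℂ} (h : HasDerivAt Γ Γ' w) (v : ℂ) :
    fderiv ℝ (fun z => (Γ z).re) w v = (Γ' * v).re := by
  have h1 := (Complex.reCLM.hasFDerivAt (x := Γ w)).comp w (h.hasFDerivAt.restrictScalars ℝ)
  have h2 : fderiv ℝ (fun z => (Γ z).re) w = _ := h1.fderiv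
  rw [h2]
  simp [mul_comm]

theorem fderiv_im_apply {Γ : ℂ → ℂ} {Γ' w : ℂ} (h : HasDerivAt Γ Γ' w) (v : ℂ) :
    fderiv ℝ (fun z => (Γ z).im) w v = (Γ' * v).im := by
  have h1 := (Complex.imCLM.hasFDerivAt (x := Γ w)).comp w (h.hasFDerivAt.restrictScalars ℝ)
  have h2 : fderiv ℝ (fun z => (Γ z).im) w = _ := h1.fderiv
  rw [h2]
  simp [mul_comm]

theorem hasDerivAt_Bd {w : ℂ} (hw : w ∈ D) : HasDerivAt Bd (2 / (w - 1) ^ 3) w := by
  have h0 := sub_one_ne hw
  have h1 := ((hasDerivAt_id w).sub_const 1).fun_pow 2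
  have h2 := (hasDerivAt_const w (-1 : ℂ)).div h1 (pow_ne_zero 2 h0)
  have h3 : (0 * (id w - 1) ^ 2 - -1 * (((2 : ℕ) : ℂ) * (id w - 1) ^ (2 - 1) * 1)) /
      ((id w - 1) ^ 2) ^ 2 = 2 / (w - 1) ^ 3 := by
    simp only [id]
    field_simp
    ring
  rw [h3] at h2
  exact h2

theorem contDiffOn_Bd : ContDiffOn ℝ 1 Bd D := by
  have h : ContDiffOn ℂ 1 Bd D := by
    unfold Bd
    exact contDiffOn_const.div ((contDiffOn_id.sub contDiffOn_const).pow 2)
      (fun w hw => pow_ne_zero 2 (sub_one_ne hw))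
  exact h.restrict_scalars ℝ

theorem contDiffOn_Bd_re : ContDiffOn ℝ 1 (fun w => (Bd w).re) D :=
  Complex.reCLM.contDiff.comp_contDiffOn contDiffOn_Bd

theorem contDiffOn_Bd_im : ContDiffOn ℝ 1 (fun w => (Bd w).im) D :=
  Complex.imCLM.contDiff.comp_contDiffOn contDiffOn_Bd

theorem fderiv_neg_apply' (f : ℂ → ℝ) (w v : ℂ) :
    fderiv ℝ (fun z => -f z) w v = -fderiv ℝ f w v := by
  have : fderiv ℝ (fun z => -f z) w = -fderiv ℝ f w := fderiv_fun_neg
  rw [this]; rfl

theorem comb_expand (cf : Bool × Bool → ℝ) (φ : Eu 6 → ℝ) (w : ℂ) : comb cf φ w =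
    (cf (true, true) * φ (F (true, true) w) + cf (true, false) * φ (F (true, false) w)) +
    (cf (false, true) * φ (F (false, true) w) + cf (false, false) * φ (F (false, false) w)) := by
  unfold comb
  rw [Fintype.sum_prod_type, Fintype.sum_bool, Fintype.sum_bool, Fintype.sum_bool]

theorem F_fst {w : ℂ} (h : w.re = 0) (b : Bool) : F (true, b) w = F (false, b) w := by
  ext i
  fin_cases i <;> simp [F, h]

theorem F_snd {w : ℂ} (h : bh w = 0) (b : Bool) : F (b, true) w = F (b, false) w := by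
  ext i
  fin_cases i <;> simp [F, h]

theorem comb_fst {w : ℂ} (h : w.re = 0) (φ : Eu 6 → ℝ) (g : Bool → ℝ) :
    comb (fun p => sg p.1 * g p.2) φ w = 0 := by
  rw [comb_expand, F_fst h, F_fst h]
  simp only [sg_true, sg_false]
  ring

theorem comb_snd {w : ℂ} (h : bh w = 0) (φ : Eu 6 → ℝ) (g : Bool → ℝ) :
    comb (fun p => sg p.2 * g p.1) φ w = 0 := by
  rw [comb_expand, F_snd h, F_snd h]
  simp only [sg_true, sg_false]
  ring

/-- no component contributes to the first variation -/
theorem comp_all (i : Fin 6) {φ : Eu 6 → ℝ} (hφ : IsTest φ) : ∑ p, ∫ w, gcomp i φ p w = 0 := by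
  have hre : Continuous (fun w : ℂ => w.re) := Complex.continuous_re
  have hone : ∀ w : ℂ, (fun _ : ℂ => (1 : ℝ)) w = 0 → False := fun w h => one_ne_zero h
  have hnull1 : volume {w : ℂ | w ∈ D ∧ (fun _ : ℂ => (1 : ℝ)) w = 0} = 0 := by
    have : {w : ℂ | w ∈ D ∧ (fun _ : ℂ => (1 : ℝ)) w = 0} = ∅ := by
      ext w; simp
    rw [this, measure_empty]
  have hc0 : ContDiffOn ℝ 1 (fun _ : ℂ => (0 : ℝ)) D := contDiffOn_const
  have hc1 : ContDiffOn ℝ 1 (fun _ : ℂ => (1 : ℝ)) D := contDiffOn_const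
  have hcm : ContDiffOn ℝ 1 (fun _ : ℂ => (-1 : ℝ)) D := contDiffOn_const
  fin_cases i
  · refine comp_zero 0 hφ (fun w => w.re) (fun _ => 1) (fun _ => 0) (fun p => sg p.1 * 1) hre
      hc1 hc0 (fun w _ => by simp) (fun w h => comb_fst h φ (fun _ => 1)) null_re' ?_ ?_
    · intro p w hw
      show (SignType.sign (F p w 0) : ℝ) = _
      rw [F_0, sign_sg_mul]
      split_ifs <;> ring
    · intro p w hw
      show (0 : ℝ) = _
      split_ifs <;> ring
  · refine comp_zero 1 hφ (fun w => -w.re) (fun _ => -1) (fun _ => 0) (fun p => sg p.1 * 1) hre.neg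
      hcm hc0 (fun w _ => by simp) (fun w h => comb_fst (neg_eq_zero.1 h) φ (fun _ => 1)) ?_ ?_ ?_
    · simpa using null_re'
    · intro p w hw
      show -(SignType.sign (F p w 1) : ℝ) = _
      rw [F_1, sign_sg_mul]
      split_ifs <;> ring
    · intro p w hw
      show (0 : ℝ) = _
      split_ifs <;> ring
  · refine comp_zero 2 hφ (fun w => 1) (fun _ => 0) (fun _ => 1) (fun p => 1) continuous_const
      hc0 hc1 (fun w _ => by simp) (fun w h => (hone w h).elim) hnull1 ?_ ?_
    · intro p w hw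
      show (0 : ℝ) = _
      split_ifs <;> ring
    · intro p w hw
      show (1 : ℝ) = _
      rw [if_pos one_pos, one_mul]
  · refine comp_zero 3 hφ bh (fun w => (Bd w).re) (fun w => -(Bd w).im) (fun p => sg p.2 * 1)
      lip_bh.continuous contDiffOn_Bd_re contDiffOn_Bd_im.neg (fun w hw => ?_)
      (fun w h => comb_snd h φ (fun _ => 1)) null_bh ?_ ?_
    · rw [fderiv_neg_apply', fderiv_re_apply (hasDerivAt_Bd hw), fderiv_im_apply (hasDerivAt_Bd hw)]
      simp
    · intro p w hw
      show (SignType.sign (F p w 3) : ℝ) * (Bd (q (F p w))).re = _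
      rw [F_3, sign_sg_mul, q_F]
      split_ifs <;> ring
    · intro p w hw
      show -((SignType.sign (F p w 3) : ℝ) * (Bd (q (F p w))).im) = _
      rw [F_3, sign_sg_mul, q_F]
      split_ifs <;> ring
  · refine comp_zero 4 hφ (fun w => -bh w) (fun w => -(Bd w).re) (fun w => (Bd w).im)
      (fun p => sg p.2 * 1) lip_bh.continuous.neg contDiffOn_Bd_re.neg contDiffOn_Bd_im
      (fun w hw => ?_) (fun w h => comb_snd (neg_eq_zero.1 h) φ (fun _ => 1)) ?_ ?_ ?_
    · rw [fderiv_neg_apply', fderiv_re_apply (hasDerivAt_Bd hw), fderiv_im_apply (hasDerivAt_Bd hw)]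
      simp
    · simpa using null_bh
    · intro p w hw
      show -((SignType.sign (F p w 4) : ℝ) * (Bd (q (F p w))).re) = _
      rw [F_4, sign_sg_mul, q_F]
      split_ifs <;> ring
    · intro p w hw
      show (SignType.sign (F p w 4) : ℝ) * (Bd (q (F p w))).im = _
      rw [F_4, sign_sg_mul, q_F]
      split_ifs <;> ring
  · refine comp_zero 5 hφ (fun w => 1) (fun w => -(Bd w).im) (fun w => -(Bd w).re) (fun p => 1)
      continuous_const contDiffOn_Bd_im.neg contDiffOn_Bd_re.neg (fun w hw => ?_)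
      (fun w h => (hone w h).elim) hnull1 ?_ ?_
    · rw [fderiv_neg_apply', fderiv_neg_apply', fderiv_re_apply (hasDerivAt_Bd hw),
        fderiv_im_apply (hasDerivAt_Bd hw)]
      simp
    · intro p w hw
      show -(Bd (q (F p w))).im = _
      rw [q_F, if_pos one_pos, one_mul]
    · intro p w hw
      show -(Bd (q (F p w))).re = _
      rw [q_F, if_pos one_pos, one_mul]

theorem test_of_components {X : Eu 6 → Eu 6} (h1 : ContDiff ℝ 1 X) (h2 : HasCompactSupport X)
    (h3 : tsupport X ⊆ U6) (i : Fin 6) : IsTest (fun x => X x i) := by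
  have hsub : tsupport (fun x => X x i) ⊆ tsupport X := by
    apply closure_mono
    intro x hx h
    apply hx
    show X x i = 0
    rw [h]; rfl
  refine ⟨?_, h2.of_isClosed_subset (isClosed_tsupport _) hsub, hsub.trans h3⟩
  exact (contDiff_euclidean.1 h1) i

/-- **stationarity** -/
theorem first_variation {X : Eu 6 → Eu 6} (h1 : ContDiff ℝ 1 X) (h2 : HasCompactSupport X)
    (h3 : tsupport X ⊆ U6) : ∫ x, divAlong (tan x) X x ∂wt = 0 := by
  have ht := test_of_components h1 h2 h3
  rw [int_wt (fun x => divAlong (tan x) X x)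
    (fun p w => ∑ i, gcomp i (fun x => X x i) p w)
    (fun p => integrable_finsetSum _ (fun i _ => integrable_gcomp i (ht i) p)) ?_ ?_]
  · have e : ∀ p : Bool × Bool, ∫ w, ∑ i, gcomp i (fun x => X x i) p w =
        ∑ i, ∫ w, gcomp i (fun x => X x i) p w := fun p =>
      integral_finsetSum _ (fun i _ => integrable_gcomp i (ht i) p)
    simp only [e]
    rw [Finset.sum_comm]
    exact Finset.sum_eq_zero (fun i _ => comp_all i (ht i))
  · intro p
    filter_upwards [ae_good] with w hw hwD hU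
    obtain ⟨hre, hbh⟩ := hw hwD
    rw [tan_F hre hbh, divAlong_range (Lx (F p w)) (lam w) (lam_pos w) (conf_F hre hbh) X (F p w),
      Lx_one, Lx_I]
    unfold gcomp
    simp only [indicator_of_mem hwD]
    have hX : ∀ (i : Fin 6) (v : ℂ), lineDeriv ℝ (fun z => X (F p z) i) w v =
        (fderiv ℝ X (F p w) (Lx (F p w) v)) i := by
      intro i v
      rw [(ht i).lineDeriv_eq p hwD hre hbh v]
      have hd : DifferentiableAt ℝ X (F p w) := (h1.differentiable one_ne_zero).differentiableAt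
      have : HasFDerivAt (fun x => X x i)
          ((EuclideanSpace.proj i : Eu 6 →L[ℝ] ℝ).comp (fderiv ℝ X (F p w))) (F p w) :=
        ((EuclideanSpace.proj i : Eu 6 →L[ℝ] ℝ).hasFDerivAt).comp (F p w) hd.hasFDerivAt
      rw [this.fderiv]
      rfl
    simp only [hX, Lx_one, Lx_I]
    rw [Finset.sum_add_distrib]
    congr 1
    · rw [EuclideanSpace.inner_eq_star_dotProduct]
      simp [dotProduct, mul_comm]
    · rw [EuclideanSpace.inner_eq_star_dotProduct]
      simp [dotProduct, mul_comm]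
  · intro p
    refine Filter.Eventually.of_forall (fun w hw => ?_)
    refine Finset.sum_eq_zero (fun i _ => ?_)
    unfold gcomp
    by_cases hwD : w ∈ D
    · have hU : F p w ∉ U6 := fun h => hw ⟨hwD, h⟩
      have e := (ht i).comp_zero' p hU
      rw [indicator_of_mem hwD, lineDeriv_zero_of_eventuallyEq e, lineDeriv_zero_of_eventuallyEq e]
      simp
    · rw [indicator_of_notMem hwD]

end VUC
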