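import Mathlib

/-!
# Stationary integral varifolds and harmonic functions on them: the definitions of the statement
-/

set_option autoImplicit false

open MeasureTheory Metric Set Filter Topology
open scoped RealInnerProductSpace

namespace SUC

/-- Euclidean `d`-space. -/
abbrev Eu (d : ℕ) := EuclideanSpace ℝ (Fin d)

/-- The integral of `φ` over the blow-up at `x`, at scale `t`, of the measure `μ`:
`t⁻ᵐ ∫ φ((y - x)/t) dμ(y)`. -/
noncomputable def blowUpIntegral {d : ℕ} (m : ℕ) (μ : Measure (Eu d)) (x : Eu d) (φ : Eu d → ℝ)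
    (t : ℝ) : ℝ :=
  (t ^ m)⁻¹ * ∫ y, φ (t⁻¹ • (y - x)) ∂μ

/-- For a map `L : ℝᵐ → ℝᵈ`: the blow-ups of `μ` at `x` converge weakly, as `t ↓ 0`, to `θ` times
the image of the Lebesgue measure of `ℝᵐ` under `L`. -/
def BlowUpsConverge {d : ℕ} (m : ℕ) (μ : Measure (Eu d)) (x : Eu d) (L : Eu m → Eu d)
    (θ : ℕ) : Prop :=
  ∀ φ : Eu d → ℝ, Continuous φ → HasCompactSupport φ →
    Tendsto (blowUpIntegral m μ x φ) (𝓝[>] 0) (𝓝 (θ * ∫ u, φ (L u)))

/-- The measure `μ` has at `x` the approximate tangent plane `T` (an `m`-dimensional linear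
subspace, the image of `ℝᵐ` under an isometry) with multiplicity `θ`: the blow-ups of `μ` at `x`
converge weakly to `θ` times the `m`-dimensional Lebesgue measure of `T`. -/
def HasApproxTangent {d : ℕ} (m : ℕ) (μ : Measure (Eu d)) (x : Eu d)
    (T : Submodule ℝ (Eu d)) (θ : ℕ) : Prop :=
  ∃ L : Eu m → Eu d, Isometry L ∧ range L = T ∧ BlowUpsConverge m μ x L θ

/-- `μ` is a Radon measure in the open set `U`: it is finite on the compact subsets of `U` (and it
is extended by zero outside `U`). -/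
def IsRadonIn {d : ℕ} (μ : Measure (Eu d)) (U : Set (Eu d)) : Prop :=
  μ Uᶜ = 0 ∧ ∀ K ⊆ U, IsCompact K → μ K < ⊤

/-- `μ` is carried by countably many Lipschitz images of `ℝᵐ`. -/
def IsCarriedByLipschitzImages {d : ℕ} (m : ℕ) (μ : Measure (Eu d)) : Prop :=
  ∃ f : ℕ → Eu m → Eu d, (∀ i, ∃ c, LipschitzWith c (f i)) ∧ μ (⋃ i, range (f i))ᶜ = 0

/-- The orthogonal projection `π_T v` of the vector `v` to the linear subspace `T`. -/
noncomputable def projTo {d : ℕ} (T : Submodule ℝ (Eu d)) (v : Eu d) : Eu d :=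
  T.starProjection v

/-- An `m`-dimensional integral (integer rectifiable) varifold `V` in the open set `U ⊆ ℝᵈ`, given
by its weight measure `‖V‖`, its field `T_x V` of approximate tangent planes and its multiplicity
function: `‖V‖` is a Radon measure in `U`, absolutely continuous with respect to `ℋᵐ` and carried
by countably many Lipschitz images of `ℝᵐ`, and at `‖V‖`-almost every point `x` the plane `T_x V`
is the approximate tangent plane of `‖V‖`, with a positive integer multiplicity. -/
structure IntegralVarifold (m d : ℕ) (U : Set (Eu d)) where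
  /-- the weight measure `‖V‖` -/
  weight : Measure (Eu d)
  /-- the approximate tangent planes `T_x V` -/
  tangent : Eu d → Submodule ℝ (Eu d)
  /-- the multiplicity -/
  mult : Eu d → ℕ
  /-- the weight is a Radon measure in `U` -/
  radon : IsRadonIn weight U
  /-- the weight is absolutely continuous with respect to `ℋᵐ` -/
  absolutelyContinuous : weight ≪ Measure.hausdorffMeasure (m : ℝ)
  /-- the weight is carried by countably many Lipschitz images of `ℝᵐ` -/
  rectifiable : IsCarriedByLipschitzImages m weight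
  /-- the tangent planes depend measurably on the point -/
  measurable_tangent : ∀ v : Eu d, Measurable fun x => projTo (tangent x) v
  /-- `T_x V` is the approximate tangent plane, with positive integer multiplicity, a.e. -/
  approxTangent : ∀ᵐ x ∂weight, 1 ≤ mult x ∧ HasApproxTangent m weight x (tangent x) (mult x)

/-- The divergence at `x` of the vector field `X` along the plane `T`: the trace of `π_T ∘ DX(x)`,
that is `∑ᵢ ⟨π_T (DX(x) eᵢ), eᵢ⟩`. -/
noncomputable def divAlong {d : ℕ} (T : Submodule ℝ (Eu d)) (X : Eu d → Eu d) (x : Eu d) : ℝ :=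
  ∑ i, projTo T (fderiv ℝ X x (EuclideanSpace.single i 1)) i

/-- The tangential gradient: the orthogonal projection of `∇φ(x)` to the plane `T`. -/
noncomputable def tanGrad {d : ℕ} (T : Submodule ℝ (Eu d)) (φ : Eu d → ℝ) (x : Eu d) : Eu d :=
  projTo T (gradient φ x)

namespace IntegralVarifold

variable {m d : ℕ} {U : Set (Eu d)}

/-- `V` is stationary in `U`: `δV(X) = ∫ div_{T_x V} X d‖V‖ = 0` for all `X ∈ C¹_c(U; ℝᵈ)`. -/
def Stationary (V : IntegralVarifold m d U) : Prop :=
  ∀ X : Eu d → Eu d, ContDiff ℝ 1 X → HasCompactSupport X → tsupport X ⊆ U →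
    ∫ x, divAlong (V.tangent x) X x ∂V.weight = 0

/-- `h` is harmonic on `V`: `h ∈ C¹(U)` and `∫ ∇_{TV} h · ∇_{TV} φ d‖V‖ = 0` for all
`φ ∈ C¹_c(U)`. -/
def Harmonic (V : IntegralVarifold m d U) (h : Eu d → ℝ) : Prop :=
  ContDiffOn ℝ 1 h U ∧
    ∀ φ : Eu d → ℝ, ContDiff ℝ 1 φ → HasCompactSupport φ → tsupport φ ⊆ U →
      ∫ x, ⟪tanGrad (V.tangent x) h x, tanGrad (V.tangent x) φ x⟫ ∂V.weight = 0

/-- The support of the weight measure `‖V‖`. -/
def supp (V : IntegralVarifold m d U) : Set (Eu d) :=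
  {x | ∀ r : ℝ, 0 < r → 0 < V.weight (ball x r)}

/-- `h` vanishes to infinite order at `x₀` in `L²(‖V‖)`:
`∫_{B_r(x₀)} h² d‖V‖ = o(rᴺ)` as `r ↓ 0`, for every `N`. -/
def FlatAt (V : IntegralVarifold m d U) (h : Eu d → ℝ) (x₀ : Eu d) : Prop :=
  ∀ N : ℕ, (fun r : ℝ => ∫ x in ball x₀ r, h x ^ 2 ∂V.weight) =o[𝓝[>] 0] fun r => r ^ N

end IntegralVarifold

end SUC
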