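import Pool.Agent.Lib.MP_b5b7b7_an.Statement
import Pool.Agent.Lib.MP_b5b7b7_an.Final

/-!
# From the working definitions to the definitions of the statement
-/

set_option autoImplicit false

open MeasureTheory Metric Set Filter Topology
open scoped RealInnerProductSpace

namespace SUC

theorem hasApproxTangent_of_old {d m : ℕ} {μ : Measure (Eu d)} {x : Eu d}
    {T : Submodule ℝ (Eu d)} {θ : ℕ} (h : VUC.HasApproxTangent m μ x T θ) :
    HasApproxTangent m μ x T θ := by
  obtain ⟨hfin, hlim⟩ := h
  subst hfin
  let e : Eu (Module.finrank ℝ T) ≃ₗᵢ[ℝ] T := (stdOrthonormalBasis ℝ T).repr.symm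
  refine ⟨fun u => (e u : Eu d), ?_, ?_, ?_⟩
  · exact T.subtypeₗᵢ.isometry.comp e.isometry
  · ext y
    constructor
    · rintro ⟨u, rfl⟩
      exact (e u).2
    · intro hy
      exact ⟨e.symm ⟨y, hy⟩, by simp⟩
  · intro φ hφ hc
    have h1 := hlim φ hφ hc
    have h2 : ∫ u : Eu (Module.finrank ℝ T), φ ((e u : T) : Eu d) = ∫ u : T, φ u :=
      e.measurePreserving.integral_comp e.toHomeomorph.measurableEmbedding
        (fun u : T => φ (u : Eu d))
    rw [h2]
    exact h1

theorem divAlong_eq_old {d : ℕ} (T : Submodule ℝ (Eu d)) (X : Eu d → Eu d) (x : Eu d) :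
    divAlong T X x = VUC.divAlong T X x := by
  unfold divAlong VUC.divAlong
  have h1 : LinearMap.trace ℝ T (T.orthogonalProjectionOnto.toLinearMap ∘ₗ
      (fderiv ℝ X x).toLinearMap ∘ₗ T.subtype)
      = LinearMap.trace ℝ (Eu d) (T.subtype ∘ₗ T.orthogonalProjectionOnto.toLinearMap ∘ₗ
      (fderiv ℝ X x).toLinearMap) := by
    rw [← LinearMap.comp_assoc, LinearMap.trace_comp_comm']
  rw [h1, LinearMap.trace_eq_sum_inner _ (EuclideanSpace.basisFun (Fin d) ℝ)]
  refine Finset.sum_congr rfl fun i _ => ?_
  simp [projTo, EuclideanSpace.inner_single_left]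

variable {m d : ℕ} {U : Set (Eu d)}

/-- the same varifold, for the definitions of the statement -/
noncomputable def ofOld (V : VUC.IntegralVarifold m d U) : IntegralVarifold m d U where
  weight := V.weight
  tangent := V.tangent
  mult := V.mult
  radon := ⟨V.weight_compl, V.weight_lt_top⟩
  absolutelyContinuous := V.absolutelyContinuous
  rectifiable := V.rectifiable
  measurable_tangent := V.measurable_tangent
  approxTangent := V.approxTangent.mono fun _ hx => ⟨hx.1, hasApproxTangent_of_old hx.2⟩

theorem ofOld_stationary {V : VUC.IntegralVarifold m d U} (h : V.Stationary) :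
    (ofOld V).Stationary := by
  intro X hX hc hs
  have h1 := h X hX hc hs
  simp only [← divAlong_eq_old] at h1
  exact h1

theorem ofOld_harmonic {V : VUC.IntegralVarifold m d U} {h : Eu d → ℝ} (hh : V.Harmonic h) :
    (ofOld V).Harmonic h := hh

theorem ofOld_supp (V : VUC.IntegralVarifold m d U) : (ofOld V).supp = V.supp := rfl

theorem ofOld_flatAt {V : VUC.IntegralVarifold m d U} {h : Eu d → ℝ} {x : Eu d}
    (hh : V.FlatAt h x) : (ofOld V).FlatAt h x := hh

end SUC
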